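import Pool.Graph.R_pool_sql_team_seeded_63374d34.N254.SQ.Cls
import Pool.Graph.R_pool_sql_team_seeded_63374d34.N254.SQ.Qimp
import Pool.Graph.R_pool_sql_team_seeded_63374d34.N254.SQ.AlgS
import Pool.Graph.R_pool_sql_team_seeded_63374d34.N254.SQ.Hineq
import Pool.Graph.R_pool_sql_team_seeded_63374d34.N254.SQ.Hblk
import Pool.Graph.R_pool_sql_team_seeded_63374d34.N254.SQ.Hform
import Pool.Graph.R_pool_sql_team_seeded_63374d34.N254.SQ.GeoC
import Pool.Agent.H911.GD.Final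

/-!
Quasi-projective varieties: Veronese maps and the linearization of the boundary.
-/

set_option autoImplicit false

namespace Pool.Agent.H911.GD

open MvPolynomial
open Pool.Agent.N254.SQ (Eqs IsForm aeval_zero_of aeval_scale Gen NotIn ValueNotIn LogGeneral
  OnSpecialQ OnCurvesQ OnDiscsQ SmoothForm powerForm Component Mon ver pull aeval_pull eval_pull
  Lifts Exc GeoCurves reduce t_num t_versurj ver_exists ver_point ver_idx ver_ne_zero ver_smul
  coords_ver t_cent cl_lift ver_add ver_shift)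
open Pool.Agent.W602.GT (SubVar GeneralType coords)
open Pool.Agent.H911.QD (emb ext_apply)

/-- the points of the Veronese image of a variety -/
theorem ver_pt {n N d : ℕ} {m : Fin (N + 1) → Fin (n + 1) → ℕ} (hm : Mon n N d m) (hd : 1 ≤ d)
    {L : Type} [Field L] [Algebra ℂ L] {y : Fin (n + 1) → L} {Ω : Type} [Field Ω] [Algebra ℂ Ω]
    (u : Fin (N + 1) → Ω) (hu : u ≠ 0) (hE : ∀ p ∈ Eqs (ver m y), aeval u p = 0) :
    ∃ (x : Fin (n + 1) → Ω) (c : Ω), x ≠ 0 ∧ c ≠ 0 ∧ u = c • ver m x ∧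
      ∀ p ∈ Eqs y, aeval x p = 0 := by
  classical
  have hrel : ∀ p q r s : Fin (N + 1), m p + m q = m r + m s → u p * u q = u r * u s := by
    intro p q r s h
    have h1 := hE (X p * X q - X r * X s) ⟨⟨2, ?_⟩, ?_⟩
    · rw [map_sub, map_mul, map_mul, aeval_X, aeval_X, aeval_X, aeval_X] at h1
      exact sub_eq_zero.1 h1
    · exact ((isHomogeneous_X ℂ p).mul (isHomogeneous_X ℂ q)).sub
        ((isHomogeneous_X ℂ r).mul (isHomogeneous_X ℂ s))
    · rw [map_sub, map_mul, map_mul, aeval_X, aeval_X, aeval_X, aeval_X]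
      unfold ver
      rw [← ver_add, ← ver_add, h, sub_self]
  obtain ⟨a, b, hb, hub⟩ := ver_exists hm hd u hu hrel
  have ht : ∀ j, ∃ t, m t + Pi.single a 1 = m b + Pi.single j 1 := by
    intro j
    have := ver_shift hm b j a (by rw [hb, Pi.single_eq_same]; exact hd)
    exact this
  choose t ht using ht
  have h1 := ver_point hm hd u hrel a b hb hub t ht
  refine ⟨fun j => u (t j) / u b, u b, ?_, hub, funext h1, ?_⟩
  · have hta : t a = b := hm.inj (by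
      have := ht a
      exact add_right_cancel this)
    intro h
    have h2 : u (t a) / u b = 0 := congrFun h a
    rw [hta, div_self hub] at h2
    exact one_ne_zero h2
  · rintro p ⟨⟨e, he⟩, hp⟩
    obtain ⟨G, hG, hGp⟩ := t_versurj n N d m hm e (p ^ d) (by
      have h := he.pow d
      rwa [mul_comm] at h)
    have hpull : ∀ (Ω : Type) [Field Ω] [Algebra ℂ Ω] (x : Fin (n + 1) → Ω),
        aeval (ver m x) G = aeval x p ^ d := by
      intro Ω _ _ x
      rw [← map_pow, ← hGp, ← aeval_pull]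
      rfl
    have h2 := hE G ⟨⟨e, hG⟩, by rw [hpull, hp, zero_pow (by omega)]⟩
    rw [funext h1] at h2
    have h3 := aeval_scale hG (u b) (ver m fun j => u (t j) / u b)
    have h4 : aeval (u b • ver m fun j => u (t j) / u b) G = 0 := h2
    rw [h3, hpull] at h4
    rcases mul_eq_zero.1 h4 with h5 | h5
    · exact absurd h5 (pow_ne_zero _ hub)
    · exact eq_zero_of_pow_eq_zero h5

/-- the identical projection -/
theorem pair_id {n : ℕ} {L : Type} [Field L] [Algebra ℂ L] (y : Fin (n + 1) → L) :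
    Pair y y X X 1 where
  homA := fun i => isHomogeneous_X ℂ i
  homR := ⟨0, isHomogeneous_one _ _, fun j => isHomogeneous_X ℂ j⟩
  map := fun i => aeval_X y i
  inv := fun j => by rw [aeval_X, map_one, one_mul]
  ne := by
    rw [map_one]
    exact one_ne_zero
  reg := by
    intro Ω _ _ x hx _
    by_contra hcon
    push Not at hcon
    exact hx (funext fun i => by
      have := hcon i
      rwa [aeval_X] at this)

theorem exists_geo : ∃ D₁ : ℕ → ℕ, GeoCurves D₁ :=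
  Pool.Agent.N254.SQ.t_geoc (Pool.Agent.N254.SQ.t_alg
    (Pool.Agent.N254.SQ.t_hblk Pool.Agent.N254.SQ.t_hineq) Pool.Agent.N254.SQ.t_hform)

/-- exceptional sets under Veronese maps -/
theorem ver_iff {P : ∀ n : ℕ, Set (MvPolynomial (Fin (n + 1)) ℂ) →
    Set (MvPolynomial (Fin (n + 1)) ℂ) → MvPolynomial (Fin (n + 1)) ℂ → Prop} (hP : Exc P)
    {n N d : ℕ} {m : Fin (N + 1) → Fin (n + 1) → ℕ} (hm : Mon n N d m) (hn : 1 ≤ n)
    (hd : 3 ≤ d) (hN : 2 * n < N) {L : Type} [Field L] [Algebra ℂ L] {y : Fin (n + 1) → L}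
    {S : Finset (MvPolynomial (Fin (n + 1)) ℂ)} (hS : (S : Set _) ⊆ Eqs y)
    (hS2 : ∀ (R : Type) [Field R] (σ : ℂ →+* R) (x : Fin (n + 1) → R),
      (∀ p ∈ S, eval x (map σ p) = 0) → ∀ p ∈ Eqs y, eval x (map σ p) = 0)
    (hSd : ∀ p ∈ S, ∃ e ≤ d, p.IsHomogeneous e)
    {T : Set (MvPolynomial (Fin (n + 1)) ℂ)} {T' : Set (MvPolynomial (Fin (N + 1)) ℂ)}
    (hL : Lifts m d T T') (G : MvPolynomial (Fin (N + 1)) ℂ) (hG : IsForm G) :
    P N (Eqs (ver m y)) T' G ↔ P n (Eqs y) T (pull m G) := by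
  have hd1 : 1 ≤ d := by omega
  obtain ⟨D₁, hgeo⟩ := exists_geo
  obtain ⟨Q, hQ, hsm, hg, hga⟩ := hgeo n d hn hd N m hm hN (D₁ N) le_rfl S
    (fun p hp => hSd p hp)
  have hSx : ∀ (Ω : Type) [Field Ω] [Algebra ℂ Ω] (x : Fin (n + 1) → Ω),
      (∀ p ∈ S, aeval x p = 0) → ∀ p ∈ Eqs y, aeval x p = 0 := by
    intro Ω _ _ x hx p hp
    have h1 := hS2 Ω (algebraMap ℂ Ω) x (fun q hq => by
      rw [eval_map]
      exact hx q hq) p hp
    rw [eval_map] at h1
    exact h1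
  have h1 : ∀ (G : MvPolynomial (Fin (N + 1)) ℂ), IsForm G →
      (P N {Pool.Agent.N254.SQ.powerSum (D₁ N) Q} T' G ↔ P n (Eqs y) T (pull m G)) := by
    intro G hG
    rw [hP.transfer n N d m S _ hg hga T T' hL G hG]
    constructor
    · exact hP.mono n S (Eqs y) T (fun L' _ _ x hx p hp => hx p (hS hp)) _
    · exact hP.mono n (Eqs y) S T (fun L' _ _ x hx => hSx L' x hx) _
  rw [← h1 G hG]
  constructor
  · intro h
    have h2 := hP.restr N {Pool.Agent.N254.SQ.powerSum (D₁ N) Q} T' L (ver m y) G 1 hG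
      ⟨0, isHomogeneous_one _ _⟩ (fun F hF hFy => by
        rw [mul_one, h1 F hF]
        refine hP.van n (Eqs y) T _ ?_ fun L' _ _ x hx => ?_
        · obtain ⟨e, he⟩ := hF
          exact ⟨_, Pool.Agent.N254.SQ.pull_hom hm he⟩
        · refine hx _ ⟨?_, ?_⟩
          · obtain ⟨e, he⟩ := hF
            exact ⟨_, Pool.Agent.N254.SQ.pull_hom hm he⟩
          · rw [aeval_pull]
            exact hFy) h
    rwa [mul_one] at h2
  · refine hP.mono N _ _ T' (fun L' _ _ x hx p hp => ?_) G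
    rw [Set.mem_singleton_iff] at hp
    rw [hp]
    by_cases hx0 : x = 0
    · have h3 := aeval_scale (Pool.Agent.N254.SQ.power_form (D := D₁ N) hQ) (0 : L')
        (0 : Fin (N + 1) → L')
      rw [smul_zero, zero_pow (by omega), zero_mul] at h3
      rw [hx0]
      exact h3
    · obtain ⟨x0, c, hx0', hc, hxe, hE⟩ := ver_pt hm hd1 x hx0 hx
      rw [hxe, aeval_zero_of hg.homA hc]
      exact hg.sub L' x0 fun q hq => hE q (hS hq)

/-- the linearization of the boundary -/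
theorem exists_linear {n : ℕ} {L : Type} [Field L] [Algebra ℂ L] {w : ℕ} {y : Fin (n + 1) → L}
    (hw : 1 ≤ w) (hy : Gen L w y) {T : Set (MvPolynomial (Fin (n + 1)) ℂ)}
    (hT : ∀ F ∈ T, IsForm F) (hyT : NotIn T y) :
    ∃ (N d : ℕ) (μ : Fin (N + 1) → Fin (n + 1) → ℕ) (y' : Fin (N + 1) → L) (κ : Type)
      (_ : Fintype κ) (l : κ → MvPolynomial (Fin (N + 1)) ℂ), 1 ≤ d ∧ Mon n N d μ ∧
      y' = ver μ y ∧ (∀ k, (l k).IsHomogeneous 1) ∧ Gen L w y' ∧
      (∃ k, aeval y' (l k) ≠ 0) ∧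
      (∀ (Ω : Type) [Field Ω] [Algebra ℂ Ω] (x : Fin (n + 1) → Ω), x ≠ 0 →
        ((∃ H ∈ T, aeval x H ≠ 0) ↔ ∃ k, aeval (ver μ x) (l k) ≠ 0)) ∧
      (LogGeneral (Set.range l) L w y' ↔ LogGeneral T L w y) ∧
      ∀ P : ∀ n : ℕ, Set (MvPolynomial (Fin (n + 1)) ℂ) →
        Set (MvPolynomial (Fin (n + 1)) ℂ) → MvPolynomial (Fin (n + 1)) ℂ → Prop, Exc P → Moves P →
        ((∃ G, IsForm G ∧ aeval y' G ≠ 0 ∧ P N (Eqs y') (Set.range l) G) ↔
          ∃ G, IsForm G ∧ aeval y G ≠ 0 ∧ P n (Eqs y) T G) := by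
  classical
  have hn : 1 ≤ n := by
    rcases Nat.eq_zero_or_pos n with rfl | hn
    · exact absurd (Pool.Agent.N254.SQ.qi_no hw hy) id
    · exact hn
  obtain ⟨S, hS, hS2⟩ := reduce (Eqs y)
  obtain ⟨T0, hT0, hT02⟩ := reduce T
  obtain ⟨d, hd3, hdS, hdT⟩ : ∃ d, 3 ≤ d ∧ (∀ p ∈ S, ∃ e ≤ d, p.IsHomogeneous e) ∧
      ∀ p ∈ T0, ∃ e ≤ d, p.IsHomogeneous e := by
    have h3 : ∀ p ∈ S, ∃ e, p.IsHomogeneous e := fun p hp => (hS hp).1
    have h4 : ∀ p ∈ T0, ∃ e, p.IsHomogeneous e := fun p hp => hT p (hT0 hp)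
    choose! e he using h3
    choose! e' he' using h4
    refine ⟨max 3 (max (S.sup e) (T0.sup e')), le_max_left _ _, fun p hp => ⟨e p, ?_, he p hp⟩,
      fun p hp => ⟨e' p, ?_, he' p hp⟩⟩
    · exact (Finset.le_sup (f := e) hp).trans ((le_max_left _ _).trans (le_max_right _ _))
    · exact (Finset.le_sup (f := e') hp).trans ((le_max_right _ _).trans (le_max_right _ _))
  have hd1 : 1 ≤ d := by omega
  obtain ⟨N, m, hm, hN⟩ := t_num n d hn hd3
  obtain ⟨φ, hφ, hL⟩ := cl_lift hm T hT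
  have hφf : ∀ F ∈ φ '' T, IsForm F := by
    rintro _ ⟨H, hH, rfl⟩
    exact hφ H hH
  choose! e heT0 heT1 using hdT
  have hex : ∀ k : T0 × Fin (n + 1), ∃ l : MvPolynomial (Fin (N + 1)) ℂ, l.IsHomogeneous 1 ∧
      pull m l = (k.1 : MvPolynomial (Fin (n + 1)) ℂ) * X k.2 ^ (d - e k.1) := by
    intro k
    obtain ⟨l, hl, hl2⟩ := t_versurj n N d m hm 1
      ((k.1 : MvPolynomial (Fin (n + 1)) ℂ) * X k.2 ^ (d - e k.1)) (by
      have h1 := (heT1 k.1 k.1.2).mul ((isHomogeneous_X ℂ k.2).pow (d - e k.1))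
      have h2 : e k.1 + 1 * (d - e k.1) = d * 1 := by
        have := heT0 k.1 k.1.2
        omega
      rwa [h2] at h1)
    exact ⟨l, hl, hl2⟩
  choose l hl hl2 using hex
  have hlx : ∀ (k : T0 × Fin (n + 1)) (Ω : Type) [Field Ω] [Algebra ℂ Ω] (x : Fin (n + 1) → Ω),
      aeval (ver m x) (l k) =
        aeval x (k.1 : MvPolynomial (Fin (n + 1)) ℂ) * x k.2 ^ (d - e k.1) := by
    intro k Ω _ _ x
    rw [← aeval_pull, hl2, map_mul, map_pow, aeval_X]
  have hT0x : ∀ (Ω : Type) [Field Ω] [Algebra ℂ Ω] (x : Fin (n + 1) → Ω), x ≠ 0 →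
      ((∃ H ∈ T, aeval x H ≠ 0) ↔ ∃ k, aeval (ver m x) (l k) ≠ 0) := by
    intro Ω _ _ x hx
    constructor
    · rintro ⟨H, hH, h0⟩
      obtain ⟨j, hj⟩ : ∃ j, x j ≠ 0 := by
        by_contra hcon
        push Not at hcon
        exact hx (funext hcon)
      have h1 : ∃ H ∈ T0, aeval x H ≠ 0 := by
        by_contra hcon
        push Not at hcon
        apply h0
        have h2 := hT02 Ω (algebraMap ℂ Ω) x (fun q hq => by
          rw [eval_map]
          exact hcon q hq) H hH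
        rw [eval_map] at h2
        exact h2
      obtain ⟨H', hH', h1⟩ := h1
      refine ⟨(⟨H', hH'⟩, j), ?_⟩
      rw [hlx]
      exact mul_ne_zero h1 (pow_ne_zero _ hj)
    · rintro ⟨k, hk⟩
      rw [hlx] at hk
      exact ⟨k.1, hT0 k.1.2, left_ne_zero_of_mul hk⟩
  have hlf : ∀ F ∈ Set.range l, IsForm F := by
    rintro _ ⟨k, rfl⟩
    exact ⟨1, hl k⟩
  have hC : Compat (ver m y) X (φ '' T) (Set.range l) := by
    intro Ω _ _ u hu huE
    obtain ⟨x, c, hx, hc, hux, hxE⟩ := ver_pt hm hd1 u hu huE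
    have h1 : (∃ F ∈ φ '' T, aeval u F ≠ 0) ↔ ∃ H ∈ T, aeval x H ≠ 0 := by
      constructor
      · rintro ⟨F, hF, h0⟩
        obtain ⟨H, hH, e', he', he'F, hp⟩ := hL.down F hF
        refine ⟨H, hH, fun h2 => h0 ?_⟩
        rw [hux, aeval_zero_of ⟨e', he'F⟩ hc, ← aeval_pull, hp, map_pow, h2, zero_pow (by omega)]
      · rintro ⟨H, hH, h0⟩
        obtain ⟨F, hF, e', he', he'F, hp⟩ := hL.up H hH
        refine ⟨F, hF, ?_⟩
        rw [hux, ne_eq, aeval_zero_of ⟨e', he'F⟩ hc, ← aeval_pull, hp, map_pow]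
        exact pow_ne_zero _ h0
    have h2 : (fun i => aeval u (X i : MvPolynomial (Fin (N + 1)) ℂ)) = u := by
      funext i
      exact aeval_X u i
    rw [h1, hT0x Ω x hx, h2]
    constructor
    · rintro ⟨k, hk⟩
      refine ⟨l k, ⟨k, rfl⟩, ?_⟩
      rw [hux, ne_eq, aeval_zero_of ⟨1, hl k⟩ hc]
      exact hk
    · rintro ⟨_, ⟨k, rfl⟩, hk⟩
      refine ⟨k, ?_⟩
      rwa [hux, ne_eq, aeval_zero_of ⟨1, hl k⟩ hc] at hk
  have hne : ver m y ≠ 0 := ver_ne_zero hm hd1 hy.ne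
  have hgen : Gen L w (ver m y) := by
    refine ⟨hne, ?_, hy.dim⟩
    have h1 := coords_ver hm hd1 y hy.ne 1 one_ne_zero
    rw [one_smul] at h1
    rw [h1]
    exact hy.gen
  refine ⟨N, d, m, ver m y, T0 × Fin (n + 1), inferInstance, l, hd1, hm, rfl, hl, hgen,
    (hT0x L y hy.ne).1 hyT, hT0x, ?_, ?_⟩
  · rw [transfer_log (pair_id (ver m y)) hne hφf hlf hC]
    unfold LogGeneral
    have h1 : (fun P : FF.Place ℂ L => ¬ ValueNotIn (φ '' T) (ver m y) P) =
        fun P => ¬ ValueNotIn T y P := by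
      funext P
      have h2 := t_cent.value n N d m hm hd1 T (φ '' T) hL L y 1 hy.ne one_ne_zero P
      rw [one_smul] at h2
      rw [h2]
    rw [h1]
  · intro P hP hM
    rw [transfer_iff hM (pair_id (ver m y)) hφf hlf hC]
    have hver : ∀ G : MvPolynomial (Fin (N + 1)) ℂ, IsForm G →
        (P N (Eqs (ver m y)) (φ '' T) G ↔ P n (Eqs y) T (pull m G)) :=
      fun G hG => ver_iff hP hm hn hd3 hN hS hS2 hdS hL G hG
    constructor
    · rintro ⟨G, hG, hG0, hPG⟩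
      refine ⟨pull m G, ?_, ?_, (hver G hG).1 hPG⟩
      · obtain ⟨e', he'⟩ := hG
        exact ⟨_, Pool.Agent.N254.SQ.pull_hom hm he'⟩
      · rw [aeval_pull]
        exact hG0
    · rintro ⟨G, ⟨e', he'⟩, hG0, hPG⟩
      obtain ⟨G', hG', hp⟩ := t_versurj n N d m hm e' (G ^ d) (by
        have h := he'.pow d
        rwa [mul_comm] at h)
      have hp' : pull m G' = G ^ d := hp
      refine ⟨G', ⟨e', hG'⟩, ?_, (hver G' ⟨e', hG'⟩).2 ?_⟩
      · rw [← aeval_pull, hp', map_pow]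
        exact pow_ne_zero _ hG0
      · rw [hp']
        obtain ⟨k, rfl⟩ : ∃ k, d = k + 1 := ⟨d - 1, by omega⟩
        rw [pow_succ']
        exact (hP.idl n (Eqs y) T).mul G (G ^ k) ⟨e', he'⟩ ⟨_, he'.pow k⟩ hPG

/-! ### models with a linear boundary -/

/-- the first `m + 1` coordinates -/
def Lin (m N : ℕ) (h : m ≤ N) : Set (MvPolynomial (Fin (N + 1)) ℂ) :=
  Set.range fun i : Fin (m + 1) => X (Fin.castLE (by omega) i)

theorem lin_form {m N : ℕ} (h : m ≤ N) : ∀ F ∈ Lin m N h, IsForm F := by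
  rintro _ ⟨i, rfl⟩
  exact ⟨1, isHomogeneous_X ℂ _⟩

/-- a finite birational projection which maps the boundary to the first coordinates -/
theorem mdl_lin {n : ℕ} {L : Type} [Field L] [Algebra ℂ L] {w : ℕ} {y : Fin (n + 1) → L}
    (hy : Gen L w y) {κ : Type} [Fintype κ] {l : κ → MvPolynomial (Fin (n + 1)) ℂ}
    (hl : ∀ k, (l k).IsHomogeneous 1) (hly : ∃ k, aeval y (l k) ≠ 0) {m : ℕ} (hwm : w ≤ m) :
    ∃ A : Fin (m + w + 1 + 1) → MvPolynomial (Fin (n + 1)) ℂ, Mdl y A ∧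
      ∀ (Ω : Type) [Field Ω] [Algebra ℂ Ω] (x : Fin (n + 1) → Ω), x ≠ 0 →
        (∀ p ∈ Eqs y, aeval x p = 0) → ((∃ k, aeval x (l k) ≠ 0) ↔
          ∃ i : Fin (m + w + 1 + 1), (i : ℕ) ≤ m ∧ aeval x (A i) ≠ 0) := by
  classical
  -- the first block
  obtain ⟨Δ, hΔ, hD⟩ := gen_forms (Eqs y) (fun p hp => hp.1) (m + 1)
    (fun Ω _ _ x a ha hx => (pt_trdeg hy a x ha hx).trans_lt (by exact_mod_cast by omega))
    l 1 hl
  obtain ⟨c, hc⟩ := exists_val hΔ
  -- the second block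
  obtain ⟨k₀, hk₀⟩ := hly
  obtain ⟨Δ', hΔ', hD'⟩ := gen_forms (Set.range l ∪ Eqs y) (fun p hp => by
      rcases hp with ⟨k, rfl⟩ | h
      · exact ⟨1, hl k⟩
      · exact h.1) w
    (fun Ω _ _ x a ha hx => pt_trdeg_lt hy a x ha
      (fun p hp => hx p (Or.inr hp)) ⟨1, hl k₀⟩ hk₀ (hx _ (Or.inl ⟨k₀, rfl⟩)))
    (X : Fin (n + 1) → MvPolynomial (Fin (n + 1)) ℂ) 1 (fun k => isHomogeneous_X ℂ k)
  obtain ⟨c', hc'⟩ := exists_val hΔ'
  obtain ⟨B, hB⟩ : ∃ B : Fin (m + w + 1) → MvPolynomial (Fin (n + 1)) ℂ,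
      B = fun i : Fin (m + w + 1) => if h : (i : ℕ) < m + 1 then ∑ k, C (c (⟨i, h⟩, k)) * l k
    else ∑ k, C (c' (⟨(i : ℕ) - (m + 1), by have := i.2; omega⟩, k)) * X k := ⟨_, rfl⟩
  have hB1 : ∀ (i : Fin (m + 1)), B ⟨i, by omega⟩ = ∑ k, C (c (i, k)) * l k := by
    intro i
    rw [hB]
    simp only
    rw [dif_pos i.2]
  have hB2 : ∀ (i : Fin w), B ⟨m + 1 + i, by omega⟩ = ∑ k, C (c' (i, k)) * X k := by
    intro i
    rw [hB]
    simp only
    rw [dif_neg (by omega)]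
    congr 1
    funext k
    congr 4
    exact Fin.ext (by simp)
  have hBh : ∀ i, (B i).IsHomogeneous 1 := by
    intro i
    rw [hB]
    simp only
    split_ifs
    · exact lin_hom _ hl
    · exact lin_hom _ fun k => isHomogeneous_X ℂ k
  have hfirst : ∀ (Ω : Type) [Field Ω] [Algebra ℂ Ω] (x : Fin (n + 1) → Ω), x ≠ 0 →
      (∀ p ∈ Eqs y, aeval x p = 0) → (∀ i : Fin (m + 1), aeval x (B ⟨i, by omega⟩) = 0) →
      ∀ k, aeval x (l k) = 0 := by
    intro Ω _ _ x hx hxE h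
    refine hD c hc Ω x hx hxE fun i => ?_
    have := h i
    rwa [hB1, lin_eval] at this
  obtain ⟨θ, hθ⟩ := mdl_snoc hy (r := m + w) B hBh (by
      intro Ω _ _ x hx hxE
      by_contra hcon
      push Not at hcon
      apply hx
      have h0 := hfirst Ω x hx hxE fun i => hcon _
      funext k
      have h1 := hD' c' hc' Ω x hx (fun p hp => by
        rcases hp with ⟨k, rfl⟩ | h
        · exact h0 k
        · exact hxE p h) (fun i => by
        have := hcon ⟨m + 1 + i, by omega⟩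
        rwa [hB2, lin_eval] at this) k
      rwa [aeval_X] at h1)
  refine ⟨_, hθ, fun Ω _ _ x hx hxE => ⟨fun h => ?_, ?_⟩⟩
  · by_contra hcon
    push Not at hcon
    obtain ⟨k, hk⟩ := h
    refine hk (hfirst Ω x hx hxE (fun i => ?_) k)
    have h1 := hcon (⟨i, by omega⟩ : Fin (m + w + 1)).castSucc (by
      have := i.2
      simp only [Fin.val_castSucc]
      omega)
    rwa [Fin.snoc_castSucc] at h1
  · rintro ⟨i, him, hi⟩
    by_contra hcon
    push Not at hcon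
    apply hi
    have hi' : i = (⟨i, by omega⟩ : Fin (m + w + 1)).castSucc := Fin.ext rfl
    rw [hi', Fin.snoc_castSucc]
    have h2 := hB1 ⟨i, by omega⟩
    simp only at h2
    rw [h2, lin_eval]
    exact Finset.sum_eq_zero fun k _ => by rw [hcon k, mul_zero]

theorem compat_lin {n : ℕ} {L : Type} [Field L] [Algebra ℂ L] {y : Fin (n + 1) → L}
    {κ : Type} {l : κ → MvPolynomial (Fin (n + 1)) ℂ} {m M N : ℕ} (hmM : m ≤ M) (hMN : M ≤ N)
    {A : Fin (M + 1) → MvPolynomial (Fin (n + 1)) ℂ}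
    (h : ∀ (Ω : Type) [Field Ω] [Algebra ℂ Ω] (x : Fin (n + 1) → Ω), x ≠ 0 →
        (∀ p ∈ Eqs y, aeval x p = 0) → ((∃ k, aeval x (l k) ≠ 0) ↔
          ∃ i : Fin (M + 1), (i : ℕ) ≤ m ∧ aeval x (A i) ≠ 0)) :
    Compat y (QD.ext N A) (Set.range l) (Lin m N (hmM.trans hMN)) := by
  intro Ω _ _ x hx hxE
  have h1 : (∃ F ∈ Set.range l, aeval x F ≠ 0) ↔ ∃ k, aeval x (l k) ≠ 0 := by
    constructor
    · rintro ⟨_, ⟨k, rfl⟩, hk⟩
      exact ⟨k, hk⟩
    · rintro ⟨k, hk⟩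
      exact ⟨l k, ⟨k, rfl⟩, hk⟩
  have hem : ∀ i : Fin (M + 1), QD.ext N A (emb hMN i) = A i := fun i => ext_apply hMN A i
  rw [h1, h Ω x hx hxE]
  constructor
  · rintro ⟨i, him, hi⟩
    refine ⟨_, ⟨⟨i, by omega⟩, rfl⟩, ?_⟩
    rw [aeval_X]
    have h2 : Fin.castLE (show m + 1 ≤ N + 1 by omega) (⟨i, by omega⟩ : Fin (m + 1)) =
        emb hMN i := Fin.ext rfl
    rw [h2, hem]
    exact hi
  · rintro ⟨_, ⟨i, rfl⟩, hi⟩
    rw [aeval_X] at hi
    refine ⟨⟨i, by omega⟩, by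
      have := i.2
      simp only
      omega, ?_⟩
    have h2 : Fin.castLE (show m + 1 ≤ N + 1 by omega) i =
        emb hMN ⟨i, by omega⟩ := Fin.ext rfl
    rw [h2, hem] at hi
    exact hi

end Pool.Agent.H911.GD
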