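import Pool.Graph.R_pool_sql_team_seeded_63374d34.N254.SQ.Sab
import Pool.Agent.H911.GD.Quasi

/-!
The final theorems: quasi-projective varieties and semi-abelian special sets.
-/

set_option autoImplicit false

namespace Pool.Agent.H911.GD

open MvPolynomial
open Pool.Agent.N254.SQ (Eqs IsForm aeval_zero_of aeval_scale Gen NotIn ValueNotIn LogGeneral
  OnSpecialQ OnCurvesQ OnDiscsQ OnSab SmoothForm powerForm Component Exc t_sab sb_id sb_par sb_eval
  sb_diff PolyEntire ver Mon pull aeval_pull)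
open Pool.Agent.W602.GT (SubVar GeneralType coords)
open Pool.Agent.H911.QD (emb ext_apply)

/-- from hypersurfaces to one variety -/
theorem final_one {P : ∀ n : ℕ, Set (MvPolynomial (Fin (n + 1)) ℂ) →
    Set (MvPolynomial (Fin (n + 1)) ℂ) → MvPolynomial (Fin (n + 1)) ℂ → Prop} (hP : Typ P)
    {N : ℕ} {D₁ : ℕ → ℕ}
    (H : ∀ e D, 1 ≤ e → D₁ e ≤ D →
    ∀ (M : ℕ) (_ : M ≤ N) (w : ℕ) (L : Type) [Field L] [Algebra ℂ L] (z : Fin (M + 1) → L),
      Gen L w z → M + w ≤ N → ∀ (κ : Type) [Fintype κ] (F : κ → MvPolynomial (Fin (M + 1)) ℂ),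
      (∀ k, (F k).IsHomogeneous e) → (∀ k, aeval z (F k) = 0) →
      (∀ (Ω : Type) [Field Ω] [Algebra ℂ Ω] (x : Fin (M + 1) → Ω), (∀ k, aeval x (F k) = 0) →
        ∀ p ∈ Eqs z, aeval x p = 0) → (∃ k i, aeval z (pderiv i (F k)) ≠ 0) →
      ∃ Q : Fin (N * (2 * N + 1)) → MvPolynomial (Fin (N + 1)) ℂ,
        (∀ t, (Q t).IsHomogeneous e) ∧ Prop4 (QD.ext N z) (powerForm D Q))
    {E : Set ℕ} (hE : E.Infinite) {TN : Set (MvPolynomial (Fin (N + 1)) ℂ)}
    (hTN : ∀ F ∈ TN, IsForm F)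
    (h : ∀ (e D : ℕ) (Q : Fin (N * (2 * N + 1)) → MvPolynomial (Fin (N + 1)) ℂ), D ∈ E →
      D₁ e ≤ D → (∀ t, (Q t).IsHomogeneous e) → SmoothForm (powerForm D Q) →
      Excep P (powerForm D Q) TN) {n : ℕ} {L : Type} [Field L] [Algebra ℂ L] {w : ℕ}
    {y : Fin (n + 1) → L} (hw : 1 ≤ w) (hy : Gen L w y) {T : Set (MvPolynomial (Fin (n + 1)) ℂ)}
    (hT : ∀ F ∈ T, IsForm F) (hyT : NotIn T y) {M : ℕ} (hwM : w < M) (hMN : M + w ≤ N)
    {A : Fin (M + 1) → MvPolynomial (Fin (n + 1)) ℂ} (hA : Mdl y A)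
    (hC : Compat y (QD.ext N A) T TN)
    (htr : ∀ (z : Fin (N + 1) → L) (R : Fin (n + 1) → MvPolynomial (Fin (N + 1)) ℂ)
      (K : MvPolynomial (Fin (N + 1)) ℂ), Pair y z (QD.ext N A) R K →
      ((∃ G, IsForm G ∧ aeval z G ≠ 0 ∧ P N (Eqs z) TN G) ↔
        ∃ G, IsForm G ∧ aeval y G ≠ 0 ∧ P n (Eqs y) T G)) :
    LogGeneral T L w y ↔ ∃ G, IsForm G ∧ aeval y G ≠ 0 ∧ P n (Eqs y) T G := by
  obtain ⟨e, D, Q, z, R, K, hDE, hD, hQ, hsm, hz, hp, hPr⟩ := exists_model H hy hwM hMN hA hE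
  obtain ⟨h1, h2⟩ := h e D Q hDE hD hQ hsm
  rw [← transfer_log hPr hy.ne hT hTN hC, ← htr z R K hPr]
  exact backward_iff hw hz hp (transfer_notIn hPr hy.ne hC hyT) hP hTN h1 h2

/-- quasi-projective varieties -/
theorem quasi_backward {P : ∀ n : ℕ, Set (MvPolynomial (Fin (n + 1)) ℂ) →
    Set (MvPolynomial (Fin (n + 1)) ℂ) → MvPolynomial (Fin (n + 1)) ℂ → Prop} (hP : Exc P)
    (hM : Moves P) {m : ℕ} {D₁ : ℕ → ℕ}
    (H : ∀ e D, 1 ≤ e → D₁ e ≤ D →
    ∀ (M : ℕ) (_ : M ≤ 3 * m + 1) (w : ℕ) (L : Type) [Field L] [Algebra ℂ L]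
      (z : Fin (M + 1) → L), Gen L w z → M + w ≤ 3 * m + 1 → ∀ (κ : Type) [Fintype κ]
      (F : κ → MvPolynomial (Fin (M + 1)) ℂ),
      (∀ k, (F k).IsHomogeneous e) → (∀ k, aeval z (F k) = 0) →
      (∀ (Ω : Type) [Field Ω] [Algebra ℂ Ω] (x : Fin (M + 1) → Ω), (∀ k, aeval x (F k) = 0) →
        ∀ p ∈ Eqs z, aeval x p = 0) → (∃ k i, aeval z (pderiv i (F k)) ≠ 0) →
      ∃ Q : Fin ((3 * m + 1) * (2 * (3 * m + 1) + 1)) → MvPolynomial (Fin (3 * m + 1 + 1)) ℂ,
        (∀ t, (Q t).IsHomogeneous e) ∧ Prop4 (QD.ext (3 * m + 1) z) (powerForm D Q))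
    {E : Set ℕ} (hE : E.Infinite)
    (h : ∀ (e D : ℕ) (Q : Fin ((3 * m + 1) * (2 * (3 * m + 1) + 1)) →
        MvPolynomial (Fin (3 * m + 1 + 1)) ℂ), D ∈ E →
      D₁ e ≤ D → (∀ t, (Q t).IsHomogeneous e) → SmoothForm (powerForm D Q) →
      Excep P (powerForm D Q) (Lin m (3 * m + 1) (by omega))) {n : ℕ} {L : Type} [Field L]
    [Algebra ℂ L] {w : ℕ} {y : Fin (n + 1) → L} (hw : 1 ≤ w) (hwm : w ≤ m) (hy : Gen L w y)
    {T : Set (MvPolynomial (Fin (n + 1)) ℂ)} (hT : ∀ F ∈ T, IsForm F) (hyT : NotIn T y) :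
    LogGeneral T L w y ↔ ∃ G, IsForm G ∧ aeval y G ≠ 0 ∧ P n (Eqs y) T G := by
  obtain ⟨N', d, μ, y', κ, _, l, hd, hμ, hy', hl, hgen, hly, -, hlog, hiff⟩ :=
    exists_linear hw hy hT hyT
  rw [← hlog, ← hiff P hP hM]
  obtain ⟨A, hA, hAl⟩ := mdl_lin hgen hl hly hwm
  have hlf : ∀ F ∈ Set.range l, IsForm F := by
    rintro _ ⟨k, rfl⟩
    exact ⟨1, hl k⟩
  have hC := compat_lin (show m ≤ m + w + 1 by omega) (show m + w + 1 ≤ 3 * m + 1 by omega) hAl
  refine final_one (typ_of_exc hP) H hE (lin_form (by omega)) h hw hgen hlf ?_ (by omega) (by omega)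
    hA hC fun z R K hPr => transfer_iff hM hPr hlf (lin_form (by omega)) hC
  obtain ⟨k, hk⟩ := hly
  exact ⟨l k, ⟨k, rfl⟩, hk⟩

/-! ### semi-abelian special sets -/

/-- the semi-abelian special set of projective varieties -/
def SabQ {n : ℕ} (S T : Set (MvPolynomial (Fin (n + 1)) ℂ)) (G : MvPolynomial (Fin (n + 1)) ℂ) :
    Prop := (∃ c : ℂ, c ≠ 0 ∧ C c ∈ T) → OnSab S G

theorem typ_sab : Typ (fun _ S T G => SabQ S T G) := typ_of_exc t_sab

theorem sab_one {n : ℕ} (S : Set (MvPolynomial (Fin (n + 1)) ℂ))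
    (G : MvPolynomial (Fin (n + 1)) ℂ) : SabQ S {1} G ↔ OnSab S G := by
  constructor
  · intro h
    exact h ⟨1, one_ne_zero, by rw [map_one]; rfl⟩
  · intro h _
    exact h

theorem sab_fun {n : ℕ} (S : Set (MvPolynomial (Fin (n + 1)) ℂ)) :
    SabQ S {1} = OnSab S := funext fun G => propext (sab_one S G)

/-- polynomials of polynomial-entire functions -/
theorem pe_eval {g r M : ℕ} (G : MvPolynomial (Fin (M + 1)) ℂ)
    {F : (Fin g → ℂ) × (Fin r → ℂ) → Fin (M + 1) → ℂ}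
    (hF : ∀ j, (fun p => F p j) ∈ PolyEntire g r) :
    (fun p => eval (F p) G) ∈ PolyEntire g r := by
  have h1 : (fun p => eval (F p) G) =
      ∑ α ∈ G.support, algebraMap ℂ _ (coeff α G) * ∏ j, (fun p => F p j) ^ α j := by
    funext p
    rw [eval_eq', Finset.sum_apply]
    refine Finset.sum_congr rfl fun α _ => ?_
    rw [Pi.mul_apply, Finset.prod_apply]
    rfl
  rw [h1]
  exact Subalgebra.sum_mem _ fun α _ => Subalgebra.mul_mem _ (Subalgebra.algebraMap_mem _ _)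
    (Subalgebra.prod_mem _ fun j _ => Subalgebra.pow_mem _ (hF j) _)

/-- proportional vectors have proportional images -/
theorem par_map {n N d : ℕ} {A : Fin (N + 1) → MvPolynomial (Fin (n + 1)) ℂ}
    (hA : ∀ i, (A i).IsHomogeneous d) (hd : 1 ≤ d) {u v : Fin (n + 1) → ℂ}
    (h : ∀ i j, u i * v j = u j * v i) (i j : Fin (N + 1)) :
    eval u (A i) * eval v (A j) = eval u (A j) * eval v (A i) := by
  have h0 : ∀ i, eval (0 : Fin (n + 1) → ℂ) (A i) = 0 := by
    intro i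
    have h2 := aeval_scale (Ω := ℂ) (hA i) (0 : ℂ) (0 : Fin (n + 1) → ℂ)
    rw [smul_zero, zero_pow (by omega), zero_mul] at h2
    exact h2
  by_cases hv : v = 0
  · rw [hv, h0, h0, mul_zero, mul_zero]
  · obtain ⟨c, hc⟩ := sb_par hv (v := u) (fun i j => by linear_combination h j i)
    have h1 : ∀ i, eval u (A i) = c ^ d * eval v (A i) := by
      intro i
      rw [hc]
      exact aeval_scale (Ω := ℂ) (hA i) c v
    rw [h1, h1]
    ring

section

variable {n N : ℕ} {K : Type} [Field K] [Algebra ℂ K] {y : Fin (n + 1) → K}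
  {z : Fin (N + 1) → K} {A : Fin (N + 1) → MvPolynomial (Fin (n + 1)) ℂ}
  {R : Fin (n + 1) → MvPolynomial (Fin (N + 1)) ℂ} {H : MvPolynomial (Fin (N + 1)) ℂ}
  (hP : Pair y z A R H)
include hP

theorem sab_pull {G : MvPolynomial (Fin (N + 1)) ℂ} (hG : OnSab (Eqs z) G) :
    OnSab (Eqs y) (bind₁ A (G * H)) := by
  obtain ⟨ρ, hH, hR⟩ := hP.homR
  intro g r L hL hs F h1 h2 h3 h4
  have hd := sb_diff h1
  have hbe : ∀ w (Q : MvPolynomial (Fin (N + 1)) ℂ),
      eval (F w) (bind₁ A Q) = eval (fun i => eval (F w) (A i)) Q :=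
    fun w Q => bind_eval (Ω := ℂ) A (F w) Q
  have hRA : ∀ w j, eval (fun i => eval (F w) (A i)) (R j) =
      eval (fun i => eval (F w) (A i)) H * F w j := fun w j => hP.RA (Ω := ℂ) (h3 w) j
  by_cases hH0 : ∀ w, eval (fun i => eval (F w) (A i)) H = 0
  · right
    intro w
    rw [hbe, map_mul, hH0 w, mul_zero]
  push Not at hH0
  have hAd : Differentiable ℂ fun w i => eval (F w) (A i) :=
    sb_diff (F := fun w i => eval (F w) (A i)) fun i => pe_eval (A i) h1
  rcases hG g r L hL hs (fun w i => eval (F w) (A i)) (fun i => pe_eval (A i) h1) (by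
      obtain ⟨w, hw⟩ := h2
      obtain ⟨i, hi⟩ := hP.reg ℂ (F w) hw (h3 w)
      exact ⟨w, fun h => hi (congrFun h i)⟩) (fun w => hP.mapA (Ω := ℂ) (h3 w))
    (fun w l hl i j => par_map hP.homA le_rfl (h4 w l hl) i j) with h5 | h5
  · left
    intro p p' i j
    have hHd : Differentiable ℂ fun w => eval (fun i => eval (F w) (A i)) H := sb_eval H hAd
    have key : ∀ p p' i j, eval (fun i => eval (F p) (A i)) H *
        eval (fun i => eval (F p') (A i)) H * (F p i * F p' j - F p j * F p' i) = 0 := by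
      intro p p' i j
      have h6 := par_map hR (by omega) (h5 p p') i j
      rw [hRA, hRA, hRA, hRA] at h6
      linear_combination h6
    have hFd := differentiable_pi.1 hd
    have h7 : ∀ p p' i j, eval (fun i => eval (F p') (A i)) H *
        (F p i * F p' j - F p j * F p' i) = 0 := by
      intro p p' i j
      refine sb_id (a := fun p => eval (fun i => eval (F p') (A i)) H *
        (F p i * F p' j - F p j * F p' i)) ?_ hHd (fun p => ?_) hH0 p
      · exact (((hFd i).mul_const _).sub ((hFd j).mul_const _)).const_mul _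
      · have := key p p' i j
        linear_combination this
    have h8 : F p i * F p' j - F p j * F p' i = 0 := by
      refine sb_id (a := fun p' => F p i * F p' j - F p j * F p' i) ?_ hHd (fun p' => ?_) hH0 p'
      · exact ((hFd j).const_mul _).sub ((hFd i).const_mul _)
      · have := h7 p p' i j
        linear_combination this
    exact sub_eq_zero.1 h8
  · right
    intro w
    rw [hbe, map_mul, h5 w, zero_mul]

theorem sab_push {G : MvPolynomial (Fin (n + 1)) ℂ} (hG : OnSab (Eqs y) G) :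
    OnSab (Eqs z) (bind₁ R G * H) := by
  obtain ⟨ρ, hH, hR⟩ := hP.homR
  intro g r L hL hs F h1 h2 h3 h4
  have hd := sb_diff h1
  have hbe : ∀ w (Q : MvPolynomial (Fin (n + 1)) ℂ),
      eval (F w) (bind₁ R Q) = eval (fun j => eval (F w) (R j)) Q :=
    fun w Q => bind_eval (Ω := ℂ) R (F w) Q
  have hAR : ∀ w i, eval (fun j => eval (F w) (R j)) (A i) = eval (F w) H * F w i :=
    fun w i => hP.AR (Ω := ℂ) (h3 w) i
  by_cases hH0 : ∀ w, eval (F w) H = 0
  · right
    intro w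
    rw [map_mul, hH0 w, mul_zero]
  push Not at hH0
  have hHd : Differentiable ℂ fun w => eval (F w) H := sb_eval H hd
  have hFd := differentiable_pi.1 hd
  have hA0 : ∀ i, eval (0 : Fin (n + 1) → ℂ) (A i) = 0 := by
    intro i
    have h2 := aeval_scale (Ω := ℂ) (hP.homA i) (0 : ℂ) (0 : Fin (n + 1) → ℂ)
    rw [smul_zero, pow_one, zero_mul] at h2
    exact h2
  rcases hG g r L hL hs (fun w j => eval (F w) (R j)) (fun j => pe_eval (R j) h1) (by
      by_contra hcon
      push Not at hcon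
      obtain ⟨p0, hp0⟩ := h2
      apply hp0
      funext i
      refine sb_id (hFd i) hHd (fun w => ?_) hH0 p0
      have h5 := hAR w i
      rw [hcon w, hA0] at h5
      rw [mul_comm]
      exact h5.symm) (fun w => hP.mapR (Ω := ℂ) (h3 w))
    (fun w l hl i j => par_map hR (by omega) (h4 w l hl) i j) with h5 | h5
  · left
    intro p p' i j
    have key : ∀ p p' i j, eval (F p) H * eval (F p') H *
        (F p i * F p' j - F p j * F p' i) = 0 := by
      intro p p' i j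
      have h6 := par_map hP.homA le_rfl (h5 p p') i j
      rw [hAR, hAR, hAR, hAR] at h6
      linear_combination h6
    have h7 : ∀ p p' i j, eval (F p') H * (F p i * F p' j - F p j * F p' i) = 0 := by
      intro p p' i j
      refine sb_id (a := fun p => eval (F p') H *
        (F p i * F p' j - F p j * F p' i)) ?_ hHd (fun p => ?_) hH0 p
      · exact (((hFd i).mul_const _).sub ((hFd j).mul_const _)).const_mul _
      · have := key p p' i j
        linear_combination this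
    have h8 : F p i * F p' j - F p j * F p' i = 0 := by
      refine sb_id (a := fun p' => F p i * F p' j - F p j * F p' i) ?_ hHd (fun p' => ?_) hH0 p'
      · exact ((hFd j).const_mul _).sub ((hFd i).const_mul _)
      · have := h7 p p' i j
        linear_combination this
    exact sub_eq_zero.1 h8
  · right
    intro w
    rw [map_mul, hbe, h5 w, zero_mul]

theorem sab_iff : (∃ G, IsForm G ∧ aeval z G ≠ 0 ∧ SabQ (Eqs z) {1} G) ↔
    ∃ G, IsForm G ∧ aeval y G ≠ 0 ∧ SabQ (Eqs y) {1} G := by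
  simp only [sab_one]
  constructor
  · rintro ⟨G, hG, hGz, hPG⟩
    obtain ⟨h1, h2⟩ := hP.pull_ne hG hGz
    exact ⟨_, h1, h2, sab_pull hP hPG⟩
  · rintro ⟨G, hG, hGy, hPG⟩
    obtain ⟨h1, h2⟩ := hP.push_ne hG hGy
    exact ⟨_, h1, h2, sab_push hP hPG⟩

end

end Pool.Agent.H911.GD
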