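import Pool.Graph.R_pool_sql_team_seeded_63374d34.N254.SQ.Main2
import Pool.Graph.R_pool_sql_team_seeded_63374d34.N254.SQ.Fin3
import Pool.Agent.H911.QD.Smooth

/-!
The general hypersurface through a base locus: it is smooth, and its entire curves, its maps from the
punctured disc which do not extend, and its closed subvarieties of positive dimension which are not of
general type are in the base locus. (Adapted from the module `N254.SQ.Main2` of the library, with a
pointwise hypothesis for the smoothness.)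
-/

set_option autoImplicit false

namespace Pool.Agent.H911.GD

open MvPolynomial Filter Topology
open Pool.Agent.N254.SQ
open Pool.Agent.H911.QD (t_smooth')
open Pool.Agent.W602.GT (SubVar GeneralType val coords)
open Pool.Agent.W603.BP (Ext)

/-- The four properties of the general hypersurface. -/
theorem main_four' (H : Leaves4) (n e : ℕ) (hn : 1 ≤ n) (he : 1 ≤ e) :
    ∃ D₁ : ℕ, ∀ D, D₁ ≤ D → ∀ (K : Type) [Field K] [CharZero K]
      (ι : Type) [Fintype ι] (q : ι → MvPolynomial (Fin (n + 1)) K),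
      (∀ i, (q i).IsHomogeneous e) →
      (∀ (Ω : Type) [Field Ω] [Algebra K Ω] (x : Fin (n + 1) → Ω) (a : Fin (n + 1)), x a = 1 →
        (∀ i, aeval x (q i) = 0) → Algebra.trdeg K (Algebra.adjoin K (Set.range x)) <
        (((Matrix.of fun (i : ι) (j : Fin (n + 1)) =>
          (aeval x (pderiv j (q i)) : Ω)).rank : ℕ) : Cardinal)) →
      ∃ c : Fin (n * (2 * n + 1)) × ι → K, Smooth (hyp q D c) ∧ ∀ σ : K →+* ℂ,
        (∀ f : Fin (n + 1) → ℂ → ℂ, (∀ j, Differentiable ℂ (f j)) →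
          (∀ z, ∃ j, f j z ≠ 0) → (∀ z, eval (fun j => f j z) (map σ (hyp q D c)) = 0) →
          (∃ i j z w, f i z * f j w ≠ f j z * f i w) →
          ∀ z i, eval (fun j => f j z) (map σ (q i)) = 0) ∧
        (∀ (F : Type) [Field F] [Algebra ℂ F] (w : ℕ) (y : Fin (n + 1) → F), 1 ≤ w →
          SubVar (fun _ : Unit => map σ (hyp q D c)) F w y →
          (∀ i, val y (map σ (q i)) = 0) ∨ GeneralType ℂ F w) ∧
        ∀ (R : ℝ) (f : Fin (n + 1) → ℂ → ℂ), 0 < R → (∀ j, AnalyticOnNhd ℂ (f j) (Ext R)) →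
          (∀ z ∈ Ext R, eval (fun j => f j z) (map σ (hyp q D c)) = 0) →
          (∀ z ∈ Ext R, ∀ i, eval (fun j => f j z) (map σ (q i)) = 0) ∨
          ∀ i l, (∃ z ∈ Ext R, f l z ≠ 0) → ∃ (ρ : ℂ → ℂ) (b : ℝ), MeromorphicAt ρ 0 ∧ R ≤ b ∧
            ∀ z ∈ Ext b, f i z = ρ z⁻¹ * f l z := by
  classical
  obtain ⟨D₁, hD₁⟩ := curves H.part H.size n e (n * (2 * n + 1))
  obtain ⟨D₂, hD₂⟩ := H.gt e (n * (2 * n + 1))
  obtain ⟨D₃, hD₃⟩ := H.pic n e (n * (2 * n + 1))
  refine ⟨max (max D₁ D₂) (max D₃ 1), fun D hD K _ _ ι _ q hq hr => ?_⟩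
  have hDD : D₁ ≤ D := le_trans (le_trans (le_max_left _ _) (le_max_left _ _)) hD
  have hDD2 : D₂ ≤ D := le_trans (le_trans (le_max_right _ _) (le_max_left _ _)) hD
  have hDD3 : D₃ ≤ D := le_trans (le_trans (le_max_left _ _) (le_max_right _ _)) hD
  have hD1 : 1 ≤ D := le_trans (le_trans (le_max_right _ _) (le_max_right _ _)) hD
  set L := n * (2 * n + 1) with hL
  have hL2 : 2 * n + 1 ≤ L := Nat.le_mul_of_pos_left _ hn
  obtain ⟨Δ₁, hΔ₁, hB1⟩ := H.blocks K n L D e ι q hq
  obtain ⟨Δ₂, hΔ₂, hS1⟩ := t_smooth' t_spec t_count t_td K n L D e ι q hq hD1 hL2 hr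
  obtain ⟨c, hc⟩ : ∃ c : Fin L × ι → K, eval c (Δ₁ * Δ₂) ≠ 0 := by
    by_contra hcon
    push Not at hcon
    exact mul_ne_zero hΔ₁ hΔ₂ (MvPolynomial.funext fun c => by rw [hcon c, map_zero])
  rw [map_mul] at hc
  have hc1 := left_ne_zero_of_mul hc
  have hc2 := right_ne_zero_of_mul hc
  have haev : ∀ (Ω : Type) [Field Ω] (σ : K →+* Ω) (Δ : MvPolynomial (Fin L × ι) K),
      eval c Δ ≠ 0 → eval₂ σ (fun p => σ (c p)) Δ ≠ 0 := by
    intro Ω _ σ Δ h h2
    apply h
    apply σ.injective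
    rw [map_zero, ← h2]
    exact (eval₂_comp (f := σ) (g := c) Δ).trans rfl
  -- the values of the terms over an extension of `ℂ`
  have hval : ∀ (σ : K →+* ℂ) (Ω : Type) [Field Ω] (τ : ℂ →+* Ω) (x : Fin (n + 1) → Ω)
      (t : Fin L), eval₂ τ x (∑ i, C (σ (c (t, i))) * map σ (q i)) * eval₂ τ x (lin ℂ n t) ^ D =
        (∑ i, τ (σ (c (t, i))) * eval₂ (τ.comp σ) x (q i)) *
          eval₂ (τ.comp σ) x (lin K n t) ^ D := by
    intro σ Ω _ τ x t
    rw [eval₂_sum, ← map_lin σ, eval₂_map]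
    congr 1
    apply Finset.sum_congr rfl
    intro i _
    rw [eval₂_mul, eval₂_C, eval₂_map]
  have hkey : ∀ (σ : K →+* ℂ) (Ω : Type) [Field Ω] (τ : ℂ →+* Ω) (x : Fin (n + 1) → Ω)
      (𝓑 : Finset (Finset (Fin L))), x ≠ 0 → (∀ B ∈ 𝓑, B.Nonempty) →
      (∀ B ∈ 𝓑, ∀ B' ∈ 𝓑, B ≠ B' → Disjoint B B') → L ≤ n * 𝓑.card →
      (∀ B ∈ 𝓑, ∑ t ∈ B, eval₂ τ x (∑ i, C (σ (c (t, i))) * map σ (q i)) *
        eval₂ τ x (lin ℂ n t) ^ D = 0) → ∀ i, eval₂ τ x (map σ (q i)) = 0 := by
    intro σ Ω _ τ x 𝓑 hx hne hdis hcard hvan i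
    letI : Algebra K Ω := (τ.comp σ).toAlgebra
    have hcard2 : 2 * n + 1 ≤ 𝓑.card := Nat.le_of_mul_le_mul_left hcard hn
    have key := hB1 Ω (fun p => (τ.comp σ) (c p)) (haev Ω (τ.comp σ) Δ₁ hc1) 𝓑 hne hdis hcard2 x
      hx (by
        intro B hBB
        rw [← hvan B hBB]
        apply Finset.sum_congr rfl
        intro t _
        rw [hval]
        rfl) i
    rw [eval₂_map]
    exact key
  have hsum : ∀ (σ : K →+* ℂ) (Ω : Type) [Field Ω] (τ : ℂ →+* Ω) (x : Fin (n + 1) → Ω),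
      eval₂ τ x (map σ (hyp q D c)) = ∑ t : Fin L, eval₂ τ x (∑ i, C (σ (c (t, i))) *
        map σ (q i)) * eval₂ τ x (lin ℂ n t) ^ D := by
    intro σ Ω _ τ x
    rw [map_hyp, hyp, eval₂_sum]
    apply Finset.sum_congr rfl
    intro t _
    rw [eval₂_mul, eval₂_pow]
  have hhom : ∀ (σ : K →+* ℂ) (t : Fin L),
      (∑ i, C (σ (c (t, i))) * map σ (q i)).IsHomogeneous e := fun σ t =>
    fam_hom (fun i => (hq i).map σ) _
  refine ⟨c, ?_, fun σ => ⟨?_, ?_, ?_⟩⟩
  · intro Ω _ σ x hx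
    letI : Algebra K Ω := σ.toAlgebra
    obtain ⟨j, hj⟩ := hS1 Ω (fun p => σ (c p)) (haev Ω σ Δ₂ hc2) x hx
    refine ⟨j, ?_⟩
    rw [map_hyp]
    exact hj
  · intro f hf h0 hF hnc z i
    obtain ⟨𝓑, hne, hdis, hvan, hcard⟩ := hD₁ D hDD
      (fun t => ∑ i, C (σ (c (t, i))) * map σ (q i)) (hhom σ) f hf h0 (by
        intro z
        have h1 := hF z
        change eval₂ (RingHom.id ℂ) _ _ = 0 at h1
        rw [hsum σ ℂ (RingHom.id ℂ)] at h1
        exact h1) hnc
    have hx : (fun j => f j z) ≠ (0 : Fin (n + 1) → ℂ) := by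
      intro h
      obtain ⟨j, hj⟩ := h0 z
      exact hj (congrFun h j)
    exact hkey σ ℂ (RingHom.id ℂ) _ 𝓑 hx hne hdis hcard (fun B hBB => hvan B hBB z) i
  · intro F _ _ w y hw hy
    by_cases hgt : GeneralType ℂ F w
    · exact Or.inr hgt
    · left
      intro i
      obtain ⟨𝓑, hne, hdis, hvan, hcard⟩ := split_card H.part hn (fun t : Fin L =>
        eval₂ (algebraMap ℂ F) y (∑ i, C (σ (c (t, i))) * map σ (q i)) *
          eval₂ (algebraMap ℂ F) y (lin ℂ n t) ^ D) (by
          rw [← hsum σ F (algebraMap ℂ F)]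
          exact hy.mem ()) (by
        intro B hBc hB0 hBmin
        apply hgt
        have hc : Fintype.card {t // t ∈ B} = B.card := Fintype.card_coe B
        refine hD₂ D hDD2 F n w y hw hy.ne hy.gen hy.dim {t // t ∈ B} ?_ ?_
          (fun t => ∑ i, C (σ (c (t.1, i))) * map σ (q i)) (fun t => (t.1 : ℕ)) ?_
          (fun t => hhom σ t.1) ?_ ?_
        · rw [hc]
          exact (Finset.card_le_univ B).trans (by simp)
        · rw [hc]
          exact hBc
        · intro a b hab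
          exact Subtype.ext (Fin.ext hab)
        · have h1 := hB0
          rw [← Finset.sum_coe_sort] at h1
          exact h1
        · intro B' hB' hB'u
          exact sub_min (fun t : Fin L =>
            eval₂ (algebraMap ℂ F) y (∑ i, C (σ (c (t, i))) * map σ (q i)) *
              eval₂ (algebraMap ℂ F) y (lin ℂ n t) ^ D) B hBmin B' hB' hB'u)
      exact hkey σ F (algebraMap ℂ F) y 𝓑 hy.ne hne hdis hcard hvan i
  · intro R f hR hf hF
    by_cases hmer : ∀ i l, (∃ z ∈ Ext R, f l z ≠ 0) → ∃ (ρ : ℂ → ℂ) (b : ℝ),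
        MeromorphicAt ρ 0 ∧ R ≤ b ∧ ∀ z ∈ Ext b, f i z = ρ z⁻¹ * f l z
    · exact Or.inr hmer
    · left
      intro z hz i
      obtain ⟨𝓑, hne, hdis, hvan, hcard⟩ := split_card H.part hn (fun (t : Fin L) (z : Ext R) =>
        eval (fun j => f j z) (∑ i, C (σ (c (t, i))) * map σ (q i)) *
          eval (fun j => f j z) (lin ℂ n t) ^ D) (by
          funext z
          rw [Finset.sum_apply]
          have h1 := hF z.1 z.2
          change eval₂ (RingHom.id ℂ) _ _ = 0 at h1
          rw [hsum σ ℂ (RingHom.id ℂ)] at h1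
          exact h1) (by
        intro B hBc hB0 hBmin
        apply hmer
        have hc : Fintype.card {t // t ∈ B} = B.card := Fintype.card_coe B
        refine hD₃ D hDD3 {t // t ∈ B} ?_ ?_ ?_
          (fun t => ∑ i, C (σ (c (t.1, i))) * map σ (q i)) (fun t => (t.1 : ℕ)) ?_
          (fun t => hhom σ t.1) R f hR hf ?_ ?_
        · rw [hc]
          exact (Finset.card_le_univ B).trans (by simp)
        · rw [hc]
          exact hBc
        · rw [hc]
          omega
        · intro a b hab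
          exact Subtype.ext (Fin.ext hab)
        · intro z hz
          have h1 := congrFun hB0 ⟨z, hz⟩
          rw [← Finset.sum_coe_sort, Finset.sum_apply] at h1
          exact h1
        · intro B' hB' hB'u
          have h1 := sub_min (fun (t : Fin L) (z : Ext R) =>
            eval (fun j => f j z) (∑ i, C (σ (c (t, i))) * map σ (q i)) *
              eval (fun j => f j z) (lin ℂ n t) ^ D) B hBmin B' hB' hB'u
          by_contra hcon
          push Not at hcon
          apply h1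
          funext z
          rw [Finset.sum_apply]
          exact hcon z.1 z.2)
      by_cases hx : (fun j => f j z) = (0 : Fin (n + 1) → ℂ)
      · rw [hx]
        have h1 := eval₂_scale (RingHom.id ℂ) ((hq i).map σ) 0 (0 : Fin (n + 1) → ℂ)
        rw [zero_smul, zero_pow (by omega), zero_mul] at h1
        exact h1
      · refine hkey σ ℂ (RingHom.id ℂ) _ 𝓑 hx hne hdis hcard (fun B hBB => ?_) i
        have h1 := congrFun (hvan B hBB) ⟨z, hz⟩
        rw [Finset.sum_apply] at h1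
        exact h1

end Pool.Agent.H911.GD
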