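import Pool.Agent.H911.GD.Mdl
import Pool.Agent.H911.QD.Pull
import Pool.Agent.H911.QD.Base

/-!
A finite birational linear projection and its rational inverse.
-/

set_option autoImplicit false

namespace Pool.Agent.H911.GD

open MvPolynomial
open Pool.Agent.N254.SQ (Eqs IsForm aeval_zero_of aeval_scale Gen)
open Pool.Agent.W602.GT (coords)
open Pool.Agent.H911.QD (coords_affine ext ext_smul ext_apply emb emb_inj emb_surj)
open Pool.Agent.H911.QR (homb homb_hom homb_eval)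

/-- `z = A(y)`, where the linear forms `A i` have no common zeros on the variety with generic point
`y`, and `y = R(z) / H(z)` -/
structure Pair {n N : ℕ} {L : Type} [Field L] [Algebra ℂ L] (y : Fin (n + 1) → L)
    (z : Fin (N + 1) → L) (A : Fin (N + 1) → MvPolynomial (Fin (n + 1)) ℂ)
    (R : Fin (n + 1) → MvPolynomial (Fin (N + 1)) ℂ) (H : MvPolynomial (Fin (N + 1)) ℂ) :
    Prop where
  homA : ∀ i, (A i).IsHomogeneous 1
  homR : ∃ r, H.IsHomogeneous r ∧ ∀ j, (R j).IsHomogeneous (r + 1)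
  map : ∀ i, aeval y (A i) = z i
  inv : ∀ j, aeval z (R j) = aeval z H * y j
  ne : aeval z H ≠ 0
  reg : Regular y A

/-- homogenization of a given degree with respect to the variable `b` -/
noncomputable def homc {M : ℕ} (b : Fin (M + 1)) (d : ℕ) (P : MvPolynomial (Fin (M + 1)) ℂ) :
    MvPolynomial (Fin (M + 1)) ℂ := X b ^ (d - P.totalDegree) * homb b P

theorem homc_hom {M : ℕ} (b : Fin (M + 1)) {d : ℕ} {P : MvPolynomial (Fin (M + 1)) ℂ}
    (h : P.totalDegree ≤ d) : (homc b d P).IsHomogeneous d := by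
  have h1 := ((isHomogeneous_X ℂ b).pow (d - P.totalDegree)).mul (homb_hom b P)
  have h2 : 1 * (d - P.totalDegree) + P.totalDegree = d := by omega
  rwa [h2] at h1

theorem homc_eval {M : ℕ} (b : Fin (M + 1)) {Ω : Type} [Field Ω] [Algebra ℂ Ω] {d : ℕ}
    {P : MvPolynomial (Fin (M + 1)) ℂ} (h : P.totalDegree ≤ d) (z : Fin (M + 1) → Ω)
    (hz : z b ≠ 0) : aeval z (homc b d P) = z b ^ d * aeval (fun i => z i / z b) P := by
  obtain ⟨z1, hz1⟩ : ∃ z1 : Fin (M + 1) → Ω, z1 = fun i => z i / z b := ⟨_, rfl⟩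
  have hz2 : z = z b • z1 := by
    rw [hz1]
    funext i
    rw [Pi.smul_apply, smul_eq_mul, mul_div_cancel₀ _ hz]
  rw [← hz1]
  conv_lhs => rw [hz2]
  rw [aeval_scale (homc_hom b h)]
  congr 1
  unfold homc
  have h1 : z1 b = 1 := by
    rw [hz1]
    exact div_self hz
  rw [map_mul, map_pow, aeval_X, h1, one_pow, one_mul, homb_eval z1 h1]

section

variable {n : ℕ} {L : Type} [Field L] [Algebra ℂ L] {y : Fin (n + 1) → L}

/-- the rational inverse -/
theorem exists_inv {M : ℕ} {A : Fin (M + 1) → MvPolynomial (Fin (n + 1)) ℂ} (hy : y ≠ 0)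
    (hA : Mdl y A) : ∃ (R : Fin (n + 1) → MvPolynomial (Fin (M + 1)) ℂ)
      (H : MvPolynomial (Fin (M + 1)) ℂ) (r : ℕ), H.IsHomogeneous r ∧
      (∀ j, (R j).IsHomogeneous (r + 1)) ∧
      (∀ j, aeval (fun i => aeval y (A i)) (R j) = aeval (fun i => aeval y (A i)) H * y j) ∧
      aeval (fun i => aeval y (A i)) H ≠ 0 := by
  classical
  obtain ⟨b, hb⟩ := hA.reg L y hy (fun p hp => hp.2)
  obtain ⟨z, hz⟩ : ∃ z : Fin (M + 1) → L, z = fun i => aeval y (A i) := ⟨_, rfl⟩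
  have hbir := hA.bir
  rw [← hz] at hbir ⊢
  have hzb : z b ≠ 0 := by
    rw [hz]
    exact hb
  -- the coordinates are rational functions of the projection
  have h1 : ∀ j, ∃ r s : MvPolynomial (Fin (M + 1)) ℂ,
      aeval (fun i => z i / z b) s ≠ 0 ∧
      y j * aeval (fun i => z i / z b) s = z b * aeval (fun i => z i / z b) r := by
    intro j
    have h2 : y j / z b ∈ IntermediateField.adjoin ℂ (Set.range fun i => z i / z b) := by
      rw [← coords_affine _ b hzb, hbir]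
      trivial
    rw [IntermediateField.mem_adjoin_range_iff] at h2
    obtain ⟨r, s, hrs⟩ := h2
    by_cases hs : aeval (fun i => z i / z b) s = 0
    · refine ⟨0, 1, ?_, ?_⟩
      · rw [map_one]
        exact one_ne_zero
      · rw [hs, div_zero] at hrs
        rw [map_one, mul_one, map_zero, mul_zero]
        rcases div_eq_zero_iff.1 hrs with h3 | h3
        · exact h3
        · exact absurd h3 hzb
    · refine ⟨r, s, hs, ?_⟩
      rw [div_eq_div_iff hzb hs] at hrs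
      rw [hrs, mul_comm]
  choose r s hs hrs using h1
  obtain ⟨S, hS⟩ : ∃ S : MvPolynomial (Fin (M + 1)) ℂ, S = ∏ j, s j := ⟨_, rfl⟩
  obtain ⟨r', hr'⟩ : ∃ r' : Fin (n + 1) → MvPolynomial (Fin (M + 1)) ℂ,
    r' = fun j => r j * ∏ i ∈ Finset.univ.erase j, s i := ⟨_, rfl⟩
  have hSs : ∀ j, S = s j * ∏ i ∈ Finset.univ.erase j, s i := by
    intro j
    rw [hS, Finset.mul_prod_erase _ _ (Finset.mem_univ j)]
  have hrel : ∀ j, y j * aeval (fun i => z i / z b) S = z b * aeval (fun i => z i / z b) (r' j) := by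
    intro j
    rw [hSs j, hr', map_mul]
    simp only
    rw [map_mul, ← mul_assoc, hrs, mul_assoc]
  obtain ⟨d, hd1, hd2⟩ : ∃ d : ℕ, S.totalDegree ≤ d ∧ ∀ j, (r' j).totalDegree ≤ d := by
    refine ⟨S.totalDegree + ∑ j, (r' j).totalDegree, Nat.le_add_right _ _, fun j => ?_⟩
    have h2 := Finset.single_le_sum (f := fun j => (r' j).totalDegree)
      (fun i _ => Nat.zero_le _) (Finset.mem_univ j)
    have h3 : (r' j).totalDegree ≤ ∑ j, (r' j).totalDegree := h2
    omega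
  refine ⟨fun j => X b * homc b d (r' j), homc b d S, d, homc_hom b hd1, fun j => ?_, fun j => ?_,
    ?_⟩
  · have := (isHomogeneous_X ℂ b).mul (homc_hom b (hd2 j))
    have h3 : 1 + d = d + 1 := by omega
    rwa [h3] at this
  · rw [map_mul, aeval_X, homc_eval b hd1 z hzb, homc_eval b (hd2 j) z hzb]
    linear_combination (-(z b) ^ d) * hrel j
  · rw [homc_eval b hd1 z hzb, hS, map_prod]
    exact mul_ne_zero (pow_ne_zero _ hzb) (Finset.prod_ne_zero_iff.2 fun j _ => hs j)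

/-- the pair in a larger projective space -/
theorem exists_pair {M N : ℕ} (hMN : M ≤ N) {A : Fin (M + 1) → MvPolynomial (Fin (n + 1)) ℂ}
    (hy : y ≠ 0) (hA : Mdl y A) :
    ∃ (R : Fin (n + 1) → MvPolynomial (Fin (N + 1)) ℂ) (H : MvPolynomial (Fin (N + 1)) ℂ),
      Pair y (QD.ext N fun i => aeval y (A i)) (QD.ext N A) R H := by
  obtain ⟨R, H, r, hH, hR, h1, h2⟩ := exists_inv hy hA
  have hem : ∀ P : MvPolynomial (Fin (M + 1)) ℂ,
      aeval (QD.ext N fun i => aeval y (A i)) (rename (emb hMN) P) =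
        aeval (fun i => aeval y (A i)) P := by
    intro P
    rw [aeval_rename]
    congr 2
    funext i
    exact ext_apply hMN _ i
  refine ⟨fun j => rename (emb hMN) (R j), rename (emb hMN) H, ⟨?_, ?_, ?_, ?_, ?_, ?_⟩⟩
  · intro i
    unfold Pool.Agent.H911.QD.ext
    split_ifs
    · exact hA.hom _
    · exact isHomogeneous_zero _ _ _
  · exact ⟨r, hH.rename_isHomogeneous, fun j => (hR j).rename_isHomogeneous⟩
  · intro i
    unfold Pool.Agent.H911.QD.ext
    split_ifs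
    · rfl
    · rw [map_zero]
  · intro j
    rw [hem, hem, h1]
  · rw [hem]
    exact h2
  · intro Ω _ _ x hx hxE
    obtain ⟨i, hi⟩ := hA.reg Ω x hx hxE
    refine ⟨emb hMN i, ?_⟩
    have h3 : QD.ext N A (emb hMN i) = A i := ext_apply hMN A i
    rw [h3]
    exact hi

end

/-! ### identities -/

section

variable {n N : ℕ} {L : Type} [Field L] [Algebra ℂ L] {y : Fin (n + 1) → L}
  {z : Fin (N + 1) → L} {A : Fin (N + 1) → MvPolynomial (Fin (n + 1)) ℂ}
  {R : Fin (n + 1) → MvPolynomial (Fin (N + 1)) ℂ} {H : MvPolynomial (Fin (N + 1)) ℂ}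

theorem bind_eval {n N : ℕ} {Ω : Type} [CommRing Ω] [Algebra ℂ Ω]
    (T : Fin (N + 1) → MvPolynomial (Fin (n + 1)) ℂ) (x : Fin (n + 1) → Ω)
    (p : MvPolynomial (Fin (N + 1)) ℂ) :
    aeval x (bind₁ T p) = aeval (fun i => aeval x (T i)) p := aeval_bind₁ x T p

theorem bind_hom {n N : ℕ} {T : Fin (N + 1) → MvPolynomial (Fin (n + 1)) ℂ} {t : ℕ}
    (hT : ∀ i, (T i).IsHomogeneous t) {p : MvPolynomial (Fin (N + 1)) ℂ} {e : ℕ}
    (hp : p.IsHomogeneous e) : (bind₁ T p).IsHomogeneous (t * e) := hp.aeval T hT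

theorem bind_form {n N : ℕ} {T : Fin (N + 1) → MvPolynomial (Fin (n + 1)) ℂ} {t : ℕ}
    (hT : ∀ i, (T i).IsHomogeneous t) {p : MvPolynomial (Fin (N + 1)) ℂ}
    (hp : IsForm p) : IsForm (bind₁ T p) := by
  obtain ⟨e, he⟩ := hp
  exact ⟨_, bind_hom hT he⟩

variable (hP : Pair y z A R H)
include hP

theorem Pair.z_eq : (fun i => aeval y (A i)) = z := funext hP.map

theorem Pair.y_eq : (fun j => aeval z (R j)) = aeval z H • y := funext fun j => by
  rw [hP.inv, Pi.smul_apply, smul_eq_mul]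

theorem Pair.mapA {Ω : Type} [Field Ω] [Algebra ℂ Ω] {x : Fin (n + 1) → Ω}
    (hx : ∀ p ∈ Eqs y, aeval x p = 0) : ∀ p ∈ Eqs z, aeval (fun i => aeval x (A i)) p = 0 := by
  rintro p ⟨hp, hpz⟩
  rw [← bind_eval]
  apply hx
  refine ⟨bind_form hP.homA hp, ?_⟩
  rw [bind_eval, hP.z_eq]
  exact hpz

theorem Pair.mapR {Ω : Type} [Field Ω] [Algebra ℂ Ω] {x : Fin (N + 1) → Ω}
    (hx : ∀ p ∈ Eqs z, aeval x p = 0) : ∀ p ∈ Eqs y, aeval (fun j => aeval x (R j)) p = 0 := by
  rintro p ⟨hp, hpy⟩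
  obtain ⟨r, hH, hR⟩ := hP.homR
  rw [← bind_eval]
  apply hx
  refine ⟨bind_form hR hp, ?_⟩
  rw [bind_eval, hP.y_eq, aeval_zero_of hp hP.ne]
  exact hpy

theorem Pair.RA {Ω : Type} [Field Ω] [Algebra ℂ Ω] {x : Fin (n + 1) → Ω}
    (hx : ∀ p ∈ Eqs y, aeval x p = 0) (j : Fin (n + 1)) :
    aeval (fun i => aeval x (A i)) (R j) = aeval (fun i => aeval x (A i)) H * x j := by
  obtain ⟨r, hH, hR⟩ := hP.homR
  have h1 : bind₁ A (R j) - bind₁ A H * X j ∈ Eqs y := by
    refine ⟨⟨1 * (r + 1), ?_⟩, ?_⟩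
    · refine (bind_hom hP.homA (hR j)).sub ?_
      have h2 := (bind_hom hP.homA hH).mul (isHomogeneous_X ℂ j)
      have h3 : 1 * r + 1 = 1 * (r + 1) := by ring
      rwa [h3] at h2
    · rw [map_sub, map_mul, bind_eval, bind_eval, aeval_X, hP.z_eq, hP.inv, sub_self]
  have h2 := hx _ h1
  rwa [map_sub, map_mul, bind_eval, bind_eval, aeval_X, sub_eq_zero] at h2

theorem Pair.AR {Ω : Type} [Field Ω] [Algebra ℂ Ω] {x : Fin (N + 1) → Ω}
    (hx : ∀ p ∈ Eqs z, aeval x p = 0) (i : Fin (N + 1)) :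
    aeval (fun j => aeval x (R j)) (A i) = aeval x H * x i := by
  obtain ⟨r, hH, hR⟩ := hP.homR
  have h1 : bind₁ R (A i) - H * X i ∈ Eqs z := by
    refine ⟨⟨(r + 1) * 1, ?_⟩, ?_⟩
    · refine (bind_hom hR (hP.homA i)).sub ?_
      have h2 := hH.mul (isHomogeneous_X ℂ i)
      rwa [mul_one]
    · rw [map_sub, map_mul, bind_eval, aeval_X, hP.y_eq]
      have h2 := aeval_scale (hP.homA i) (aeval z H) y
      rw [h2, pow_one, hP.map, sub_self]
  have h2 := hx _ h1
  rwa [map_sub, map_mul, bind_eval, aeval_X, sub_eq_zero] at h2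

theorem Pair.z_ne (hy : y ≠ 0) : z ≠ 0 := by
  intro h
  obtain ⟨i, hi⟩ := hP.reg L y hy (fun p hp => hp.2)
  rw [hP.map, h] at hi
  exact hi rfl

end

end Pool.Agent.H911.GD
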