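import Pool.Graph.R_pool_sql_team_seeded_63374d34.N254.SQ.Cent
import Pool.Agent.H911.GD.Pair

/-!
Subvarieties of log general type under finite birational projections.
-/

set_option autoImplicit false

namespace Pool.Agent.H911.GD

open MvPolynomial FF
open Pool.Agent.N254.SQ (Eqs IsForm aeval_zero_of aeval_scale Gen NotIn ValueNotIn LogGeneral
  OnSpecialQ CeU ce_ord)
open Pool.Agent.W602.GT (coords SubVar)
open Pool.Agent.H911.QD (coords_affine)

/-- the projection `A` maps the complement of `V(T)` to the complement of `V(T')` and `V(T)` to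
`V(T')` -/
def Compat {n N : ℕ} {L : Type} [Field L] [Algebra ℂ L] (y : Fin (n + 1) → L)
    (A : Fin (N + 1) → MvPolynomial (Fin (n + 1)) ℂ) (T : Set (MvPolynomial (Fin (n + 1)) ℂ))
    (T' : Set (MvPolynomial (Fin (N + 1)) ℂ)) : Prop :=
  ∀ (Ω : Type) [Field Ω] [Algebra ℂ Ω] (x : Fin (n + 1) → Ω), x ≠ 0 →
    (∀ p ∈ Eqs y, aeval x p = 0) →
    ((∃ F ∈ T, aeval x F ≠ 0) ↔ ∃ F ∈ T', aeval (fun i => aeval x (A i)) F ≠ 0)

theorem ratio_mem {L : Type} [Field L] [Algebra ℂ L] {M : ℕ} {v : Fin (M + 1) → L} (hv : v ≠ 0)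
    {u : ℕ} {P Q : MvPolynomial (Fin (M + 1)) ℂ} (hP : P.IsHomogeneous u)
    (hQ : Q.IsHomogeneous u) : aeval v P / aeval v Q ∈ coords ℂ v := by
  obtain ⟨b, hb⟩ : ∃ b, v b ≠ 0 := by
    by_contra hcon
    push Not at hcon
    exact hv (funext hcon)
  rw [coords_affine v b hb]
  obtain ⟨t, ht⟩ : ∃ t : Fin (M + 1) → L, t = fun j => v j / v b := ⟨_, rfl⟩
  have hvt : v = v b • t := by
    rw [ht]
    funext j
    rw [Pi.smul_apply, smul_eq_mul, mul_div_cancel₀ _ hb]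
  rw [← ht]
  have h1 : ∀ F : MvPolynomial (Fin (M + 1)) ℂ, aeval t F ∈
      IntermediateField.adjoin ℂ (Set.range t) := by
    intro F
    have h2 : Algebra.adjoin ℂ (Set.range t) ≤
        (IntermediateField.adjoin ℂ (Set.range t)).toSubalgebra := by
      rw [Algebra.adjoin_le_iff]
      rintro _ ⟨j, rfl⟩
      exact IntermediateField.subset_adjoin ℂ _ ⟨j, rfl⟩
    apply h2
    rw [Algebra.adjoin_range_eq_range_aeval]
    exact ⟨F, rfl⟩
  have h2 : aeval v P / aeval v Q = aeval t P / aeval t Q := by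
    have h3 : aeval v P = v b ^ u * aeval t P := by
      conv_lhs => rw [hvt]
      exact aeval_scale hP _ _
    have h4 : aeval v Q = v b ^ u * aeval t Q := by
      conv_lhs => rw [hvt]
      exact aeval_scale hQ _ _
    rw [h3, h4, mul_div_mul_left _ _ (pow_ne_zero _ hb)]
  rw [h2]
  exact div_mem (h1 P) (h1 Q)

section

variable {L' : Type} [Field L'] [Algebra ℂ L'] (P : Place ℂ L')

theorem const_mem (c : ℂ) : algebraMap ℂ L' c ∈ P.O := P.reg_const c

theorem isUnit_O {r : P.O} : IsUnit r ↔ (r : L') ≠ 0 ∧ P.ord (r : L') = 0 := by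
  constructor
  · rintro ⟨u, rfl⟩
    have h1 : ((u : P.O) : L') * (((u⁻¹ : P.Oˣ) : P.O) : L') = 1 :=
      congrArg (fun z : P.O => (z : L')) u.mul_inv
    have h2 : ((u : P.O) : L') ≠ 0 := left_ne_zero_of_mul_eq_one h1
    have h3 : (((u⁻¹ : P.Oˣ) : P.O) : L') ≠ 0 := right_ne_zero_of_mul_eq_one h1
    refine ⟨h2, ?_⟩
    have h4 := P.ord_mul h2 h3
    rw [h1, P.ord_one] at h4
    have h5 := (P.reg_iff h2).1 (u : P.O).2
    have h6 := (P.reg_iff h3).1 ((u⁻¹ : P.Oˣ) : P.O).2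
    omega
  · rintro ⟨h1, h2⟩
    refine ⟨⟨r, ⟨(r : L')⁻¹, ?_⟩, ?_, ?_⟩, rfl⟩
    · refine (P.reg_iff (inv_ne_zero h1)).2 ?_
      rw [P.ord_inv, h2, neg_zero]
    · exact Subtype.ext (mul_inv_cancel₀ h1)
    · exact Subtype.ext (inv_mul_cancel₀ h1)

theorem res_ne {r : P.O} : IsLocalRing.residue P.O r ≠ 0 ↔ (r : L') ≠ 0 ∧ P.ord (r : L') = 0 := by
  rw [← isUnit_O, ne_eq, IsLocalRing.residue_eq_zero_iff, IsLocalRing.mem_maximalIdeal,
    mem_nonunits_iff, not_not]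

theorem val_iff {M : ℕ} (x : Fin (M + 1) → P.O) (hx : ∃ j, IsLocalRing.residue P.O (x j) ≠ 0)
    {T : Set (MvPolynomial (Fin (M + 1)) ℂ)} (hT : ∀ F ∈ T, IsForm F) :
    ValueNotIn T (fun j => (x j : L')) P ↔ ∃ F ∈ T,
      @aeval ℂ (IsLocalRing.ResidueField P.O) (Fin (M + 1)) _ _ (ralg P.O (const_mem P))
        (fun j => IsLocalRing.residue P.O (x j)) F ≠ 0 := by
  have hU : CeU P (fun j => (x j : L')) := by
    obtain ⟨j, hj⟩ := hx
    exact ⟨fun j => (x j).2, j, (res_ne P).1 hj⟩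
  constructor
  · rintro ⟨c, h1, h2, F, hF, h3, h4⟩
    obtain ⟨hc, hc0⟩ := ce_ord P hU ⟨h1, h2⟩
    obtain ⟨e, he⟩ := hT F hF
    rw [aeval_scale he] at h3 h4
    have h5 := right_ne_zero_of_mul h3
    rw [P.ord_mul (pow_ne_zero _ hc) h5, P.ord_pow, hc0, mul_zero, zero_add] at h4
    obtain ⟨r, hr, hr2⟩ := res_eval P.O (const_mem P) x F
    refine ⟨F, hF, ?_⟩
    rw [← hr2, res_ne, hr]
    exact ⟨h5, h4⟩
  · rintro ⟨F, hF, h1⟩
    obtain ⟨r, hr, hr2⟩ := res_eval P.O (const_mem P) x F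
    rw [← hr2, res_ne, hr] at h1
    refine ⟨1, fun j => ?_, ?_, F, hF, ?_⟩
    · rw [one_mul]
      exact (x j).2
    · obtain ⟨j, hj⟩ := hU.2
      exact ⟨j, by rw [one_mul]; exact hj⟩
    · rw [one_smul]
      exact h1

theorem val_smul {M : ℕ} {v : Fin (M + 1) → L'} {T : Set (MvPolynomial (Fin (M + 1)) ℂ)} {c : L'}
    (hc : c ≠ 0) : ValueNotIn T (c • v) P ↔ ValueNotIn T v P := by
  have key : ∀ (v : Fin (M + 1) → L') (c : L'), ValueNotIn T (c • v) P → ValueNotIn T v P := by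
    rintro v c ⟨d, h1, h2, F, hF, h3⟩
    have h4 : d • c • v = (d * c) • v := by rw [smul_smul]
    rw [h4] at h3
    refine ⟨d * c, fun j => ?_, ?_, F, hF, h3⟩
    · have := h1 j
      rwa [Pi.smul_apply, smul_eq_mul, ← mul_assoc] at this
    · obtain ⟨j, hj⟩ := h2
      rw [Pi.smul_apply, smul_eq_mul, ← mul_assoc] at hj
      exact ⟨j, hj⟩
  refine ⟨key v c, fun h => ?_⟩
  apply key (c • v) c⁻¹
  rwa [smul_smul, inv_mul_cancel₀ hc, one_smul]

end

section

variable {n N : ℕ} {L : Type} [Field L] [Algebra ℂ L] {y : Fin (n + 1) → L}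
  {z : Fin (N + 1) → L} {A : Fin (N + 1) → MvPolynomial (Fin (n + 1)) ℂ}
  {R : Fin (n + 1) → MvPolynomial (Fin (N + 1)) ℂ} {H : MvPolynomial (Fin (N + 1)) ℂ}
  (hP : Pair y z A R H) {T : Set (MvPolynomial (Fin (n + 1)) ℂ)}
  {T' : Set (MvPolynomial (Fin (N + 1)) ℂ)} (hT : ∀ F ∈ T, IsForm F) (hT' : ∀ F ∈ T', IsForm F)
  (hC : Compat y A T T')
include hP hT hT' hC

theorem val_compat {L' : Type} [Field L'] [Algebra ℂ L'] {x : Fin (n + 1) → L'} (hx : x ≠ 0)
    (hxE : ∀ p ∈ Eqs y, aeval x p = 0) (P : Place ℂ L') :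
    ValueNotIn T' (fun i => aeval x (A i)) P ↔ ValueNotIn T x P := by
  obtain ⟨c, hc, hcV, k, hk⟩ := exists_norm P.O hx
  obtain ⟨v, hv⟩ : ∃ v : Fin (n + 1) → P.O, ∀ l, (v l : L') = c * x l :=
    ⟨fun l => ⟨c * x l, hcV l⟩, fun _ => rfl⟩
  have hv' : (fun l => (v l : L')) = c • x := by
    funext l
    rw [hv, Pi.smul_apply, smul_eq_mul]
  have hvk : IsLocalRing.residue P.O (v k) ≠ 0 := by
    have : v k = 1 := Subtype.ext (by rw [hv, hk]; rfl)
    rw [this, map_one]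
    exact one_ne_zero
  choose r hr hr2 using fun i => res_eval P.O (const_mem P) v (A i)
  let _ := ralg P.O (const_mem P)
  have hE : ∀ p ∈ Eqs y, aeval (fun l => IsLocalRing.residue P.O (v l)) p = 0 := by
    rintro p hp
    obtain ⟨s, hs, hs2⟩ := res_eval P.O (const_mem P) v p
    rw [hv', (aeval_zero_of hp.1 hc x).2 (hxE p hp)] at hs
    rw [← hs2]
    have : s = 0 := Subtype.ext hs
    rw [this, map_zero]
  have hne : (fun l => IsLocalRing.residue P.O (v l)) ≠ 0 := by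
    intro h
    exact hvk (congrFun h k)
  obtain ⟨i, hi⟩ := hP.reg _ _ hne hE
  have h1 := val_iff P v ⟨k, hvk⟩ hT
  have h2 := val_iff P r ⟨i, by rw [hr2]; exact hi⟩ hT'
  have h3 := hC _ _ hne hE
  have h4 : (fun i => (r i : L')) = c • fun i => aeval x (A i) := by
    funext i
    rw [hr, hv', aeval_scale (hP.homA i), pow_one, Pi.smul_apply, smul_eq_mul]
  have h5 : (fun i => IsLocalRing.residue P.O (r i)) =
      fun i => aeval (fun l => IsLocalRing.residue P.O (v l)) (A i) := funext hr2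
  rw [h4, val_smul P hc, h5] at h2
  rw [hv', val_smul P hc] at h1
  rw [h2, h1, h3]

theorem log_compat {L' : Type} [Field L'] [Algebra ℂ L'] (w : ℕ) {x : Fin (n + 1) → L'}
    (hx : x ≠ 0) (hxE : ∀ p ∈ Eqs y, aeval x p = 0) {c : L'} (hc : c ≠ 0)
    {z' : Fin (N + 1) → L'} (hz' : (fun i => aeval x (A i)) = c • z') :
    LogGeneral T' L' w z' ↔ LogGeneral T L' w x := by
  unfold LogGeneral
  have h1 : (fun P : Place ℂ L' => ¬ ValueNotIn T' z' P) = fun P => ¬ ValueNotIn T x P := by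
    funext P
    rw [← val_compat hP hT hT' hC hx hxE P, hz', val_smul P hc]
  rw [h1]

/-- subvarieties of the variety -/
theorem special_pull {G : MvPolynomial (Fin (N + 1)) ℂ} (hG : OnSpecialQ (Eqs z) T' G) :
    OnSpecialQ (Eqs y) T (bind₁ A (G * H)) := by
  obtain ⟨r, hH, hR⟩ := hP.homR
  intro L' _ _ w x hw hx hxT
  have hxE : ∀ p ∈ Eqs y, aeval x p = 0 := fun p hp => hx.mem ⟨p, hp⟩
  rw [map_mul, map_mul, bind_eval, bind_eval]
  by_cases h0 : aeval (fun i => aeval x (A i)) H = 0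
  · right
    rw [h0, mul_zero]
  have hne : (fun i => aeval x (A i)) ≠ 0 := by
    obtain ⟨i, hi⟩ := hP.reg L' x hx.ne hxE
    intro h
    exact hi (congrFun h i)
  have hgen : coords ℂ (fun i => aeval x (A i)) = ⊤ := by
    rw [eq_top_iff, ← hx.gen]
    refine IntermediateField.adjoin_le_iff.2 ?_
    rintro _ ⟨i, j, hj, rfl⟩
    have h1 : x i / x j = aeval (fun i => aeval x (A i)) (R i) /
        aeval (fun i => aeval x (A i)) (R j) := by
      rw [hP.RA hxE, hP.RA hxE, mul_div_mul_left _ _ h0]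
    rw [h1]
    exact ratio_mem hne (hR i) (hR j)
  rcases hG L' w (fun i => aeval x (A i)) hw ⟨hne, fun p => hP.mapA hxE p p.2, hgen, hx.dim⟩
    ((hC L' x hx.ne hxE).1 hxT) with h1 | h1
  · left
    exact (log_compat hP hT hT' hC w hx.ne hxE one_ne_zero (one_smul _ _).symm).1 h1
  · right
    rw [h1, zero_mul]

/-- subvarieties of the image -/
theorem special_push {G : MvPolynomial (Fin (n + 1)) ℂ} (hG : OnSpecialQ (Eqs y) T G) :
    OnSpecialQ (Eqs z) T' (bind₁ R G * H) := by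
  obtain ⟨r, hH, hR⟩ := hP.homR
  intro L' _ _ w x hw hx hxT
  have hxE : ∀ p ∈ Eqs z, aeval x p = 0 := fun p hp => hx.mem ⟨p, hp⟩
  rw [map_mul, bind_eval]
  by_cases h0 : aeval x H = 0
  · right
    rw [h0, mul_zero]
  have hAR : (fun i => aeval (fun j => aeval x (R j)) (A i)) = aeval x H • x := by
    funext i
    rw [hP.AR hxE, Pi.smul_apply, smul_eq_mul]
  have hne : (fun j => aeval x (R j)) ≠ 0 := by
    intro h
    rw [h] at hAR
    have h1 : (fun i => aeval (0 : Fin (n + 1) → L') (A i)) = 0 := by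
      funext i
      have h2 := aeval_scale (hP.homA i) (0 : L') (0 : Fin (n + 1) → L')
      rw [smul_zero, pow_one, zero_mul] at h2
      exact h2
    rw [h1] at hAR
    exact smul_ne_zero h0 hx.ne hAR.symm
  have hE := hP.mapR hxE
  have hgen : coords ℂ (fun j => aeval x (R j)) = ⊤ := by
    rw [eq_top_iff, ← hx.gen]
    refine IntermediateField.adjoin_le_iff.2 ?_
    rintro _ ⟨i, j, hj, rfl⟩
    have h1 : x i / x j = aeval (fun j => aeval x (R j)) (A i) /
        aeval (fun j => aeval x (R j)) (A j) := by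
      rw [hP.AR hxE, hP.AR hxE, mul_div_mul_left _ _ h0]
    rw [h1]
    exact ratio_mem hne (hP.homA i) (hP.homA j)
  have hnot : NotIn T (fun j => aeval x (R j)) := by
    refine (hC L' _ hne hE).2 ?_
    obtain ⟨F, hF, hF0⟩ := hxT
    refine ⟨F, hF, ?_⟩
    rw [hAR, ne_eq, aeval_zero_of (hT' F hF) h0]
    exact hF0
  rcases hG L' w (fun j => aeval x (R j)) hw ⟨hne, fun p => hE p p.2, hgen, hx.dim⟩ hnot
    with h1 | h1
  · left
    exact (log_compat hP hT hT' hC w hne hE h0 hAR).2 h1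
  · right
    rw [h1, zero_mul]

end

/-- nonvanishing at the generic points -/
theorem Pair.pull_ne {n N : ℕ} {L : Type} [Field L] [Algebra ℂ L] {y : Fin (n + 1) → L}
    {z : Fin (N + 1) → L} {A : Fin (N + 1) → MvPolynomial (Fin (n + 1)) ℂ}
    {R : Fin (n + 1) → MvPolynomial (Fin (N + 1)) ℂ} {H : MvPolynomial (Fin (N + 1)) ℂ}
    (hP : Pair y z A R H) {G : MvPolynomial (Fin (N + 1)) ℂ} (hG : IsForm G)
    (hG0 : aeval z G ≠ 0) : IsForm (bind₁ A (G * H)) ∧ aeval y (bind₁ A (G * H)) ≠ 0 := by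
  obtain ⟨r, hH, hR⟩ := hP.homR
  obtain ⟨e, he⟩ := hG
  refine ⟨bind_form hP.homA ⟨e + r, he.mul hH⟩, ?_⟩
  rw [bind_eval, hP.z_eq, map_mul]
  exact mul_ne_zero hG0 hP.ne

theorem Pair.push_ne {n N : ℕ} {L : Type} [Field L] [Algebra ℂ L] {y : Fin (n + 1) → L}
    {z : Fin (N + 1) → L} {A : Fin (N + 1) → MvPolynomial (Fin (n + 1)) ℂ}
    {R : Fin (n + 1) → MvPolynomial (Fin (N + 1)) ℂ} {H : MvPolynomial (Fin (N + 1)) ℂ}
    (hP : Pair y z A R H) {G : MvPolynomial (Fin (n + 1)) ℂ} (hG : IsForm G)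
    (hG0 : aeval y G ≠ 0) : IsForm (bind₁ R G * H) ∧ aeval z (bind₁ R G * H) ≠ 0 := by
  obtain ⟨r, hH, hR⟩ := hP.homR
  obtain ⟨e, he⟩ := id hG
  refine ⟨⟨_, (bind_hom hR he).mul hH⟩, ?_⟩
  rw [map_mul, bind_eval, hP.y_eq]
  exact mul_ne_zero (fun h => hG0 ((aeval_zero_of hG hP.ne y).1 h)) hP.ne

end Pool.Agent.H911.GD
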