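import Pool.Graph.R_pool_sql_team_seeded_63374d34.N254.SQ.Qdisc
import Pool.Graph.R_pool_sql_team_seeded_63374d34.N254.SQ.ExtR
import Pool.Agent.H911.GD.MoveS

/-!
Holomorphic maps from the punctured disc under finite birational projections.
-/

set_option autoImplicit false

namespace Pool.Agent.H911.GD

open MvPolynomial Metric Filter Topology
open Pool.Agent.N254.SQ (Eqs IsForm aeval_zero_of aeval_scale Gen OnDiscsQ ValueIn Extends
  diff_evalOn qd_eq qd_ne qd_mul qd_van qd_zero qd_contAt qd_nhds disc_open disc_conn disc_mul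
  disc_cancel disc_nhds t_ext)
open Pool.Agent.W602.GT (coords)

/-- the punctured disc -/
abbrev Dp : Set ℂ := ball (0 : ℂ) 1 \ {0}

theorem mer_eval {M : ℕ} (P : MvPolynomial (Fin (M + 1)) ℂ) {ρ : Fin (M + 1) → ℂ → ℂ} {z : ℂ}
    (hρ : ∀ j, MeromorphicAt (ρ j) z) : MeromorphicAt (fun w => eval (fun j => ρ j w) P) z := by
  simp only [eval_eq']
  refine MeromorphicAt.fun_sum fun α _ => ?_
  refine (MeromorphicAt.const _ _).fun_mul ?_
  exact MeromorphicAt.fun_prod fun j _ => (hρ j).fun_pow _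

/-- a function on the punctured disc which vanishes near `0` -/
theorem disc_near {s : ℂ → ℂ} (hs : DifferentiableOn ℂ s Dp)
    (h : ∀ᶠ w in 𝓝[≠] (0 : ℂ), s w = 0) : ∀ w ∈ Dp, s w = 0 := by
  have h7 : ∀ᶠ w in 𝓝[≠] (0 : ℂ), w ∈ Dp := disc_nhds fun w hw => hw
  have h8 := h.and h7
  rw [eventually_nhdsWithin_iff] at h8
  obtain ⟨ε, hε, hball⟩ := Metric.eventually_nhds_iff_ball.1 h8
  have hfl : AnalyticOnNhd ℂ s Dp := hs.analyticOnNhd disc_open
  have hpt : ((ε / 2 : ℝ) : ℂ) ∈ ball (0 : ℂ) ε \ {0} := by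
    refine ⟨?_, ?_⟩
    · rw [mem_ball_zero_iff, Complex.norm_real, Real.norm_of_nonneg (by linarith)]
      linarith
    · intro h9
      have h10 : ((ε / 2 : ℝ) : ℂ) = 0 := h9
      rw [Complex.ofReal_eq_zero] at h10
      linarith
  have h11 : s =ᶠ[𝓝 ((ε / 2 : ℝ) : ℂ)] 0 := by
    have h12 : IsOpen (ball (0 : ℂ) ε \ {0}) := isOpen_ball.sdiff isClosed_singleton
    filter_upwards [h12.mem_nhds hpt] with w hw
    exact (hball w hw.1 hw.2).1
  intro w hw
  exact hfl.eqOn_zero_of_preconnected_of_eventuallyEq_zero disc_conn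
    (hball _ hpt.1 hpt.2).2 h11 hw

/-- ratios of forms along a map which extends are meromorphic -/
theorem ratio_map {M : ℕ} {g : ℂ → Fin (M + 1) → ℂ} (hg : DifferentiableOn ℂ g Dp)
    (hg0 : ∃ w ∈ Dp, g w ≠ 0) (hE : Extends g) {u : ℕ} {P Q : MvPolynomial (Fin (M + 1)) ℂ}
    (hP : P.IsHomogeneous u) (hQ : Q.IsHomogeneous u) (hQ0 : ∃ w ∈ Dp, eval (g w) Q ≠ 0) :
    ∃ ρ : ℂ → ℂ, MeromorphicAt ρ 0 ∧
      ∀ᶠ w in 𝓝[≠] (0 : ℂ), eval (g w) P = ρ w * eval (g w) Q := by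
  obtain ⟨w0, hw0, hgw0⟩ := id hg0
  obtain ⟨a, ha⟩ := Function.ne_iff.1 hgw0
  choose ρ hρ hρe using fun j => (t_ext M g hg hg0).1 hE j a ⟨w0, hw0, ha⟩
  have hall : ∀ᶠ w in 𝓝[≠] (0 : ℂ), ∀ j, g w j = ρ j w * g w a :=
    Filter.eventually_all.2 hρe
  have hsc : ∀ (F : MvPolynomial (Fin (M + 1)) ℂ), F.IsHomogeneous u →
      ∀ᶠ w in 𝓝[≠] (0 : ℂ), eval (g w) F = g w a ^ u * eval (fun j => ρ j w) F := by
    intro F hF
    filter_upwards [hall] with w hw
    have h1 : g w = g w a • fun j => ρ j w := by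
      funext j
      rw [Pi.smul_apply, smul_eq_mul, mul_comm]
      exact hw j
    conv_lhs => rw [h1]
    exact aeval_scale (Ω := ℂ) hF _ _
  rcases (mer_eval Q hρ).eventually_eq_zero_or_eventually_ne_zero with h3 | h3
  · exfalso
    obtain ⟨w1, hw1, hQw1⟩ := hQ0
    refine hQw1 (disc_near (diff_evalOn Q hg) ?_ w1 hw1)
    filter_upwards [h3, hsc Q hQ] with w h4 h5
    rw [h5, h4, mul_zero]
  · refine ⟨fun w => eval (fun j => ρ j w) P / eval (fun j => ρ j w) Q,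
      (mer_eval P hρ).fun_div (mer_eval Q hρ), ?_⟩
    filter_upwards [h3, hsc P hP, hsc Q hQ] with w h4 h5 h6
    rw [h5, h6]
    field_simp

theorem diff_mapOn {n N : ℕ} (T : Fin (N + 1) → MvPolynomial (Fin (n + 1)) ℂ)
    {f : ℂ → Fin (n + 1) → ℂ} {U : Set ℂ} (hf : DifferentiableOn ℂ f U) :
    DifferentiableOn ℂ (fun w i => eval (f w) (T i)) U := by
  rw [differentiableOn_pi]
  intro i
  exact diff_evalOn (T i) hf

theorem ana_map {n N : ℕ} (T : Fin (N + 1) → MvPolynomial (Fin (n + 1)) ℂ)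
    {f : ℂ → Fin (n + 1) → ℂ} {z : ℂ} (hf : AnalyticAt ℂ f z) :
    AnalyticAt ℂ (fun w i => eval (f w) (T i)) z := by
  have h1 := hf.eventually_analyticAt
  obtain ⟨U, hU, hUo, hzU⟩ := _root_.eventually_nhds_iff.1 h1
  have h2 : DifferentiableOn ℂ f U := fun w hw => (hU w hw).differentiableAt.differentiableWithinAt
  exact (diff_mapOn T h2).analyticAt (hUo.mem_nhds hzU)

/-- the equations hold along the curve -/
theorem disc_eqs {n : ℕ} {S T : Set (MvPolynomial (Fin (n + 1)) ℂ)} (hS : ∀ p ∈ S, IsForm p)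
    {f : ℂ → Fin (n + 1) → ℂ} (hf : DifferentiableOn ℂ f Dp) (h : ∀ w ∈ Dp, ValueIn S T f w) :
    ∀ w ∈ Dp, ∀ p ∈ S, eval (f w) p = 0 := by
  intro w hw p hp
  obtain ⟨g, hg, hgw, hrel, hgS, -⟩ := h w hw
  exact qd_zero (hS p hp) (qd_contAt hf hw) hg.continuousAt hgw hrel (hgS p hp)

/-- cancellation of a factor: the ratios of the coordinates -/
theorem ext_cancel {M : ℕ} {f : ℂ → Fin (M + 1) → ℂ} (hf : DifferentiableOn ℂ f Dp)
    (hf0 : ∃ w ∈ Dp, f w ≠ 0) {s : ℂ → ℂ} (hs : DifferentiableOn ℂ s Dp)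
    (hs0 : ∃ w ∈ Dp, s w ≠ 0) (h : ∀ i l, (∃ w ∈ Dp, s w * f w l ≠ 0) → ∃ ρ : ℂ → ℂ,
      MeromorphicAt ρ 0 ∧ ∀ᶠ w in 𝓝[≠] (0 : ℂ), s w * f w i = ρ w * (s w * f w l)) :
    Extends f := by
  refine (t_ext M f hf hf0).2 ?_
  rintro i l ⟨w1, hw1, hfw1⟩
  have h1 : ∃ w ∈ Dp, s w * f w l ≠ 0 := by
    by_contra hcon
    push Not at hcon
    exact hfw1 (disc_mul hs hs0 disc_open le_rfl (differentiableOn_pi.1 hf l).continuousOn
      hcon w1 hw1)
  obtain ⟨ρ, hρ, hρe⟩ := h i l h1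
  exact ⟨ρ, hρ, disc_cancel hs hs0 (differentiableOn_pi.1 hf i) (differentiableOn_pi.1 hf l) hρ hρe⟩

section

variable {n N : ℕ} {L : Type} [Field L] [Algebra ℂ L] {y : Fin (n + 1) → L}
  {z : Fin (N + 1) → L} {A : Fin (N + 1) → MvPolynomial (Fin (n + 1)) ℂ}
  {R : Fin (n + 1) → MvPolynomial (Fin (N + 1)) ℂ} {H : MvPolynomial (Fin (N + 1)) ℂ}
  (hP : Pair y z A R H) {T : Set (MvPolynomial (Fin (n + 1)) ℂ)}
  {T' : Set (MvPolynomial (Fin (N + 1)) ℂ)}
  (hC : Compat y A T T')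
include hP hC

theorem discs_pull {G : MvPolynomial (Fin (N + 1)) ℂ} (hG : OnDiscsQ (Eqs z) T' G) :
    OnDiscsQ (Eqs y) T (bind₁ A (G * H)) := by
  obtain ⟨r, hH, hR⟩ := hP.homR
  intro f hf hf0 hS
  have hfE := disc_eqs (fun p hp => hp.1) hf hS
  have hbe : ∀ w (Q : MvPolynomial (Fin (N + 1)) ℂ),
      eval (f w) (bind₁ A Q) = eval (fun i => eval (f w) (A i)) Q :=
    fun w Q => bind_eval (Ω := ℂ) A (f w) Q
  have hRA : ∀ w ∈ Dp, ∀ j, eval (fun i => eval (f w) (A i)) (R j) =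
      eval (fun i => eval (f w) (A i)) H * f w j := fun w hw j => hP.RA (Ω := ℂ) (hfE w hw) j
  by_cases hH0 : ∀ w ∈ Dp, eval (fun i => eval (f w) (A i)) H = 0
  · right
    intro w hw
    rw [hbe, map_mul, hH0 w hw, mul_zero]
  push Not at hH0
  have hgd := diff_mapOn A hf
  have hg0 : ∃ w ∈ Dp, (fun i => eval (f w) (A i)) ≠ 0 := by
    obtain ⟨w0, hw0, hfw0⟩ := hf0
    refine ⟨w0, hw0, fun h => ?_⟩
    obtain ⟨i, hi⟩ := hP.reg ℂ (f w0) hfw0 (hfE w0 hw0)
    exact hi (congrFun h i)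
  rcases hG (fun w i => eval (f w) (A i)) hgd hg0 (fun w hw => by
      obtain ⟨g, hg, hgw, hrel, hgS, hgT⟩ := hS w hw
      refine ⟨fun w i => eval (g w) (A i), ana_map A hg, ?_, ?_, hP.mapA (Ω := ℂ) hgS,
        (hC ℂ (g w) hgw hgS).1 hgT⟩
      · intro h
        obtain ⟨i, hi⟩ := hP.reg ℂ (g w) hgw hgS
        exact hi (congrFun h i)
      · filter_upwards [hrel] with w' hw'
        obtain ⟨c, hc⟩ := hw'
        refine ⟨c, ?_⟩
        funext i
        rw [hc, Pi.smul_apply, smul_eq_mul]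
        have h2 := aeval_scale (Ω := ℂ) (hP.homA i) c (g w')
        rw [pow_one] at h2
        exact h2) with h1 | h1
  · left
    refine ext_cancel hf hf0 (s := fun w => eval (fun i => eval (f w) (A i)) H)
      (diff_evalOn H hgd) hH0 ?_
    rintro i l ⟨w1, hw1, hfw1⟩
    obtain ⟨ρ, hρ, hρe⟩ := ratio_map hgd hg0 h1 (hR i) (hR l)
      ⟨w1, hw1, by rw [hRA w1 hw1]; exact hfw1⟩
    refine ⟨ρ, hρ, ?_⟩
    filter_upwards [hρe, disc_nhds fun w hw => hw] with w h3 h4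
    rwa [hRA w h4, hRA w h4] at h3
  · right
    intro w hw
    have h2 := h1 w hw
    rw [hbe, map_mul, h2, zero_mul]

theorem discs_push (hT' : ∀ F ∈ T', IsForm F) {G : MvPolynomial (Fin (n + 1)) ℂ}
    (hG : OnDiscsQ (Eqs y) T G) : OnDiscsQ (Eqs z) T' (bind₁ R G * H) := by
  obtain ⟨r, hH, hR⟩ := hP.homR
  intro f hf hf0 hS
  have hfE := disc_eqs (fun p hp => hp.1) hf hS
  have hbe : ∀ w (Q : MvPolynomial (Fin (n + 1)) ℂ),
      eval (f w) (bind₁ R Q) = eval (fun j => eval (f w) (R j)) Q :=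
    fun w Q => bind_eval (Ω := ℂ) R (f w) Q
  have hAR : ∀ w ∈ Dp, ∀ i, eval (fun j => eval (f w) (R j)) (A i) = eval (f w) H * f w i :=
    fun w hw i => hP.AR (Ω := ℂ) (hfE w hw) i
  by_cases hH0 : ∀ w ∈ Dp, eval (f w) H = 0
  · right
    intro w hw
    rw [map_mul, hH0 w hw, mul_zero]
  push Not at hH0
  have hgd := diff_mapOn R hf
  have hA0 : ∀ i, eval (0 : Fin (n + 1) → ℂ) (A i) = 0 := by
    intro i
    have h2 := aeval_scale (Ω := ℂ) (hP.homA i) (0 : ℂ) (0 : Fin (n + 1) → ℂ)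
    rw [smul_zero, pow_one, zero_mul] at h2
    exact h2
  have hg0 : ∃ w ∈ Dp, (fun j => eval (f w) (R j)) ≠ 0 := by
    obtain ⟨w0, hw0, hfw0⟩ := hf0
    obtain ⟨l, hl⟩ := Function.ne_iff.1 hfw0
    by_contra hcon
    push Not at hcon
    refine hl (disc_mul (diff_evalOn H hf) hH0 disc_open le_rfl
      (differentiableOn_pi.1 hf l).continuousOn (fun w hw => ?_) w0 hw0)
    rw [← hAR w hw l, hcon w hw]
    exact hA0 l
  have hgE : ∀ w ∈ Dp, ∀ p ∈ Eqs y, eval (fun j => eval (f w) (R j)) p = 0 :=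
    fun w hw => hP.mapR (Ω := ℂ) (hfE w hw)
  rcases hG (fun w j => eval (f w) (R j)) hgd hg0 (fun w hw => by
      obtain ⟨φ, hφ, hφw, hrel, hφS, Q, hQ, hQφ⟩ := hS w hw
      -- the local normalization
      have hgne := qd_ne hgd hg0 hw
      have hRφ := ana_map R hφ
      have hrel2 : ∀ᶠ w' in 𝓝[≠] w, ∃ c : ℂ, (fun j => eval (f w') (R j)) =
          c • fun j => eval (φ w') (R j) := by
        filter_upwards [hrel] with w' hw'
        obtain ⟨c, hc⟩ := hw'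
        refine ⟨c ^ (r + 1), ?_⟩
        funext j
        rw [hc, Pi.smul_apply, smul_eq_mul]
        exact aeval_scale (Ω := ℂ) (hR j) c (φ w')
      obtain ⟨k, ψ, hψ, hψw, hψe⟩ := (hRφ.exists_eventuallyEq_pow_smul_nonzero_iff).2 (by
        intro h
        have h' : ∀ᶠ w' in 𝓝[≠] w, (fun j => eval (φ w') (R j)) = 0 := nhdsWithin_le_nhds h
        obtain ⟨w', h1, h2, h3⟩ := (h'.and (hgne.and hrel2)).exists
        obtain ⟨c, hc⟩ := h3
        apply h2
        rw [hc]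
        have h4 : (fun j => eval (φ w') (R j)) = 0 := h1
        rw [h4, smul_zero])
      have hrel3 : ∀ᶠ w' in 𝓝[≠] w, ∃ c : ℂ, (fun j => eval (f w') (R j)) = c • ψ w' := by
        filter_upwards [hrel2, nhdsWithin_le_nhds hψe] with w' h1 h2
        obtain ⟨c, hc⟩ := h1
        refine ⟨c * (w' - w) ^ k, ?_⟩
        rw [hc]
        have h3 : (fun j => eval (φ w') (R j)) = (w' - w) ^ k • ψ w' := h2
        rw [h3, smul_smul]
      have hψS : ∀ p ∈ Eqs y, eval (ψ w) p = 0 := by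
        intro p hp
        refine qd_van hp.1 hψ.continuousAt hgne hrel3 ?_
        filter_upwards [qd_nhds hw] with w' hw'
        exact hgE w' hw' p hp
      refine ⟨ψ, hψ, hψw, hrel3, hψS, ?_⟩
      -- the value of the projection
      have hAψ : ContinuousAt (fun w' i => eval (ψ w') (A i)) w := (ana_map A hψ).continuousAt
      have hrel4 : ∀ᶠ w' in 𝓝[≠] w, ∃ c : ℂ, (fun i => eval (ψ w') (A i)) = c • φ w' := by
        filter_upwards [hrel3, hrel, hgne, qd_nhds hw] with w' h1 h2 h3 h4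
        obtain ⟨c, hc⟩ := h1
        obtain ⟨d, hd⟩ := h2
        have hc0 : c ≠ 0 := by
          rintro rfl
          exact h3 (by rw [hc, zero_smul])
        refine ⟨c⁻¹ * (eval (f w') H * d), ?_⟩
        funext i
        have h5 := hAR w' h4 i
        rw [hc] at h5
        have h6 := aeval_scale (Ω := ℂ) (hP.homA i) c (ψ w')
        rw [pow_one] at h6
        have h7 : c * eval (ψ w') (A i) = eval (f w') H * f w' i := h6.symm.trans h5
        have h8 : f w' i = d * φ w' i := by rw [hd]; rfl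
        rw [h8] at h7
        rw [Pi.smul_apply, smul_eq_mul]
        apply mul_left_cancel₀ hc0
        rw [h7, mul_assoc c⁻¹, mul_inv_cancel_left₀ hc0]
        ring
      obtain ⟨c, hc⟩ := qd_mul hAψ hφ.continuousAt hφw hrel4
      have hc0 : c ≠ 0 := by
        rintro rfl
        obtain ⟨i, hi⟩ := hP.reg ℂ (ψ w) hψw hψS
        apply hi
        have := congrFun hc i
        rw [zero_smul] at this
        exact this
      refine (hC ℂ (ψ w) hψw hψS).2 ⟨Q, hQ, ?_⟩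
      have h9 : (fun i => aeval (ψ w) (A i)) = c • φ w := hc
      rw [h9, ne_eq, aeval_zero_of (hT' Q hQ) hc0]
      exact hQφ) with h1 | h1
  · left
    refine ext_cancel hf hf0 (s := fun w => eval (f w) H) (diff_evalOn H hf) hH0 ?_
    rintro i l ⟨w1, hw1, hfw1⟩
    obtain ⟨ρ, hρ, hρe⟩ := ratio_map hgd hg0 h1 (hP.homA i) (hP.homA l)
      ⟨w1, hw1, by rw [hAR w1 hw1]; exact hfw1⟩
    refine ⟨ρ, hρ, ?_⟩
    filter_upwards [hρe, disc_nhds fun w hw => hw] with w h3 h4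
    rwa [hAR w h4, hAR w h4] at h3
  · right
    intro w hw
    have h2 := h1 w hw
    rw [map_mul, hbe, h2, zero_mul]

end

end Pool.Agent.H911.GD
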