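import Pool.Agent.H911.GD.One

/-!
The assembly: models of varieties on hypersurfaces of at most twice the dimension.
-/

set_option autoImplicit false

namespace Pool.Agent.H911.GD

open MvPolynomial
open Pool.Agent.N254.SQ (Eqs IsForm aeval_zero_of aeval_scale Gen NotIn ValueNotIn LogGeneral
  OnSpecialQ OnCurvesQ OnDiscsQ SmoothForm powerForm Component)
open Pool.Agent.W602.GT (SubVar GeneralType coords)
open Pool.Agent.H911.QD (emb ext_apply)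

/-- the exceptional sets are compatible with finite birational projections -/
structure Moves (P : ∀ n : ℕ, Set (MvPolynomial (Fin (n + 1)) ℂ) →
    Set (MvPolynomial (Fin (n + 1)) ℂ) → MvPolynomial (Fin (n + 1)) ℂ → Prop) : Prop where
  pull : ∀ {n N : ℕ} {L : Type} [Field L] [Algebra ℂ L] {y : Fin (n + 1) → L}
    {z : Fin (N + 1) → L} {A : Fin (N + 1) → MvPolynomial (Fin (n + 1)) ℂ}
    {R : Fin (n + 1) → MvPolynomial (Fin (N + 1)) ℂ} {H : MvPolynomial (Fin (N + 1)) ℂ},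
    Pair y z A R H → ∀ {T : Set (MvPolynomial (Fin (n + 1)) ℂ)}
    {T' : Set (MvPolynomial (Fin (N + 1)) ℂ)}, (∀ F ∈ T, IsForm F) → (∀ F ∈ T', IsForm F) →
    Compat y A T T' → ∀ G, IsForm G → P N (Eqs z) T' G → P n (Eqs y) T (bind₁ A (G * H))
  push : ∀ {n N : ℕ} {L : Type} [Field L] [Algebra ℂ L] {y : Fin (n + 1) → L}
    {z : Fin (N + 1) → L} {A : Fin (N + 1) → MvPolynomial (Fin (n + 1)) ℂ}
    {R : Fin (n + 1) → MvPolynomial (Fin (N + 1)) ℂ} {H : MvPolynomial (Fin (N + 1)) ℂ},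
    Pair y z A R H → ∀ {T : Set (MvPolynomial (Fin (n + 1)) ℂ)}
    {T' : Set (MvPolynomial (Fin (N + 1)) ℂ)}, (∀ F ∈ T, IsForm F) → (∀ F ∈ T', IsForm F) →
    Compat y A T T' → ∀ G, IsForm G → P n (Eqs y) T G → P N (Eqs z) T' (bind₁ R G * H)

theorem moves_special : Moves (fun _ S T G => OnSpecialQ S T G) :=
  ⟨fun hP _ _ hT hT' hC _ _ hG => special_pull hP hT hT' hC hG,
    fun hP _ _ hT hT' hC _ _ hG => special_push hP hT hT' hC hG⟩

theorem moves_curves : Moves (fun _ S T G => OnCurvesQ S T G) :=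
  ⟨fun hP _ _ _ _ hC _ _ hG => curves_pull hP hC hG,
    fun hP _ _ _ _ hC _ hGf hG => curves_push hP hC hGf hG⟩

theorem moves_discs : Moves (fun _ S T G => OnDiscsQ S T G) :=
  ⟨fun hP _ _ _ _ hC _ _ hG => discs_pull hP hC hG,
    fun hP _ _ _ hT' hC _ _ hG => discs_push hP hC hT' hG⟩

/-- the generic point in a larger projective space -/
theorem gen_ext {M N : ℕ} (h : M ≤ N) {L : Type} [Field L] [Algebra ℂ L] {w : ℕ}
    {z : Fin (M + 1) → L} (hz : Gen L w z) : Gen L w (QD.ext N z) := by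
  have hem : ∀ i, QD.ext N z (emb h i) = z i := fun i => ext_apply h z i
  refine ⟨?_, ?_, hz.dim⟩
  · intro h0
    apply hz.ne
    funext i
    rw [← hem i, h0]
    rfl
  · rw [eq_top_iff, ← hz.gen]
    refine IntermediateField.adjoin_le_iff.2 ?_
    rintro _ ⟨i, j, hj, rfl⟩
    refine IntermediateField.subset_adjoin ℂ _ ⟨emb h i, emb h j, ?_, ?_⟩
    · rw [hem]
      exact hj
    · rw [hem, hem]

/-- the generic point of the projection -/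
theorem gen_mdl {n M : ℕ} {L : Type} [Field L] [Algebra ℂ L] {w : ℕ} {y : Fin (n + 1) → L}
    (hy : Gen L w y) {A : Fin (M + 1) → MvPolynomial (Fin (n + 1)) ℂ} (hA : Mdl y A) :
    Gen L w (fun i => aeval y (A i)) := by
  refine ⟨?_, hA.bir, hy.dim⟩
  obtain ⟨i, hi⟩ := hA.reg L y hy.ne (fun p hp => hp.2)
  intro h
  exact hi (congrFun h i)

/-- the bounds for the exponents -/
theorem exists_bounds (N : ℕ) (hN : 1 ≤ N) : ∃ D₁ : ℕ → ℕ, ∀ e D, 1 ≤ e → D₁ e ≤ D →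
    ∀ (M : ℕ) (_ : M ≤ N) (w : ℕ) (L : Type) [Field L] [Algebra ℂ L] (z : Fin (M + 1) → L),
      Gen L w z → M + w ≤ N → ∀ (κ : Type) [Fintype κ] (F : κ → MvPolynomial (Fin (M + 1)) ℂ),
      (∀ k, (F k).IsHomogeneous e) → (∀ k, aeval z (F k) = 0) →
      (∀ (Ω : Type) [Field Ω] [Algebra ℂ Ω] (x : Fin (M + 1) → Ω), (∀ k, aeval x (F k) = 0) →
        ∀ p ∈ Eqs z, aeval x p = 0) → (∃ k i, aeval z (pderiv i (F k)) ≠ 0) →
      ∃ Q : Fin (N * (2 * N + 1)) → MvPolynomial (Fin (N + 1)) ℂ,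
        (∀ t, (Q t).IsHomogeneous e) ∧ Prop4 (QD.ext N z) (powerForm D Q) := by
  have h : ∀ e : ℕ, ∃ D₁ : ℕ, 1 ≤ e → ∀ D, D₁ ≤ D →
    ∀ (M : ℕ) (_ : M ≤ N) (w : ℕ) (L : Type) [Field L] [Algebra ℂ L] (z : Fin (M + 1) → L),
      Gen L w z → M + w ≤ N → ∀ (κ : Type) [Fintype κ] (F : κ → MvPolynomial (Fin (M + 1)) ℂ),
      (∀ k, (F k).IsHomogeneous e) → (∀ k, aeval z (F k) = 0) →
      (∀ (Ω : Type) [Field Ω] [Algebra ℂ Ω] (x : Fin (M + 1) → Ω), (∀ k, aeval x (F k) = 0) →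
        ∀ p ∈ Eqs z, aeval x p = 0) → (∃ k i, aeval z (pderiv i (F k)) ≠ 0) →
      ∃ Q : Fin (N * (2 * N + 1)) → MvPolynomial (Fin (N + 1)) ℂ,
        (∀ t, (Q t).IsHomogeneous e) ∧ Prop4 (QD.ext N z) (powerForm D Q) := by
    intro e
    by_cases he : 1 ≤ e
    · obtain ⟨D₁, hD₁⟩ := exists_hyp4 N e hN he
      exact ⟨D₁, fun _ => hD₁⟩
    · exact ⟨0, fun h => absurd h he⟩
  choose D₁ H using h
  exact ⟨D₁, fun e D he hD => H e he D hD⟩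

section

variable {N : ℕ} {D₁ : ℕ → ℕ} (H : ∀ e D, 1 ≤ e → D₁ e ≤ D →
    ∀ (M : ℕ) (_ : M ≤ N) (w : ℕ) (L : Type) [Field L] [Algebra ℂ L] (z : Fin (M + 1) → L),
      Gen L w z → M + w ≤ N → ∀ (κ : Type) [Fintype κ] (F : κ → MvPolynomial (Fin (M + 1)) ℂ),
      (∀ k, (F k).IsHomogeneous e) → (∀ k, aeval z (F k) = 0) →
      (∀ (Ω : Type) [Field Ω] [Algebra ℂ Ω] (x : Fin (M + 1) → Ω), (∀ k, aeval x (F k) = 0) →
        ∀ p ∈ Eqs z, aeval x p = 0) → (∃ k i, aeval z (pderiv i (F k)) ≠ 0) →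
      ∃ Q : Fin (N * (2 * N + 1)) → MvPolynomial (Fin (N + 1)) ℂ,
        (∀ t, (Q t).IsHomogeneous e) ∧ Prop4 (QD.ext N z) (powerForm D Q))
include H

/-- every variety has models on hypersurfaces -/
theorem exists_models {n : ℕ} {L : Type} [Field L] [Algebra ℂ L] {w : ℕ} {y : Fin (n + 1) → L}
    (hy : Gen L w y) {M : ℕ} (hwM : w < M) (hMN : M + w ≤ N)
    {A : Fin (M + 1) → MvPolynomial (Fin (n + 1)) ℂ} (hA : Mdl y A) :
    ∃ (e : ℕ) (z : Fin (N + 1) → L) (R : Fin (n + 1) → MvPolynomial (Fin (N + 1)) ℂ)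
      (K : MvPolynomial (Fin (N + 1)) ℂ), 1 ≤ e ∧ Gen L w z ∧ Pair y z (QD.ext N A) R K ∧
      ∀ D, D₁ e ≤ D → ∃ Q : Fin (N * (2 * N + 1)) → MvPolynomial (Fin (N + 1)) ℂ,
        (∀ t, (Q t).IsHomogeneous e) ∧ Prop4 z (powerForm D Q) := by
  obtain ⟨e, κ, _, F, he, hF, hFz, hV, hd⟩ := exists_eqs (gen_mdl hy hA) hwM
  obtain ⟨R, K, hP⟩ := exists_pair (show M ≤ N by omega) hy.ne hA
  exact ⟨e, _, R, K, he, gen_ext (by omega) (gen_mdl hy hA), hP, fun D hD =>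
    H e D he hD M (by omega) w L _ (gen_mdl hy hA) hMN κ F hF hFz hV hd⟩

/-- every variety has a model on a hypersurface -/
theorem exists_model {n : ℕ} {L : Type} [Field L] [Algebra ℂ L] {w : ℕ} {y : Fin (n + 1) → L}
    (hy : Gen L w y) {M : ℕ} (hwM : w < M) (hMN : M + w ≤ N)
    {A : Fin (M + 1) → MvPolynomial (Fin (n + 1)) ℂ} (hA : Mdl y A) {E : Set ℕ}
    (hE : E.Infinite) :
    ∃ (e D : ℕ) (Q : Fin (N * (2 * N + 1)) → MvPolynomial (Fin (N + 1)) ℂ) (z : Fin (N + 1) → L)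
      (R : Fin (n + 1) → MvPolynomial (Fin (N + 1)) ℂ) (K : MvPolynomial (Fin (N + 1)) ℂ),
      D ∈ E ∧ D₁ e ≤ D ∧ (∀ t, (Q t).IsHomogeneous e) ∧ SmoothForm (powerForm D Q) ∧
      Gen L w z ∧ Prop4 z (powerForm D Q) ∧ Pair y z (QD.ext N A) R K := by
  obtain ⟨e, z, R, K, he, hz, hP, h⟩ := exists_models H hy hwM hMN hA
  obtain ⟨D, hDE, hD⟩ := hE.exists_gt (D₁ e)
  obtain ⟨Q, hQ, hp⟩ := h D hD.le
  exact ⟨e, D, Q, z, R, K, hDE, hD.le, hQ, hp.smooth, hz, hp, hP⟩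

end

/-- the transfer from the model to the variety -/
theorem transfer_iff {P : ∀ n : ℕ, Set (MvPolynomial (Fin (n + 1)) ℂ) →
    Set (MvPolynomial (Fin (n + 1)) ℂ) → MvPolynomial (Fin (n + 1)) ℂ → Prop} (hM : Moves P)
    {n N : ℕ} {L : Type} [Field L] [Algebra ℂ L] {y : Fin (n + 1) → L}
    {z : Fin (N + 1) → L} {A : Fin (N + 1) → MvPolynomial (Fin (n + 1)) ℂ}
    {R : Fin (n + 1) → MvPolynomial (Fin (N + 1)) ℂ} {H : MvPolynomial (Fin (N + 1)) ℂ}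
    (hP : Pair y z A R H) {T : Set (MvPolynomial (Fin (n + 1)) ℂ)}
    {T' : Set (MvPolynomial (Fin (N + 1)) ℂ)} (hT : ∀ F ∈ T, IsForm F)
    (hT' : ∀ F ∈ T', IsForm F) (hC : Compat y A T T') :
    (∃ G, IsForm G ∧ aeval z G ≠ 0 ∧ P N (Eqs z) T' G) ↔
      ∃ G, IsForm G ∧ aeval y G ≠ 0 ∧ P n (Eqs y) T G := by
  constructor
  · rintro ⟨G, hG, hGz, hPG⟩
    obtain ⟨h1, h2⟩ := hP.pull_ne hG hGz
    exact ⟨_, h1, h2, hM.pull hP hT hT' hC G hG hPG⟩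
  · rintro ⟨G, hG, hGy, hPG⟩
    obtain ⟨h1, h2⟩ := hP.push_ne hG hGy
    exact ⟨_, h1, h2, hM.push hP hT hT' hC G hG hPG⟩

theorem transfer_log {n N : ℕ} {L : Type} [Field L] [Algebra ℂ L] {w : ℕ} {y : Fin (n + 1) → L}
    {z : Fin (N + 1) → L} {A : Fin (N + 1) → MvPolynomial (Fin (n + 1)) ℂ}
    {R : Fin (n + 1) → MvPolynomial (Fin (N + 1)) ℂ} {H : MvPolynomial (Fin (N + 1)) ℂ}
    (hP : Pair y z A R H) (hy : y ≠ 0) {T : Set (MvPolynomial (Fin (n + 1)) ℂ)}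
    {T' : Set (MvPolynomial (Fin (N + 1)) ℂ)} (hT : ∀ F ∈ T, IsForm F)
    (hT' : ∀ F ∈ T', IsForm F) (hC : Compat y A T T') :
    LogGeneral T' L w z ↔ LogGeneral T L w y :=
  log_compat hP hT hT' hC w hy (fun p hp => hp.2) one_ne_zero (by rw [one_smul]; exact hP.z_eq)

theorem transfer_notIn {n N : ℕ} {L : Type} [Field L] [Algebra ℂ L] {y : Fin (n + 1) → L}
    {z : Fin (N + 1) → L} {A : Fin (N + 1) → MvPolynomial (Fin (n + 1)) ℂ}
    {R : Fin (n + 1) → MvPolynomial (Fin (N + 1)) ℂ} {H : MvPolynomial (Fin (N + 1)) ℂ}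
    (hP : Pair y z A R H) (hy : y ≠ 0) {T : Set (MvPolynomial (Fin (n + 1)) ℂ)}
    {T' : Set (MvPolynomial (Fin (N + 1)) ℂ)} (hC : Compat y A T T') (hyT : NotIn T y) :
    NotIn T' z := by
  have h := (hC L y hy (fun p hp => hp.2)).1 hyT
  rwa [hP.z_eq] at h

end Pool.Agent.H911.GD
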