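import Pool.Agent.H911.GD.BaseL
import Pool.Agent.H911.GD.Main4
import Pool.Agent.H911.GD.MoveD

/-!
A smooth hypersurface through a given variety in a linear subspace: its entire curves, its maps from
the punctured disc which do not extend and its closed subvarieties of positive dimension which are not
of general type are in the variety.
-/

set_option autoImplicit false

namespace Pool.Agent.H911.GD

open MvPolynomial Metric Filter Topology
open Pool.Agent.N254.SQ (Eqs IsForm aeval_zero_of aeval_scale Gen SmoothForm powerForm Extends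
  leaves4 hyp Smooth disc_open t_ext)
open Pool.Agent.W602.GT (SubVar GeneralType val coords)
open Pool.Agent.W603.BP (Ext)
open Pool.Agent.H911.QD (emb emb_inj emb_surj emb_val ext_apply ext_smul)

/-- the properties of the hypersurface `A = 0` through the variety with generic point `z` -/
structure Prop4 {N : ℕ} {L : Type} [Field L] [Algebra ℂ L] (z : Fin (N + 1) → L)
    (A : MvPolynomial (Fin (N + 1)) ℂ) : Prop where
  form : IsForm A
  smooth : SmoothForm A
  van : ∀ (Ω : Type) [Field Ω] [Algebra ℂ Ω] (x : Fin (N + 1) → Ω),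
    (∀ p ∈ Eqs z, aeval x p = 0) → aeval x A = 0
  sub : ∀ (L' : Type) [Field L'] [Algebra ℂ L'] (w : ℕ) (y : Fin (N + 1) → L'), 1 ≤ w →
    SubVar (fun _ : Unit => A) L' w y → GeneralType ℂ L' w ∨ ∀ p ∈ Eqs z, aeval y p = 0
  curves : ∀ f : ℂ → Fin (N + 1) → ℂ, Differentiable ℂ f → (∀ w, f w ≠ 0) →
    (∀ w, eval (f w) A = 0) →
    (∀ a b, ∃ c : ℂ, f b = c • f a) ∨ ∀ w, ∀ p ∈ Eqs z, eval (f w) p = 0
  discs : ∀ f : ℂ → Fin (N + 1) → ℂ, DifferentiableOn ℂ f Dp → (∃ w ∈ Dp, f w ≠ 0) →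
    (∀ w ∈ Dp, eval (f w) A = 0) → Extends f ∨ ∀ w ∈ Dp, ∀ p ∈ Eqs z, eval (f w) p = 0

/-- extension by zero and equations -/
theorem ext_eqs {M N : ℕ} (h : M ≤ N) {L : Type} [Field L] [Algebra ℂ L] {z : Fin (M + 1) → L}
    {Ω : Type} [Field Ω] [Algebra ℂ Ω] {x : Fin (N + 1) → Ω}
    (h1 : ∀ i : Fin (N + 1), M < (i : ℕ) → x i = 0)
    (h2 : ∀ p ∈ Eqs z, aeval (fun j => x (emb h j)) p = 0) :
    ∀ p ∈ Eqs (QD.ext N z), aeval x p = 0 := by
  rintro p ⟨hp, hpz⟩
  have hT : ∀ i, ((QD.ext N (X : Fin (M + 1) → MvPolynomial (Fin (M + 1)) ℂ)) i).IsHomogeneous 1 := by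
    intro i
    unfold Pool.Agent.H911.QD.ext
    split_ifs
    · exact isHomogeneous_X ℂ _
    · exact isHomogeneous_zero _ _ _
  have hev : ∀ (Ω : Type) [Field Ω] [Algebra ℂ Ω] (u : Fin (M + 1) → Ω),
      (fun i => aeval u (QD.ext N (X : Fin (M + 1) → MvPolynomial (Fin (M + 1)) ℂ) i)) =
        QD.ext N u := by
    intro Ω _ _ u
    funext i
    unfold Pool.Agent.H911.QD.ext
    split_ifs
    · rw [aeval_X]
    · rw [map_zero]
  have h3 := h2 (bind₁ (QD.ext N X) p) ⟨bind_form hT hp, by rw [bind_eval, hev]; exact hpz⟩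
  rw [bind_eval, hev] at h3
  have h4 : QD.ext N (fun j => x (emb h j)) = x := by
    funext i
    unfold Pool.Agent.H911.QD.ext
    split_ifs with hi
    · rfl
    · exact (h1 i (by omega)).symm
  rwa [h4] at h3

theorem eqs_ext {M N : ℕ} (h : M ≤ N) {L : Type} [Field L] [Algebra ℂ L] {z : Fin (M + 1) → L}
    {Ω : Type} [Field Ω] [Algebra ℂ Ω] {x : Fin (N + 1) → Ω}
    (hx : ∀ p ∈ Eqs (QD.ext N z), aeval x p = 0) :
    (∀ i : Fin (N + 1), M < (i : ℕ) → x i = 0) ∧
      ∀ p ∈ Eqs z, aeval (fun j => x (emb h j)) p = 0 := by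
  constructor
  · intro i hi
    have h1 := hx (X i) ⟨⟨1, isHomogeneous_X ℂ i⟩, by
      rw [aeval_X]
      unfold Pool.Agent.H911.QD.ext
      rw [dif_neg (by omega)]⟩
    rwa [aeval_X] at h1
  · rintro p ⟨⟨e, he⟩, hpz⟩
    have h1 := hx (rename (emb h) p) ⟨⟨e, he.rename_isHomogeneous⟩, by
      rw [aeval_rename]
      have h2 : (QD.ext N z) ∘ (emb h) = z := funext fun i => ext_apply h z i
      rw [h2]
      exact hpz⟩
    rwa [aeval_rename] at h1

theorem exists_hyp4 (N e : ℕ) (hN1 : 1 ≤ N) (he : 1 ≤ e) : ∃ D₁ : ℕ, ∀ D, D₁ ≤ D →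
    ∀ (M : ℕ) (_ : M ≤ N) (w : ℕ) (L : Type) [Field L] [Algebra ℂ L] (z : Fin (M + 1) → L),
      Gen L w z → M + w ≤ N → ∀ (κ : Type) [Fintype κ] (F : κ → MvPolynomial (Fin (M + 1)) ℂ),
      (∀ k, (F k).IsHomogeneous e) → (∀ k, aeval z (F k) = 0) →
      (∀ (Ω : Type) [Field Ω] [Algebra ℂ Ω] (x : Fin (M + 1) → Ω), (∀ k, aeval x (F k) = 0) →
        ∀ p ∈ Eqs z, aeval x p = 0) → (∃ k i, aeval z (pderiv i (F k)) ≠ 0) →
      ∃ Q : Fin (N * (2 * N + 1)) → MvPolynomial (Fin (N + 1)) ℂ,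
        (∀ t, (Q t).IsHomogeneous e) ∧ Prop4 (QD.ext N z) (powerForm D Q) := by
  obtain ⟨D₁, H⟩ := main_four' leaves4 N e hN1 he
  refine ⟨D₁, fun D hD M h w L _ _ z hz hNw κ _ F hF hFz hV hd => ?_⟩
  obtain ⟨c, hc1, hc2⟩ := H D hD ℂ _ (bqs h e F) (bqs_hom h he hF)
    (fun Ω _ _ x a ha hq => bases_pt h hz hNw hV hF hd Ω x a ha hq)
  obtain ⟨c2, c3, c4⟩ := hc2 (RingHom.id ℂ)
  simp only [MvPolynomial.map_id] at c2 c3 c4
  have hhom : ∀ t, (∑ i, C (c (t, i)) * bqs h e F i).IsHomogeneous e := by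
    intro t
    refine IsHomogeneous.sum _ _ _ fun i _ => ?_
    have h2 := (isHomogeneous_C (Fin (N + 1)) (c (t, i))).mul (bqs_hom h he hF i)
    rwa [zero_add] at h2
  have hA : powerForm D (fun t => ∑ i, C (c (t, i)) * bqs h e F i) = hyp (bqs h e F) D c := rfl
  -- zeros of all `q i`
  have hzero : ∀ (Ω : Type) [Field Ω] [Algebra ℂ Ω] (x : Fin (N + 1) → Ω), x ≠ 0 →
      (∀ i, aeval x (bqs h e F i) = 0) → ∀ p ∈ Eqs (QD.ext N z), aeval x p = 0 := by
    intro Ω _ _ x hx hq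
    obtain ⟨h1, h2⟩ := bqs_zero h x hx hq
    exact ext_eqs h h1 (hV Ω _ h2)
  have hforms : ∀ x : Fin (N + 1) → ℂ, (∀ i, eval x (bqs h e F i) = 0) →
      ∀ p ∈ Eqs (QD.ext N z), eval x p = 0 := by
    intro x hx p hp
    by_cases hx0 : x = 0
    · obtain ⟨⟨c, hc⟩, hpz⟩ := hp
      rw [hx0]
      rcases Nat.eq_zero_or_pos c with h0 | h0
      · rw [h0] at hc
        have h1 : p = C (coeff 0 p) := by
          rw [← totalDegree_eq_zero_iff_eq_C]
          by_cases hp0 : p = 0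
          · rw [hp0, totalDegree_zero]
          · exact hc.totalDegree hp0
        rw [h1, aeval_C] at hpz
        have h2 := (map_eq_zero _).1 hpz
        rw [h1, h2, C_0, map_zero]
      · have h1 := aeval_scale (Ω := ℂ) hc (0 : ℂ) (0 : Fin (N + 1) → ℂ)
        rw [zero_smul, zero_pow (by omega), zero_mul] at h1
        exact h1
    · exact hzero ℂ x hx0 hx p hp
  refine ⟨fun t => ∑ i, C (c (t, i)) * bqs h e F i, hhom, ?_⟩
  rw [hA]
  refine ⟨?_, ?_, ?_, ?_, ?_, ?_⟩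
  · refine ⟨e + D, ?_⟩
    rw [← hA]
    refine IsHomogeneous.sum _ _ _ fun t _ => ?_
    refine (hhom t).mul ?_
    have h1 : (∑ j : Fin (N + 1), C (((t : ℕ) : ℂ) ^ (j : ℕ)) * X j :
        MvPolynomial (Fin (N + 1)) ℂ).IsHomogeneous 1 := by
      refine IsHomogeneous.sum _ _ _ fun j _ => ?_
      have h2 := (isHomogeneous_C (Fin (N + 1)) (((t : ℕ) : ℂ) ^ (j : ℕ))).mul
        (isHomogeneous_X ℂ j)
      rwa [zero_add] at h2
    have h2 := h1.pow D
    rwa [one_mul] at h2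
  · intro y hy
    obtain ⟨j, hj⟩ := hc1 ℂ (RingHom.id ℂ) y hy
    rw [MvPolynomial.map_id] at hj
    exact ⟨j, hj⟩
  · intro Ω _ _ x hx
    obtain ⟨h1, h2⟩ := eqs_ext h hx
    have h3 := bqs_of h (e := e) x h1 (fun k => h2 (F k) ⟨⟨e, hF k⟩, hFz k⟩)
    unfold hyp
    rw [map_sum]
    refine Finset.sum_eq_zero fun t _ => ?_
    rw [map_mul, map_sum, Finset.sum_eq_zero, zero_mul]
    intro i _
    rw [map_mul, h3 i, mul_zero]
  · intro L' _ _ w' y' hw' hy'
    rcases c3 L' w' y' hw' hy' with h1 | h1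
    · exact Or.inr (hzero L' y' hy'.ne h1)
    · exact Or.inl h1
  · intro f hf hf0 hfA
    by_cases hcon : ∀ a b, ∃ c : ℂ, f b = c • f a
    · exact Or.inl hcon
    · right
      intro w
      have hnc : ∃ i j z w, f z i * f w j ≠ f z j * f w i := by
        by_contra h2
        push Not at h2
        apply hcon
        intro z w
        obtain ⟨j0, hj0⟩ : ∃ j, f z j ≠ 0 := by
          by_contra h3
          push Not at h3
          exact hf0 z (funext h3)
        refine ⟨f w j0 / f z j0, funext fun i => ?_⟩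
        rw [Pi.smul_apply, smul_eq_mul, div_mul_eq_mul_div, eq_div_iff hj0]
        exact h2 i j0 w z
      have h1 := c2 (fun j z => f z j) (fun j => (differentiable_pi.1 hf) j)
        (fun z => by
          by_contra h2
          push Not at h2
          exact hf0 z (funext h2)) (fun z => hfA z) hnc w
      exact hforms (f w) h1
  · intro f hf hfn hfA
    have hmem : ∀ z ∈ Ext (1 : ℝ), z⁻¹ ∈ Dp := by
      intro z hz
      have hz1 : 1 < ‖z‖ := hz
      have hz0 : z ≠ 0 := Pool.Agent.W603.BP.ext_ne_zero zero_le_one hz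
      refine ⟨?_, inv_ne_zero hz0⟩
      rw [mem_ball_zero_iff, norm_inv]
      exact inv_lt_one_of_one_lt₀ hz1
    have hinv : ∀ w ∈ Dp, w⁻¹ ∈ Ext (1 : ℝ) := by
      intro w hw
      have hw0 : w ≠ 0 := hw.2
      change 1 < ‖w⁻¹‖
      rw [norm_inv]
      exact (one_lt_inv₀ (norm_pos_iff.2 hw0)).2 (mem_ball_zero_iff.1 hw.1)
    have hfan : ∀ j, ∀ w ∈ Dp, AnalyticAt ℂ (fun w => f w j) w := by
      intro j w hw
      have h1 : DifferentiableOn ℂ (fun w => f w j) Dp := fun w hw =>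
        (differentiableWithinAt_pi.1 (hf w hw)) j
      exact h1.analyticAt (disc_open.mem_nhds hw)
    rcases c4 1 (fun j z => f z⁻¹ j) one_pos (by
      intro j z hz
      exact AnalyticAt.comp' (f := fun z : ℂ => z⁻¹) (g := fun w => f w j) (hfan j _ (hmem z hz))
        (analyticAt_inv (Pool.Agent.W603.BP.ext_ne_zero zero_le_one hz))) (by
      intro z hz
      exact hfA _ (hmem z hz)) with h1 | h1
    · right
      intro w hw
      apply hforms
      intro i
      have h2 := h1 _ (hinv w hw) i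
      rw [inv_inv] at h2
      exact h2
    · left
      refine (t_ext N f hf hfn).2 ?_
      rintro j k ⟨w, hw, hwk⟩
      obtain ⟨ρ, b, hρ, hb, hρf⟩ := h1 j k ⟨w⁻¹, hinv w hw, by
          change f w⁻¹⁻¹ k ≠ 0
          rwa [inv_inv]⟩
      have hb0 : 0 < b := lt_of_lt_of_le one_pos hb
      refine ⟨ρ, hρ, ?_⟩
      filter_upwards [Pool.Agent.W603.BP.PB_mem (inv_pos.2 hb0)] with w hw
      have h2 := hρf w⁻¹ (by
        have := Pool.Agent.W603.BP.inv_mem_Ext hw
        rwa [inv_inv] at this)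
      rwa [inv_inv] at h2

end Pool.Agent.H911.GD
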