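import Pool.Graph.R_pool_sql_team_seeded_63374d34.N254.SQ.Qcurv
import Pool.Graph.R_pool_sql_team_seeded_63374d34.N254.SQ.Qdisc
import Pool.Agent.H911.GD.MoveS

/-!
Entire curves under finite birational projections.
-/

set_option autoImplicit false

namespace Pool.Agent.H911.GD

open MvPolynomial Metric Filter Topology
open Pool.Agent.N254.SQ (Eqs IsForm aeval_zero_of aeval_scale Gen OnCurvesQ diff_evalOn qd_eq)
open Pool.Agent.W602.GT (coords)

/-- division of an entire function -/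
theorem exists_quot {u v : ℂ → ℂ} (hu : Differentiable ℂ u) (hv : Differentiable ℂ v)
    (hv0 : ∃ z, v z ≠ 0) (K : ℂ → ℝ) (hK : Continuous K) (h : ∀ z, ‖u z‖ ≤ K z * ‖v z‖) :
    ∃ g : ℂ → ℂ, Differentiable ℂ g ∧ ∀ z, v z * g z = u z := by
  obtain ⟨q, hq⟩ : ∃ q : ℂ → ℂ, q = fun z => u z / v z := ⟨_, rfl⟩
  have hqm : MeromorphicOn q Set.univ := by
    intro z _
    rw [hq]
    exact (hu.analyticAt z).meromorphicAt.fun_div (hv.analyticAt z).meromorphicAt
  have hqb : ∀ z, ‖q z‖ ≤ |K z| := by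
    intro z
    rw [hq]
    simp only
    by_cases hz : v z = 0
    · rw [hz, div_zero, norm_zero]
      exact abs_nonneg _
    · rw [norm_div, div_le_iff₀ (norm_pos_iff.2 hz)]
      exact (h z).trans (mul_le_mul_of_nonneg_right (le_abs_self _) (norm_nonneg _))
  have hord : ∀ z, 0 ≤ meromorphicOrderAt q z := by
    intro z
    by_contra hcon
    push Not at hcon
    have h1 := tendsto_cobounded_of_meromorphicOrderAt_neg hcon
    rw [← tendsto_norm_atTop_iff_cobounded] at h1
    have h2 : ∀ᶠ w in 𝓝[≠] z, |K z| + 1 < ‖q w‖ := h1.eventually_gt_atTop _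
    have h3 : ∀ᶠ w in 𝓝[≠] z, |K w| < |K z| + 1 := by
      refine nhdsWithin_le_nhds ?_
      exact (hK.abs.continuousAt (x := z)).eventually_lt continuousAt_const (by linarith)
    obtain ⟨w, hw1, hw2⟩ := (h2.and h3).exists
    have := hqb w
    linarith
  have hvne : ∀ z, ∀ᶠ w in 𝓝[≠] z, v w ≠ 0 := by
    intro z
    have han : AnalyticOnNhd ℂ v Set.univ := fun z _ => hv.analyticAt z
    rcases (hv.analyticAt z).eventually_eq_zero_or_eventually_ne_zero with h1 | h1
    · exfalso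
      obtain ⟨w, hw⟩ := hv0
      exact hw (han.eqOn_zero_of_preconnected_of_eventuallyEq_zero isPreconnected_univ
        (Set.mem_univ z) h1 (Set.mem_univ w))
    · exact h1
  have hg : ∀ z, AnalyticAt ℂ (toMeromorphicNFOn q Set.univ) z := by
    intro z
    have h1 := (hqm z (Set.mem_univ z)).meromorphicOrderAt_nonneg_iff_analyticAt_toMeromorphicNFAt.1
      (hord z)
    exact h1.congr (toMeromorphicNFOn_eq_toMeromorphicNFAt_on_nhds hqm (Set.mem_univ z)).symm
  refine ⟨toMeromorphicNFOn q Set.univ, fun z => (hg z).differentiableAt, fun z => ?_⟩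
  refine qd_eq (a := fun z => v z * toMeromorphicNFOn q Set.univ z) (b := u)
    (hv.continuous.continuousAt.mul (hg z).continuousAt) hu.continuous.continuousAt ?_
  filter_upwards [hvne z, hqm.toMeromorphicNFOn_eq_self_on_nhdsNE (Set.mem_univ z)] with w h1 h2
  rw [h2, hq]
  exact mul_div_cancel₀ _ h1

/-- a linear projection which is regular on the variety does not contract -/
theorem norm_bound {n N : ℕ} {L : Type} [Field L] [Algebra ℂ L] {y : Fin (n + 1) → L}
    {A : Fin (N + 1) → MvPolynomial (Fin (n + 1)) ℂ} (hA : ∀ i, (A i).IsHomogeneous 1)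
    (hreg : Regular y A) : ∃ K : ℝ, ∀ x : Fin (n + 1) → ℂ, (∀ p ∈ Eqs y, eval x p = 0) →
      ‖x‖ ≤ K * ‖fun i => eval x (A i)‖ := by
  obtain ⟨S, hS⟩ : ∃ S : Set (Fin (n + 1) → ℂ), S = {x | ∀ p ∈ Eqs y, eval x p = 0} ∩
    sphere 0 1 := ⟨_, rfl⟩
  have hcl : IsClosed {x : Fin (n + 1) → ℂ | ∀ p ∈ Eqs y, eval x p = 0} := by
    have h1 : {x : Fin (n + 1) → ℂ | ∀ p ∈ Eqs y, eval x p = 0} =
        ⋂ p ∈ Eqs y, {x | eval x p = 0} := by
      ext x
      simp
    rw [h1]
    exact isClosed_biInter fun p _ => isClosed_singleton.preimage (MvPolynomial.continuous_eval p)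
  have hcomp : IsCompact S := by
    rw [hS]
    exact (isCompact_sphere _ _).inter_left hcl
  obtain ⟨φ, hφ⟩ : ∃ φ : (Fin (n + 1) → ℂ) → ℝ, φ = fun x => ‖fun i => eval x (A i)‖ := ⟨_, rfl⟩
  have hφc : Continuous φ := by
    rw [hφ]
    exact (continuous_pi fun i => MvPolynomial.continuous_eval (A i)).norm
  rcases S.eq_empty_or_nonempty with h0 | hne
  · refine ⟨0, fun x hx => ?_⟩
    by_cases hx0 : x = 0
    · rw [hx0, norm_zero, zero_mul]
    · exfalso
      have hn : ‖x‖ ≠ 0 := norm_ne_zero_iff.2 hx0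
      have h1 : ((‖x‖⁻¹ : ℝ) : ℂ) • x ∈ S := by
        rw [hS]
        refine ⟨fun p hp => ?_, ?_⟩
        · have h2 : ((‖x‖⁻¹ : ℝ) : ℂ) ≠ 0 := by
            rw [Complex.ofReal_ne_zero]
            exact inv_ne_zero hn
          exact (aeval_zero_of (Ω := ℂ) hp.1 h2 x).2 (hx p hp)
        · rw [mem_sphere_zero_iff_norm, norm_smul, Complex.norm_real, norm_inv, norm_norm,
            inv_mul_cancel₀ hn]
      rw [h0] at h1
      exact h1
  · obtain ⟨x0, hx0, hmin⟩ := hcomp.exists_isMinOn hne hφc.continuousOn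
    have hpos : 0 < φ x0 := by
      rw [hS] at hx0
      obtain ⟨i, hi⟩ := hreg ℂ x0 (by
        intro h
        have h1 := mem_sphere_zero_iff_norm.1 hx0.2
        rw [h, norm_zero] at h1
        exact zero_ne_one h1) hx0.1
      rw [hφ]
      refine norm_pos_iff.2 fun h => hi ?_
      exact congrFun h i
    refine ⟨(φ x0)⁻¹, fun x hx => ?_⟩
    by_cases hx0' : x = 0
    · rw [hx0', norm_zero]
      exact mul_nonneg (inv_nonneg.2 hpos.le) (norm_nonneg _)
    · have hn : ‖x‖ ≠ 0 := norm_ne_zero_iff.2 hx0'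
      have h1 : ((‖x‖⁻¹ : ℝ) : ℂ) • x ∈ S := by
        rw [hS]
        refine ⟨fun p hp => ?_, ?_⟩
        · have h2 : ((‖x‖⁻¹ : ℝ) : ℂ) ≠ 0 := by
            rw [Complex.ofReal_ne_zero]
            exact inv_ne_zero hn
          exact (aeval_zero_of (Ω := ℂ) hp.1 h2 x).2 (hx p hp)
        · rw [mem_sphere_zero_iff_norm, norm_smul, Complex.norm_real, norm_inv, norm_norm,
            inv_mul_cancel₀ hn]
      have h2 : φ x0 ≤ φ (((‖x‖⁻¹ : ℝ) : ℂ) • x) := hmin h1
      have h3 : φ (((‖x‖⁻¹ : ℝ) : ℂ) • x) = ‖x‖⁻¹ * φ x := by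
        rw [hφ]
        simp only
        have h4 : (fun i => eval (((‖x‖⁻¹ : ℝ) : ℂ) • x) (A i)) =
            ((‖x‖⁻¹ : ℝ) : ℂ) • fun i => eval x (A i) := by
          funext i
          have h5 := aeval_scale (Ω := ℂ) (hA i) ((‖x‖⁻¹ : ℝ) : ℂ) x
          rw [pow_one] at h5
          exact h5
        rw [h4, norm_smul, Complex.norm_real, norm_inv, norm_norm]
      rw [h3] at h2
      have h4 : ‖x‖ * φ x0 ≤ φ x := by
        calc ‖x‖ * φ x0 ≤ ‖x‖ * (‖x‖⁻¹ * φ x) := mul_le_mul_of_nonneg_left h2 (norm_nonneg x)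
          _ = φ x := by rw [← mul_assoc, mul_inv_cancel₀ hn, one_mul]
      have h5 : φ x = ‖fun i => eval x (A i)‖ := by rw [hφ]
      rw [← h5, inv_mul_eq_div, le_div_iff₀ hpos]
      exact h4

theorem diff_map {n N : ℕ} (T : Fin (N + 1) → MvPolynomial (Fin (n + 1)) ℂ)
    {f : ℂ → Fin (n + 1) → ℂ} (hf : Differentiable ℂ f) :
    Differentiable ℂ fun w i => eval (f w) (T i) := by
  rw [differentiable_pi]
  intro i
  rw [← differentiableOn_univ]
  exact diff_evalOn (T i) hf.differentiableOn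

section

variable {n N : ℕ} {L : Type} [Field L] [Algebra ℂ L] {y : Fin (n + 1) → L}
  {z : Fin (N + 1) → L} {A : Fin (N + 1) → MvPolynomial (Fin (n + 1)) ℂ}
  {R : Fin (n + 1) → MvPolynomial (Fin (N + 1)) ℂ} {H : MvPolynomial (Fin (N + 1)) ℂ}
  (hP : Pair y z A R H) {T : Set (MvPolynomial (Fin (n + 1)) ℂ)}
  {T' : Set (MvPolynomial (Fin (N + 1)) ℂ)}
  (hC : Compat y A T T')
include hP hC

theorem curves_pull {G : MvPolynomial (Fin (N + 1)) ℂ} (hG : OnCurvesQ (Eqs z) T' G) :
    OnCurvesQ (Eqs y) T (bind₁ A (G * H)) := by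
  obtain ⟨r, hH, hR⟩ := hP.homR
  intro f hf hf0 hfS hfT
  have hbe : ∀ w (Q : MvPolynomial (Fin (N + 1)) ℂ),
      eval (f w) (bind₁ A Q) = eval (fun i => eval (f w) (A i)) Q :=
    fun w Q => bind_eval (Ω := ℂ) A (f w) Q
  have hRA : ∀ w j, eval (fun i => eval (f w) (A i)) (R j) =
      eval (fun i => eval (f w) (A i)) H * f w j := fun w j => hP.RA (Ω := ℂ) (hfS w) j
  have hg0 : ∀ w, (fun i => eval (f w) (A i)) ≠ 0 := by
    intro w h
    obtain ⟨i, hi⟩ := hP.reg ℂ (f w) (hf0 w) (hfS w)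
    exact hi (congrFun h i)
  rcases hG (fun w i => eval (f w) (A i)) (diff_map A hf) hg0
    (fun w => hP.mapA (Ω := ℂ) (hfS w))
    (fun w => (hC ℂ (f w) (hf0 w) (hfS w)).1 (hfT w)) with h1 | h1
  · by_cases hH0 : ∃ z0, eval (fun i => eval (f z0) (A i)) H ≠ 0
    · left
      obtain ⟨z0, hz0⟩ := hH0
      have key : ∀ w, ∃ c : ℂ, c ≠ 0 ∧ f w = c • f z0 := by
        intro w
        obtain ⟨c, hc⟩ := h1 z0 w
        have hc0 : c ≠ 0 := by
          rintro rfl
          exact hg0 w (by rw [hc, zero_smul])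
        refine ⟨c, hc0, ?_⟩
        have h2 : eval (fun i => eval (f w) (A i)) H =
            c ^ r * eval (fun i => eval (f z0) (A i)) H := by
          rw [hc]
          exact aeval_scale (Ω := ℂ) hH c _
        have h3 : ∀ j, eval (fun i => eval (f w) (A i)) (R j) =
            c ^ (r + 1) * eval (fun i => eval (f z0) (A i)) (R j) := by
          intro j
          rw [hc]
          exact aeval_scale (Ω := ℂ) (hR j) c _
        funext j
        have h4 := hRA w j
        rw [h2, h3, hRA z0] at h4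
        rw [Pi.smul_apply, smul_eq_mul]
        apply mul_left_cancel₀ (mul_ne_zero (pow_ne_zero r hc0) hz0)
        rw [pow_succ] at h4
        linear_combination -h4
      intro a b
      obtain ⟨c, hc0, hc⟩ := key a
      obtain ⟨d, -, hd⟩ := key b
      refine ⟨d / c, ?_⟩
      rw [hc, hd, smul_smul, div_mul_cancel₀ _ hc0]
    · right
      push Not at hH0
      intro w
      rw [hbe, map_mul, hH0 w, mul_zero]
  · right
    intro w
    have h2 := h1 w
    rw [hbe, map_mul, h2, zero_mul]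

theorem curves_push {G : MvPolynomial (Fin (n + 1)) ℂ} (hGf : IsForm G)
    (hG : OnCurvesQ (Eqs y) T G) : OnCurvesQ (Eqs z) T' (bind₁ R G * H) := by
  obtain ⟨r, hH, hR⟩ := hP.homR
  intro f hf hf0 hfS hfT
  have hbe : ∀ w (Q : MvPolynomial (Fin (n + 1)) ℂ),
      eval (f w) (bind₁ R Q) = eval (fun j => eval (f w) (R j)) Q :=
    fun w Q => bind_eval (Ω := ℂ) R (f w) Q
  have hAR : ∀ w i, eval (fun j => eval (f w) (R j)) (A i) = eval (f w) H * f w i :=
    fun w i => hP.AR (Ω := ℂ) (hfS w) i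
  by_cases hH0 : ∀ w, eval (f w) H = 0
  · right
    intro w
    rw [map_mul, hH0 w, mul_zero]
  push Not at hH0
  obtain ⟨K, hK⟩ := norm_bound hP.homA hP.reg
  have hfE : ∀ w, ∀ p ∈ Eqs y, eval (fun j => eval (f w) (R j)) p = 0 :=
    fun w => hP.mapR (Ω := ℂ) (hfS w)
  have hHd : Differentiable ℂ fun w => eval (f w) H := by
    rw [← differentiableOn_univ]
    exact diff_evalOn H hf.differentiableOn
  have hbound : ∀ j w, ‖eval (f w) (R j)‖ ≤ (K * ‖f w‖) * ‖eval (f w) H‖ := by
    intro j w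
    have h1 := hK _ (hfE w)
    have h2 : (fun i => eval (fun j => eval (f w) (R j)) (A i)) = eval (f w) H • f w := by
      funext i
      rw [hAR, Pi.smul_apply, smul_eq_mul]
    rw [h2, norm_smul] at h1
    calc ‖eval (f w) (R j)‖ ≤ ‖fun j => eval (f w) (R j)‖ :=
          norm_le_pi_norm (fun j => eval (f w) (R j)) j
      _ ≤ K * (‖eval (f w) H‖ * ‖f w‖) := h1
      _ = (K * ‖f w‖) * ‖eval (f w) H‖ := by ring
  have hquot : ∀ j, ∃ g : ℂ → ℂ, Differentiable ℂ g ∧ ∀ w, eval (f w) H * g w =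
      eval (f w) (R j) := by
    intro j
    refine exists_quot ?_ hHd hH0 (fun w => K * ‖f w‖) ?_ (hbound j)
    · rw [← differentiableOn_univ]
      exact diff_evalOn (R j) hf.differentiableOn
    · exact continuous_const.mul hf.continuous.norm
  choose g hg hgR using hquot
  obtain ⟨F, hF⟩ : ∃ F : ℂ → Fin (n + 1) → ℂ, F = fun w j => g j w := ⟨_, rfl⟩
  have hFd : Differentiable ℂ F := by
    rw [differentiable_pi, hF]
    exact hg
  have hFR : ∀ w, eval (f w) H • F w = fun j => eval (f w) (R j) := by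
    intro w
    funext j
    rw [Pi.smul_apply, smul_eq_mul, hF, hgR]
  -- identities which hold off the zeros of `H`
  have hHan : AnalyticOnNhd ℂ (fun w => eval (f w) H) Set.univ := fun w _ => hHd.analyticAt w
  have hcancel : ∀ u : ℂ → ℂ, Differentiable ℂ u → (∀ w, eval (f w) H * u w = 0) →
      ∀ w, u w = 0 := by
    intro u hu h w
    have hua : AnalyticOnNhd ℂ u Set.univ := fun w _ => hu.analyticAt w
    rcases hHan.eq_zero_or_eq_zero_of_mul_eq_zero hua (fun w _ => h w) isPreconnected_univ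
      with h2 | h2
    · obtain ⟨w0, hw0⟩ := hH0
      exact absurd (h2 w0 (Set.mem_univ w0)) hw0
    · exact h2 w (Set.mem_univ w)
  have hAF : ∀ w i, eval (F w) (A i) = f w i := by
    intro w i
    have h1 := hcancel (fun w => eval (F w) (A i) - f w i) (by
      refine Differentiable.sub ?_ (differentiable_pi.1 hf i)
      rw [← differentiableOn_univ]
      exact diff_evalOn (A i) hFd.differentiableOn) (by
      intro w
      have h2 := aeval_scale (Ω := ℂ) (hP.homA i) (eval (f w) H) (F w)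
      rw [hFR w, pow_one] at h2
      have h3 : eval (fun j => eval (f w) (R j)) (A i) = eval (f w) H * eval (F w) (A i) := h2
      rw [hAR] at h3
      linear_combination -h3) w
    exact sub_eq_zero.1 h1
  have hF0 : ∀ w, F w ≠ 0 := by
    intro w h
    apply hf0 w
    funext i
    rw [← hAF w i, h]
    have h2 := aeval_scale (Ω := ℂ) (hP.homA i) (0 : ℂ) (0 : Fin (n + 1) → ℂ)
    rw [smul_zero, pow_one, zero_mul] at h2
    exact h2
  have hFS : ∀ w, ∀ p ∈ Eqs y, eval (F w) p = 0 := by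
    rintro w p ⟨⟨e, he⟩, hp⟩
    refine hcancel (fun w => eval (F w) p) ?_ ?_ w
    · rw [← differentiableOn_univ]
      exact diff_evalOn p hFd.differentiableOn
    · intro w
      by_cases hw : eval (f w) H = 0
      · rw [hw, zero_mul]
      · have h1 : eval (F w) p = 0 := by
          have h2 := hfE w p ⟨⟨e, he⟩, hp⟩
          rw [← hFR w] at h2
          exact (aeval_zero_of (Ω := ℂ) ⟨e, he⟩ hw (F w)).1 h2
        rw [h1, mul_zero]
  have hFT : ∀ w, ∃ Q ∈ T, eval (F w) Q ≠ 0 := by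
    intro w
    refine (hC ℂ (F w) (hF0 w) (hFS w)).2 ?_
    have h1 : (fun i => aeval (F w) (A i)) = f w := funext (hAF w)
    rw [h1]
    exact hfT w
  rcases hG F hFd hF0 hFS hFT with h1 | h1
  · left
    intro a b
    obtain ⟨c, hc⟩ := h1 a b
    refine ⟨c, ?_⟩
    funext i
    rw [Pi.smul_apply, ← hAF, ← hAF, hc, smul_eq_mul]
    have h2 := aeval_scale (Ω := ℂ) (hP.homA i) c (F a)
    rw [pow_one] at h2
    exact h2
  · right
    intro w
    obtain ⟨e, he⟩ := hGf
    rw [map_mul, hbe, ← hFR w]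
    have h2 : eval (eval (f w) H • F w) G = eval (f w) H ^ e * eval (F w) G :=
      aeval_scale (Ω := ℂ) he _ _
    rw [h2, h1 w, mul_zero, zero_mul]

end

end Pool.Agent.H911.GD
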