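import Pool.Graph.R_pool_sql_team_seeded_63374d34.N254.SQ.Qforw
import Pool.Graph.R_pool_sql_team_seeded_63374d34.N254.SQ.Qspec
import Pool.Agent.H911.GD.Hyp4
import Pool.Agent.H911.GD.MoveC

/-!
The exceptional sets of varieties and of smooth hypersurfaces: the abstract argument, with control of
the dimension.
-/

set_option autoImplicit false

namespace Pool.Agent.H911.GD

open MvPolynomial Metric
open Pool.Agent.N254.SQ (Eqs IsForm aeval_zero_of aeval_scale Gen NotIn ValueNotIn LogGeneral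
  OnSpecialQ OnCurvesQ OnDiscsQ Component Exc Idl t_comp t_comp2 Fm qf_mul qf_eqs qf_eqsForm
  SmoothForm comp_trdeg ce_general)
open Pool.Agent.W602.GT (SubVar GeneralType coords)
open Pool.Agent.H911.QD (coords_affine cone_trdeg cone_eval surj_inj trdeg_pol)

/-- a type of exceptional sets of quasi-projective varieties `V(S) ∖ V(T)` -/
structure Typ (P : ∀ n : ℕ, Set (MvPolynomial (Fin (n + 1)) ℂ) →
    Set (MvPolynomial (Fin (n + 1)) ℂ) → MvPolynomial (Fin (n + 1)) ℂ → Prop) : Prop where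
  idl : ∀ (n : ℕ) (S T : Set (MvPolynomial (Fin (n + 1)) ℂ)), Idl (P n S T)
  van : ∀ (n : ℕ) (S T : Set (MvPolynomial (Fin (n + 1)) ℂ)) (G : MvPolynomial (Fin (n + 1)) ℂ),
    IsForm G → (∀ (L : Type) [Field L] [Algebra ℂ L] (x : Fin (n + 1) → L),
      (∀ p ∈ S, aeval x p = 0) → aeval x G = 0) → P n S T G
  restr : ∀ (n : ℕ) (S T : Set (MvPolynomial (Fin (n + 1)) ℂ)) (L : Type) [Field L] [Algebra ℂ L]
    (y : Fin (n + 1) → L) (G H : MvPolynomial (Fin (n + 1)) ℂ), IsForm G → IsForm H →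
    (∀ F, IsForm F → aeval y F = 0 → P n S T (F * H)) → P n (Eqs y) T G → P n S T (G * H)
  mono : ∀ (n : ℕ) (S S' T : Set (MvPolynomial (Fin (n + 1)) ℂ)),
    (∀ (L : Type) [Field L] [Algebra ℂ L] (x : Fin (n + 1) → L),
      (∀ p ∈ S', aeval x p = 0) → ∀ p ∈ S, aeval x p = 0) →
    ∀ G, P n S T G → P n S' T G
  coord : ∀ (n : ℕ) (S T : Set (MvPolynomial (Fin (n + 1)) ℂ)) (G : MvPolynomial (Fin (n + 1)) ℂ),
    IsForm G → (∀ j, P n S T (G * X j)) → P n S T G
  away : ∀ (n : ℕ) (S T : Set (MvPolynomial (Fin (n + 1)) ℂ)) (H : MvPolynomial (Fin (n + 1)) ℂ),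
    (∀ F ∈ T, IsForm F) → IsForm H → (∀ F ∈ T, P n S T (F * H)) → P n S T H
  point : ∀ (n : ℕ) (T : Set (MvPolynomial (Fin (n + 1)) ℂ)) (L : Type) [Field L] [Algebra ℂ L]
    (y : Fin (n + 1) → L), Gen L 0 y → P n (Eqs y) T 1

theorem typ_of_exc {P : ∀ n : ℕ, Set (MvPolynomial (Fin (n + 1)) ℂ) →
    Set (MvPolynomial (Fin (n + 1)) ℂ) → MvPolynomial (Fin (n + 1)) ℂ → Prop} (h : Exc P) :
    Typ P :=
  ⟨h.idl, h.van, h.restr, h.mono, h.coord, h.away, h.point⟩

theorem typ_special : Typ (fun _ S T G => OnSpecialQ S T G) :=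
  typ_of_exc (Pool.Agent.N254.SQ.t_qspec Pool.Agent.N254.SQ.t_cent)

theorem typ_curves : Typ (fun _ S T G => OnCurvesQ S T G) :=
  typ_of_exc Pool.Agent.N254.SQ.t_qcurv

theorem typ_discs : Typ (fun _ S T G => OnDiscsQ S T G) :=
  typ_of_exc Pool.Agent.N254.SQ.t_qdisc

/-! ### components -/

section

variable {J : ∀ n : ℕ, Set (MvPolynomial (Fin (n + 1)) ℂ) →
    Set (MvPolynomial (Fin (n + 1)) ℂ) → MvPolynomial (Fin (n + 1)) ℂ → Prop} (hJ : Typ J)
include hJ

/-- the components of an exceptional set -/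
theorem typ_comp {n : ℕ} {S T : Set (MvPolynomial (Fin (n + 1)) ℂ)} (hS : ∀ p ∈ S, IsForm p)
    (hT : ∀ F ∈ T, IsForm F) {e : ℕ} {G : MvPolynomial (Fin (n + 1)) ℂ} (hG : G.IsHomogeneous e)
    (he : 1 ≤ e) (hn : ¬ J n S T G) :
    ∃ (L : Type) (_ : Field L) (_ : Algebra ℂ L) (w : ℕ) (y : Fin (n + 1) → L), 1 ≤ w ∧
      Gen L w y ∧ aeval y G ≠ 0 ∧ NotIn T y ∧ (∀ p ∈ S, aeval y p = 0) ∧
      Component (J n S T) y := by
  obtain ⟨L, iF, iA, w, y, hgen, hGy, hc⟩ := t_comp2 n (J n S T) (hJ.idl n S T) e G hG he hn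
  obtain ⟨hc1, H, hH, hHy, hc2⟩ := hc
  refine ⟨L, iF, iA, w, y, ?_, hgen, hGy, ?_, ?_, hc1, H, hH, hHy, hc2⟩
  · by_contra hw
    have hw0 : w = 0 := by omega
    subst hw0
    have h1 := hJ.restr n S T L y 1 H ⟨0, isHomogeneous_one _ _⟩ hH hc2 (hJ.point n T L y hgen)
    rw [one_mul] at h1
    exact hHy (hc1 H hH h1)
  · by_contra hnot
    have h1 : ∀ F ∈ T, aeval y F = 0 := by
      intro F hF
      by_contra h0
      exact hnot ⟨F, hF, h0⟩
    exact hHy (hc1 H hH (hJ.away n S T H hT hH fun F hF => hc2 F (hT F hF) (h1 F hF)))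
  · intro p hp
    exact hc1 p (hS p hp) (hJ.van n S T p (hS p hp) fun L _ _ x hx => hx p hp)

/-- the contradiction: a form `G` with `G(y) ≠ 0` on the exceptional set of the component -/
theorem typ_con {n : ℕ} {S T : Set (MvPolynomial (Fin (n + 1)) ℂ)} {L : Type} [Field L]
    [Algebra ℂ L] {y : Fin (n + 1) → L} (hc : Component (J n S T) y)
    {G : MvPolynomial (Fin (n + 1)) ℂ} (hG : IsForm G) (hGy : aeval y G ≠ 0)
    (h : J n (Eqs y) T G) : False := by
  obtain ⟨hc1, H, hH, hHy, hc2⟩ := hc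
  have h1 := hc1 (G * H) (qf_mul hG hH) (hJ.restr n S T L y G H hG hH hc2 h)
  rw [map_mul] at h1
  exact (mul_ne_zero hGy hHy) h1

end

/-- from positive degrees to degree zero -/
theorem typ_deg {I J : ∀ n : ℕ, Set (MvPolynomial (Fin (n + 1)) ℂ) →
    Set (MvPolynomial (Fin (n + 1)) ℂ) → MvPolynomial (Fin (n + 1)) ℂ → Prop} (hI : Typ I)
    (hJ : Typ J) {n : ℕ} {S T : Set (MvPolynomial (Fin (n + 1)) ℂ)}
    (h : ∀ (e : ℕ) (G : MvPolynomial (Fin (n + 1)) ℂ), G.IsHomogeneous e → 1 ≤ e →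
      I n S T G → J n S T G) (G : MvPolynomial (Fin (n + 1)) ℂ) (hG : IsForm G)
    (hIG : I n S T G) : J n S T G := by
  refine hJ.coord n S T G hG fun j => ?_
  obtain ⟨e, he⟩ := hG
  exact h (e + 1) (G * X j) (he.mul (isHomogeneous_X _ _)) (by omega)
    ((hI.idl n S T).mul G (X j) ⟨e, he⟩ ⟨1, isHomogeneous_X _ _⟩ hIG)

/-! ### dimensions -/

/-- the dimension of a subvariety of a hypersurface -/
theorem dim_lt {N : ℕ} {A : MvPolynomial (Fin (N + 1)) ℂ} (hA : IsForm A) (hA0 : A ≠ 0)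
    {L : Type} [Field L] [Algebra ℂ L] {w : ℕ} {y : Fin (N + 1) → L}
    (hy : Gen L w y) (hyA : aeval y A = 0) : w < N := by
  obtain ⟨a, ha⟩ : ∃ a, y a ≠ 0 := by
    by_contra hcon
    push Not at hcon
    exact hy.ne (funext hcon)
  obtain ⟨e, he⟩ := hA
  obtain ⟨u, hu⟩ : ∃ u : Fin (N + 1) → L, u = fun j => y j / y a := ⟨_, rfl⟩
  have hu' : u = (y a)⁻¹ • y := by
    rw [hu]
    funext j
    rw [Pi.smul_apply, smul_eq_mul, div_eq_inv_mul]
  have hua : u a = 1 := by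
    rw [hu]
    exact div_self ha
  have huA : aeval u A = 0 := by
    rw [hu', aeval_zero_of ⟨e, he⟩ (inv_ne_zero ha)]
    exact hyA
  have h1 : Algebra.trdeg ℂ (Algebra.adjoin ℂ (Set.range u)) = (w : Cardinal) := by
    rw [← comp_trdeg, hu, ← coords_affine _ a ha, hy.gen]
    rw [(IntermediateField.topEquiv (F := ℂ) (E := L)).trdeg_eq, hy.dim]
  have h2 := cone_trdeg (K := ℂ) u a hua
  rw [h1] at h2
  -- the coordinate ring of the cone
  obtain ⟨v, hv⟩ : ∃ v : Fin (N + 1) → Polynomial L, v = fun j =>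
    (Polynomial.C (u j) * Polynomial.X : Polynomial L) := ⟨_, rfl⟩
  rw [← hv] at h2
  have hsur : Function.Surjective (aeval (Pool.Agent.H911.QR.hatc ℂ v) :
      MvPolynomial (Fin (N + 1)) ℂ →ₐ[ℂ] Algebra.adjoin ℂ (Set.range v)) := by
    rw [← AlgHom.range_eq_top, ← Algebra.adjoin_range_eq_range_aeval,
      Pool.Agent.H911.QR.hatc_adjoin]
  by_contra hcon
  have h3 := surj_inj _ hsur (by rw [trdeg_pol]; exact Cardinal.natCast_lt_aleph0) (by
    rw [trdeg_pol]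
    refine le_trans ?_ h2
    have : N + 1 ≤ w + 1 := by omega
    exact_mod_cast this)
  apply hA0
  apply h3
  rw [map_zero]
  apply Subtype.ext
  rw [Pool.Agent.H911.QR.hatc_aeval, hv, cone_eval u he, huA, map_zero, zero_mul]
  rfl

theorem smooth_ne {N : ℕ} {A : MvPolynomial (Fin (N + 1)) ℂ} (hA : SmoothForm A) : A ≠ 0 := by
  intro h
  obtain ⟨j, hj⟩ := hA (fun _ => 1) (by
    intro h2
    exact one_ne_zero (congrFun h2 0))
  apply hj
  rw [h, map_zero, map_zero]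

/-! ### from varieties to hypersurfaces -/

section

variable {P : ∀ n : ℕ, Set (MvPolynomial (Fin (n + 1)) ℂ) →
    Set (MvPolynomial (Fin (n + 1)) ℂ) → MvPolynomial (Fin (n + 1)) ℂ → Prop} (hP : Typ P)
  {N k : ℕ} (hN : N ≤ k + 1) {A : MvPolynomial (Fin (N + 1)) ℂ} (hA : IsForm A) (hA0 : A ≠ 0)
  {T : Set (MvPolynomial (Fin (N + 1)) ℂ)}
include hP hN hA hA0

/-- if the exceptional sets `P` of all subvarieties of log general type are proper subsets, then no
component of the exceptional set of the hypersurface is of log general type -/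
theorem forward_imp
    (h : ∀ (L : Type) [Field L] [Algebra ℂ L] (w : ℕ) (y : Fin (N + 1) → L), 1 ≤ w → w ≤ k →
      Gen L w y → NotIn T y → LogGeneral T L w y → ∃ G, IsForm G ∧ aeval y G ≠ 0 ∧
        P N (Eqs y) T G)
    (L : Type) [Field L] [Algebra ℂ L] (w : ℕ) (y : Fin (N + 1) → L) (hw : 1 ≤ w)
    (hy : SubVar (fun _ : Unit => A) L w y) (hyT : NotIn T y) (hlog : LogGeneral T L w y) :
    ¬ Component (P N {A} T) y := by
  intro hc
  have hgen : Gen L w y := ⟨hy.ne, hy.gen, hy.dim⟩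
  have hlt := dim_lt hA hA0 hgen (hy.mem ())
  obtain ⟨G, hG, hGy, hPG⟩ := h L w y hw (by omega) hgen hyT hlog
  exact typ_con hP hc hG hGy hPG

variable (hT : ∀ F ∈ T, IsForm F)
  (h : ∀ (L : Type) [Field L] [Algebra ℂ L] (w : ℕ) (y : Fin (N + 1) → L), 1 ≤ w → w ≤ k →
    Gen L w y → NotIn T y → (LogGeneral T L w y ↔ ∃ G, IsForm G ∧ aeval y G ≠ 0 ∧
      P N (Eqs y) T G))
include hT h

/-- the special set of a subvariety -/
theorem forward_special {L : Type} [Field L] [Algebra ℂ L] {w : ℕ} {y : Fin (N + 1) → L}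
    (hyA : aeval y A = 0) {G : MvPolynomial (Fin (N + 1)) ℂ} (hG : IsForm G)
    (hPG : P N (Eqs y) T G) : OnSpecialQ (Eqs y) T G := by
  intro L' _ _ w' y' hw' hsub hnot'
  by_cases h0 : aeval y' G = 0
  · exact Or.inr h0
  left
  have hgen' : Gen L' w' y' := ⟨hsub.ne, hsub.gen, hsub.dim⟩
  have hlt := dim_lt hA hA0 hgen' (hsub.mem ⟨A, hA, hyA⟩)
  refine (h L' w' y' hw' (by omega) hgen' hnot').2 ⟨G, hG, h0, ?_⟩
  exact hP.mono N (Eqs y) (Eqs y') T (fun L'' _ _ x hx => qf_eqs (qf_eqsForm y)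
    (fun p hp => hsub.mem ⟨p, hp⟩) L'' x hx) G hPG

theorem forward_eq (G : MvPolynomial (Fin (N + 1)) ℂ) (hG : IsForm G) :
    P N {A} T G ↔ OnSpecialQ {A} T G := by
  have hS : ∀ p ∈ ({A} : Set (MvPolynomial (Fin (N + 1)) ℂ)), IsForm p := by
    intro p hp
    rw [Set.mem_singleton_iff] at hp
    rw [hp]
    exact hA
  constructor
  · refine typ_deg (I := P) (J := fun _ S T G => OnSpecialQ S T G) hP typ_special ?_ G hG
    intro e G hG he hPG
    by_contra hn
    obtain ⟨L, iF, iA, w, y, hw, hgen, hGy, hnot, hSy, hc⟩ :=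
      typ_comp (J := fun _ S T G => OnSpecialQ S T G) typ_special hS hT hG he hn
    have h1 : P N (Eqs y) T G := hP.mono N {A} (Eqs y) T
      (fun L' _ _ x hx => qf_eqs hS hSy L' x hx) G hPG
    exact typ_con (J := fun _ S T G => OnSpecialQ S T G) typ_special hc ⟨e, hG⟩ hGy
      (forward_special hP hN hA hA0 hT h (w := w) (hSy A rfl) ⟨e, hG⟩ h1)
  · refine typ_deg (I := fun _ S T G => OnSpecialQ S T G) (J := P) typ_special hP ?_ G hG
    intro e G hG he hSG
    by_contra hn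
    obtain ⟨L, iF, iA, w, y, hw, hgen, hGy, hnot, hSy, hc⟩ := typ_comp hP hS hT hG he hn
    have hlt := dim_lt hA hA0 hgen (hSy A rfl)
    have h1 : LogGeneral T L w y := by
      rcases hSG L w y hw ⟨hgen.ne, fun p => hSy p.1 p.2, hgen.gen, hgen.dim⟩ hnot with h2 | h2
      · exact h2
      · exact absurd h2 hGy
    obtain ⟨G', hG', hG'y, hPG'⟩ := (h L w y hw (by omega) hgen hnot).1 h1
    exact typ_con hP hc hG' hG'y hPG'

theorem forward_no (L : Type) [Field L] [Algebra ℂ L] (w : ℕ) (y : Fin (N + 1) → L) (hw : 1 ≤ w)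
    (hy : SubVar (fun _ : Unit => A) L w y) (hyT : NotIn T y) (hlog : LogGeneral T L w y) :
    ¬ Component (OnSpecialQ {A} T) y := by
  intro hc
  have hgen : Gen L w y := ⟨hy.ne, hy.gen, hy.dim⟩
  have hlt := dim_lt hA hA0 hgen (hy.mem ())
  obtain ⟨G, hG, hGy, hPG⟩ := (h L w y hw (by omega) hgen hyT).1 hlog
  exact typ_con (J := fun _ S T G => OnSpecialQ S T G) typ_special hc hG hGy
    (forward_special hP hN hA hA0 hT h (w := w) (hy.mem ()) hG hPG)

end

/-! ### from hypersurfaces to varieties -/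

section

variable {N : ℕ} {A : MvPolynomial (Fin (N + 1)) ℂ} {L : Type} [Field L] [Algebra ℂ L] {w : ℕ}
  {z : Fin (N + 1) → L} (hw : 1 ≤ w) (hz : Gen L w z) (hA : Prop4 z A)
  {T : Set (MvPolynomial (Fin (N + 1)) ℂ)} (hzT : NotIn T z)
include hw hz hA hzT

omit hw hz hzT in
theorem base_special {F : MvPolynomial (Fin (N + 1)) ℂ} (hF : F ∈ Eqs z) :
    OnSpecialQ {A} T F := by
  intro L' _ _ w' y' hw' hy' _
  rcases hA.sub L' w' y' hw' ⟨hy'.ne, fun _ => hy'.mem ⟨A, rfl⟩, hy'.gen, hy'.dim⟩ with h1 | h1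
  · exact Or.inl (ce_general h1 _)
  · exact Or.inr (h1 F hF)

omit hw hz hzT in
theorem base_curves {F : MvPolynomial (Fin (N + 1)) ℂ} (hF : F ∈ Eqs z) :
    OnCurvesQ {A} T F := by
  intro f hf hf0 hfA _
  rcases hA.curves f hf hf0 (fun w => hfA w A rfl) with h1 | h1
  · exact Or.inl h1
  · exact Or.inr fun w => h1 w F hF

omit hw hz hzT in
theorem base_discs {F : MvPolynomial (Fin (N + 1)) ℂ} (hF : F ∈ Eqs z) :
    OnDiscsQ {A} T F := by
  intro f hf hf0 hS
  have h2 := disc_eqs (S := {A}) (fun p hp => by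
    rw [Set.mem_singleton_iff] at hp
    rw [hp]
    exact hA.form) hf hS
  rcases hA.discs f hf hf0 (fun w hw => h2 w hw A rfl) with h1 | h1
  · exact Or.inl h1
  · exact Or.inr fun w hw => h1 w hw F hF

omit hw in
theorem comp_sub {L' : Type} [Field L'] [Algebra ℂ L'] {w' : ℕ} {y' : Fin (N + 1) → L'}
    (hT : ∀ F ∈ T, IsForm F) (hcl : ∀ G, IsForm G → aeval y' G = 0 → aeval z G = 0) :
    NotIn T y' := by
  obtain ⟨H, hH, hH0⟩ := hzT
  exact ⟨H, hH, fun h0 => hH0 (hcl H (hT H hH) h0)⟩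

/-- if no component of the exceptional set `I` of the hypersurface is of log general type, then it does
not contain the variety -/
theorem backward_ideal (hT : ∀ F ∈ T, IsForm F) (I : MvPolynomial (Fin (N + 1)) ℂ → Prop)
    (hI : Idl I) (hIA : I A)
    (hno : ∀ (L' : Type) [Field L'] [Algebra ℂ L'] (w' : ℕ) (y' : Fin (N + 1) → L'), 1 ≤ w' →
      SubVar (fun _ : Unit => A) L' w' y' → NotIn T y' → LogGeneral T L' w' y' → ¬ Component I y')
    (hlog : LogGeneral T L w z) : ∃ G, IsForm G ∧ I G ∧ aeval z G ≠ 0 := by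
  by_contra hcon
  push Not at hcon
  have hzA : aeval z A = 0 := hA.van L z fun p hp => hp.2
  rcases t_comp N I hI L w z hz (fun G hG hIG => hcon G hG hIG) with ⟨H, hH, hH0, hHI⟩ |
    ⟨L', iF, iA, w', y', hgen, hw', hI', hcl, ⟨G, hG, hG0, hG1⟩, hcomp⟩
  · exact hno L w z hw ⟨hz.ne, fun _ => hzA, hz.gen, hz.dim⟩ hzT hlog
      ⟨fun G hG hIG => hcon G hG hIG, H, hH, hH0, hHI⟩
  · have hsub : SubVar (fun _ : Unit => A) L' w' y' :=
      ⟨hgen.ne, fun _ => hI' A hA.form hIA, hgen.gen, hgen.dim⟩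
    have hco : Component I y' := ⟨hI', hcomp⟩
    rcases hA.sub L' w' y' hw' hsub with h | h
    · exact hno L' w' y' hw' hsub (comp_sub hz hA hzT hT hcl (w' := w')) (ce_general h _) hco
    · exact hG1 (h G ⟨hG, hG0⟩)

variable {P : ∀ n : ℕ, Set (MvPolynomial (Fin (n + 1)) ℂ) →
    Set (MvPolynomial (Fin (n + 1)) ℂ) → MvPolynomial (Fin (n + 1)) ℂ → Prop} (hP : Typ P)
  (hT : ∀ F ∈ T, IsForm F)
include hP hT

/-- one direction for the exceptional sets `P` -/
theorem backward_imp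
    (hno : ∀ (L' : Type) [Field L'] [Algebra ℂ L'] (w' : ℕ) (y' : Fin (N + 1) → L'), 1 ≤ w' →
      SubVar (fun _ : Unit => A) L' w' y' → NotIn T y' → LogGeneral T L' w' y' →
      ¬ Component (P N {A} T) y')
    (hlog : LogGeneral T L w z) : ∃ G, IsForm G ∧ aeval z G ≠ 0 ∧ P N (Eqs z) T G := by
  obtain ⟨G, hG, hIG, hGz⟩ := backward_ideal hw hz hA hzT hT (P N {A} T) (hP.idl N {A} T)
    (hP.van N {A} T A hA.form fun L _ _ x hx => hx A rfl) hno hlog
  refine ⟨G, hG, hGz, hP.mono N {A} (Eqs z) T (fun L' _ _ x hx p hp => ?_) G hIG⟩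
  rw [Set.mem_singleton_iff] at hp
  rw [hp]
  exact hA.van L' x hx

/-- both directions -/
theorem backward_iff
    (hEx : ∀ G, IsForm G → (P N {A} T G ↔ OnSpecialQ {A} T G))
    (hno : ∀ (L' : Type) [Field L'] [Algebra ℂ L'] (w' : ℕ) (y' : Fin (N + 1) → L'), 1 ≤ w' →
      SubVar (fun _ : Unit => A) L' w' y' → NotIn T y' → LogGeneral T L' w' y' →
      ¬ Component (OnSpecialQ {A} T) y') :
    LogGeneral T L w z ↔ ∃ G, IsForm G ∧ aeval z G ≠ 0 ∧ P N (Eqs z) T G := by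
  have hzA : aeval z A = 0 := hA.van L z fun p hp => hp.2
  constructor
  · intro hlog
    obtain ⟨G, hG, hIG, hGz⟩ := backward_ideal hw hz hA hzT hT (OnSpecialQ {A} T)
      (typ_special.idl N {A} T)
      (typ_special.van N {A} T A hA.form fun L _ _ x hx => hx A rfl) hno hlog
    refine ⟨G, hG, hGz, hP.mono N {A} (Eqs z) T (fun L' _ _ x hx p hp => ?_) G
      ((hEx G hG).2 hIG)⟩
    rw [Set.mem_singleton_iff] at hp
    rw [hp]
    exact hA.van L' x hx
  · rintro ⟨G, hG, hGz, hPG⟩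
    have h1 : P N {A} T (G * 1) := by
      refine hP.restr N {A} T L z G 1 hG ⟨0, isHomogeneous_one _ _⟩ (fun F hF hFz => ?_) hPG
      rw [mul_one]
      exact (hEx F hF).2 (base_special hA ⟨hF, hFz⟩)
    rw [mul_one] at h1
    have h2 := (hEx G hG).1 h1
    rcases h2 L w z hw ⟨hz.ne, fun p => by
      have h3 := p.2
      rw [Set.mem_singleton_iff] at h3
      rw [h3]
      exact hzA, hz.gen, hz.dim⟩ hzT with h3 | h3
    · exact h3
    · exact absurd h3 hGz

end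

end Pool.Agent.H911.GD
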