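import Pool.Agent.H911.GD.Gen
import Pool.Agent.H911.QD.Pull
import Pool.Graph.R_pool_sql_team_seeded_63374d34.N254.SQ.Red

/-!
A projective variety in a linear subspace of large codimension, as a base locus.
-/

set_option autoImplicit false

namespace Pool.Agent.H911.GD

open MvPolynomial
open Pool.Agent.N254.SQ (Eqs IsForm aeval_zero_of aeval_scale Gen reduce)
open Pool.Agent.H911.QD (emb emb_inj emb_surj emb_val range_eq card_gt exists_deriv ext_apply
  coords_affine ext_smul)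
open Pool.Agent.H911.QR (homb homb_hom homb_eval)

/-- the equations of the base locus -/
noncomputable def bqs {κ : Type} {n N : ℕ} (h : n ≤ N) (e : ℕ)
    (F : κ → MvPolynomial (Fin (n + 1)) ℂ) :
    κ ⊕ ({i : Fin (N + 1) // n < (i : ℕ)} × Fin (N + 1)) → MvPolynomial (Fin (N + 1)) ℂ
  | Sum.inl k => rename (emb h) (F k)
  | Sum.inr p => X p.1.1 * X p.2 ^ (e - 1)

section

variable {κ : Type} {n N : ℕ} (h : n ≤ N) {e : ℕ} {F : κ → MvPolynomial (Fin (n + 1)) ℂ}

theorem bqs_hom (he : 1 ≤ e) (hF : ∀ k, (F k).IsHomogeneous e) (i) :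
    (bqs h e F i).IsHomogeneous e := by
  rcases i with k | ⟨i, j⟩
  · exact (hF k).rename_isHomogeneous
  · have h1 := (isHomogeneous_X ℂ i.1).mul ((isHomogeneous_X ℂ j).pow (e - 1))
    have h2 : 1 + 1 * (e - 1) = e := by omega
    rwa [h2] at h1

theorem bqs_zero {Ω : Type} [Field Ω] [Algebra ℂ Ω] (x : Fin (N + 1) → Ω) (hx : x ≠ 0)
    (hq : ∀ i, aeval x (bqs h e F i) = 0) :
    (∀ i : Fin (N + 1), n < (i : ℕ) → x i = 0) ∧
      ∀ k, aeval (fun j => x (emb h j)) (F k) = 0 := by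
  constructor
  · intro i hi
    obtain ⟨a, ha⟩ : ∃ a, x a ≠ 0 := by
      by_contra hcon
      push Not at hcon
      exact hx (funext hcon)
    have h1 := hq (Sum.inr (⟨i, hi⟩, a))
    change aeval x (X i * X a ^ (e - 1)) = 0 at h1
    rw [map_mul, map_pow, aeval_X, aeval_X] at h1
    rcases mul_eq_zero.1 h1 with h2 | h2
    · exact h2
    · exact absurd h2 (pow_ne_zero _ ha)
  · intro k
    have h1 := hq (Sum.inl k)
    change aeval x (rename (emb h) (F k)) = 0 at h1
    rw [aeval_rename] at h1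
    exact h1

theorem bqs_of {Ω : Type} [Field Ω] [Algebra ℂ Ω] (x : Fin (N + 1) → Ω)
    (h1 : ∀ i : Fin (N + 1), n < (i : ℕ) → x i = 0)
    (h2 : ∀ k, aeval (fun j => x (emb h j)) (F k) = 0) (i) :
    aeval x (bqs h e F i) = 0 := by
  rcases i with k | ⟨i, j⟩
  · change aeval x (rename (emb h) (F k)) = 0
    rw [aeval_rename]
    exact h2 k
  · change aeval x (X i.1 * X j ^ (e - 1)) = 0
    rw [map_mul, aeval_X, h1 i.1 i.2, zero_mul]

/-- the Jacobian matrix -/
noncomputable def jacs {Ω : Type} [Field Ω] [Algebra ℂ Ω] (e : ℕ)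
    (F : κ → MvPolynomial (Fin (n + 1)) ℂ) (x : Fin (N + 1) → Ω) :
    Matrix (κ ⊕ ({i : Fin (N + 1) // n < (i : ℕ)} × Fin (N + 1))) (Fin (N + 1)) Ω :=
  Matrix.of fun i j => (aeval x (pderiv j (bqs h e F i)) : Ω)

theorem jacs_inr {Ω : Type} [Field Ω] [Algebra ℂ Ω] (x : Fin (N + 1) → Ω) (a : Fin (N + 1))
    (ha : x a = 1) (h1 : ∀ i : Fin (N + 1), n < (i : ℕ) → x i = 0)
    (i : {i : Fin (N + 1) // n < (i : ℕ)}) (j : Fin (N + 1)) :
    jacs h e F x (Sum.inr (i, a)) j = if i.1 = j then 1 else 0 := by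
  change aeval x (pderiv j (X i.1 * X a ^ (e - 1))) = _
  rw [pderiv_mul, map_add, map_mul, map_mul, map_pow, aeval_X, aeval_X, ha, one_pow, mul_one,
    h1 i.1 i.2, zero_mul, add_zero, pderiv_X, Pi.single_apply]
  by_cases hj : i.1 = j
  · subst hj
    simp
  · rw [if_neg hj, if_neg (fun h2 => hj h2), map_zero]

theorem jacs_inl {Ω : Type} [Field Ω] [Algebra ℂ Ω] (x : Fin (N + 1) → Ω) (k : κ)
    (j : Fin (n + 1)) :
    jacs h e F x (Sum.inl k) (emb h j) = aeval (fun j => x (emb h j)) (pderiv j (F k)) := by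
  change aeval x (pderiv (emb h j) (rename (emb h) (F k))) = _
  rw [pderiv_rename (emb_inj h), aeval_rename]
  rfl

theorem jacs_inl0 {Ω : Type} [Field Ω] [Algebra ℂ Ω] (x : Fin (N + 1) → Ω) (k : κ)
    (j : Fin (N + 1)) (hj : n < (j : ℕ)) :
    jacs h e F x (Sum.inl k) j = 0 := by
  change aeval x (pderiv j (rename (emb h) (F k))) = _
  rw [pderiv_eq_zero_of_notMem_vars, map_zero]
  intro h1
  have h2 := vars_rename (emb h) (F k) h1
  rw [Finset.mem_image] at h2
  obtain ⟨b, -, hb⟩ := h2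
  rw [← hb, emb_val] at hj
  have := b.2
  omega

/-- the rank is at least the codimension of the linear subspace -/
theorem jacs_rank [Fintype κ] {Ω : Type} [Field Ω] [Algebra ℂ Ω] (x : Fin (N + 1) → Ω)
    (a : Fin (N + 1)) (ha : x a = 1) (h1 : ∀ i : Fin (N + 1), n < (i : ℕ) → x i = 0) :
    N - n ≤ (jacs h e F x).rank := by
  classical
  have h2 : ((jacs h e F x).submatrix (fun i : {i : Fin (N + 1) // n < (i : ℕ)} => Sum.inr (i, a))
      (fun i : {i : Fin (N + 1) // n < (i : ℕ)} => i.1)) = 1 := by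
    ext i j
    rw [Matrix.submatrix_apply, jacs_inr h x a ha h1, Matrix.one_apply]
    by_cases hij : i = j
    · rw [if_pos hij, if_pos (by rw [hij])]
    · rw [if_neg hij, if_neg (fun h3 => hij (Subtype.ext h3))]
  have h3 := Matrix.rank_submatrix_le (jacs h e F x)
    (fun i : {i : Fin (N + 1) // n < (i : ℕ)} => Sum.inr (i, a))
    (fun i : {i : Fin (N + 1) // n < (i : ℕ)} => i.1)
  rw [h2, Matrix.rank_one, card_gt] at h3
  exact h3

/-- at a smooth point of one of the hypersurfaces the rank is larger -/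
theorem jacs_rank2 [Fintype κ] {Ω : Type} [Field Ω] [Algebra ℂ Ω] (x : Fin (N + 1) → Ω)
    (a : Fin (N + 1)) (ha : x a = 1) (h1 : ∀ i : Fin (N + 1), n < (i : ℕ) → x i = 0) (k₀ : κ)
    (j₀ : Fin (n + 1)) (hj : aeval (fun j => x (emb h j)) (pderiv j₀ (F k₀)) ≠ 0) :
    N - n + 1 ≤ (jacs h e F x).rank := by
  classical
  obtain ⟨r, hr⟩ : ∃ r : Option {i : Fin (N + 1) // n < (i : ℕ)} →
      κ ⊕ ({i : Fin (N + 1) // n < (i : ℕ)} × Fin (N + 1)), r = fun o =>
        o.elim (Sum.inl k₀) fun i => Sum.inr (i, a) := ⟨_, rfl⟩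
  obtain ⟨c, hc⟩ : ∃ c : Option {i : Fin (N + 1) // n < (i : ℕ)} → Fin (N + 1), c = fun o =>
        o.elim (emb h j₀) fun i => i.1 := ⟨_, rfl⟩
  obtain ⟨v, hv⟩ : ∃ v : Option {i : Fin (N + 1) // n < (i : ℕ)} → Ω, v = fun o =>
        o.elim (aeval (fun j => x (emb h j)) (pderiv j₀ (F k₀))) fun _ => 1 := ⟨_, rfl⟩
  have h2 : (jacs h e F x).submatrix r c = Matrix.diagonal v := by
    ext i j
    rw [Matrix.submatrix_apply, Matrix.diagonal_apply, hr, hc, hv]
    rcases i with _ | i <;> rcases j with _ | j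
    · simp only [Option.elim_none]
      rw [jacs_inl, if_pos trivial]
    · simp only [Option.elim_none, Option.elim_some]
      rw [jacs_inl0 h x _ _ j.2, if_neg (by simp)]
    · simp only [Option.elim_none, Option.elim_some]
      rw [jacs_inr h x a ha h1, if_neg, if_neg (by simp)]
      intro h3
      have h4 := i.2
      rw [h3, emb_val] at h4
      have := j₀.2
      omega
    · simp only [Option.elim_some]
      rw [jacs_inr h x a ha h1]
      by_cases hij : i = j
      · rw [if_pos (by rw [hij]), if_pos (by rw [hij])]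
      · rw [if_neg (fun h3 => hij (Subtype.ext h3)), if_neg (fun h3 => hij (Option.some.inj h3))]
  have h3 := Matrix.rank_submatrix_le (jacs h e F x) r c
  rw [h2, Matrix.rank_diagonal] at h3
  have h4 : Fintype.card {i // v i ≠ 0} = N - n + 1 := by
    have h5 : ∀ i, v i ≠ 0 := by
      rintro (_ | i)
      · rw [hv]
        exact hj
      · rw [hv]
        exact one_ne_zero
    rw [Fintype.card_congr (Equiv.subtypeUnivEquiv h5), Fintype.card_option, card_gt]
  rw [h4] at h3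
  exact h3

/-- the pointwise condition -/
theorem bases_pt [Fintype κ] {L : Type} [Field L] [Algebra ℂ L] {w : ℕ} {z : Fin (n + 1) → L}
    (hz : Gen L w z) (hN : n + w ≤ N)
    (hV : ∀ (Ω : Type) [Field Ω] [Algebra ℂ Ω] (x : Fin (n + 1) → Ω),
      (∀ k, aeval x (F k) = 0) → ∀ p ∈ Eqs z, aeval x p = 0)
    (hF : ∀ k, (F k).IsHomogeneous e)
    (hd : ∃ k i, aeval z (pderiv i (F k)) ≠ 0) (Ω : Type) [Field Ω] [Algebra ℂ Ω]
    (x : Fin (N + 1) → Ω) (a : Fin (N + 1)) (ha : x a = 1)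
    (hq : ∀ i, aeval x (bqs h e F i) = 0) :
    Algebra.trdeg ℂ (Algebra.adjoin ℂ (Set.range x)) <
      (((Matrix.of fun i j => (aeval x (pderiv j (bqs h e F i)) : Ω)).rank : ℕ) : Cardinal) := by
  have hx0 : x ≠ 0 := by
    intro h1
    rw [h1] at ha
    exact zero_ne_one ha
  obtain ⟨h1, h2⟩ := bqs_zero h x hx0 hq
  rw [range_eq h x h1]
  obtain ⟨b, hb⟩ := emb_surj h a (by
    by_contra hcon
    push Not at hcon
    rw [h1 a hcon] at ha
    exact zero_ne_one ha)
  have hb1 : x (emb h b) = 1 := by rw [hb, ha]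
  have hE := hV Ω _ h2
  change _ < (((jacs h e F x).rank : ℕ) : Cardinal)
  obtain ⟨k, i, hki⟩ := hd
  by_cases hki' : aeval (fun j => x (emb h j)) (pderiv i (F k)) = 0
  · have h3 := pt_trdeg_lt hz b (fun j => x (emb h j)) hb1 hE
      ⟨_, (hF k).pderiv⟩ hki hki'
    have h4 := jacs_rank (e := e) (F := F) h x a ha h1
    refine h3.trans_le ?_
    have h5 : w ≤ (jacs h e F x).rank := by omega
    exact_mod_cast h5
  · have h3 := pt_trdeg hz b (fun j => x (emb h j)) hb1 hE
    have h4 := jacs_rank2 (e := e) h x a ha h1 k i hki'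
    refine h3.trans_lt ?_
    have h5 : w < (jacs h e F x).rank := by omega
    exact_mod_cast h5

end

/-- the equations of a variety -/
theorem exists_eqs {M : ℕ} {L : Type} [Field L] [Algebra ℂ L] {w : ℕ} {z : Fin (M + 1) → L}
    (hz : Gen L w z) (hwM : w < M) : ∃ (e : ℕ) (κ : Type) (_ : Fintype κ)
      (F : κ → MvPolynomial (Fin (M + 1)) ℂ), 1 ≤ e ∧ (∀ k, (F k).IsHomogeneous e) ∧
      (∀ k, aeval z (F k) = 0) ∧
      (∀ (Ω : Type) [Field Ω] [Algebra ℂ Ω] (x : Fin (M + 1) → Ω), (∀ k, aeval x (F k) = 0) →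
        ∀ p ∈ Eqs z, aeval x p = 0) ∧ ∃ k i, aeval z (pderiv i (F k)) ≠ 0 := by
  classical
  obtain ⟨b, hb⟩ : ∃ b, z b ≠ 0 := by
    by_contra hcon
    push Not at hcon
    exact hz.ne (funext hcon)
  obtain ⟨z1, hz1⟩ : ∃ z1 : Fin (M + 1) → L, z1 = (z b)⁻¹ • z := ⟨_, rfl⟩
  have hz1b : z1 b = 1 := by
    rw [hz1, Pi.smul_apply, smul_eq_mul, inv_mul_cancel₀ hb]
  -- a nonzero form
  have hvdep : ¬ AlgebraicIndependent ℂ (fun i => z1 (b.succAbove i)) := by
    intro h1
    have h3 := h1.cardinalMk_le_trdeg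
    rw [Cardinal.mk_fin, hz.dim] at h3
    have : M ≤ w := by exact_mod_cast h3
    omega
  rw [algebraicIndependent_iff] at hvdep
  push Not at hvdep
  obtain ⟨P, hP, hP0⟩ := hvdep
  have hzero : ∀ F : MvPolynomial (Fin (M + 1)) ℂ, IsForm F → (aeval z1 F = 0 ↔ aeval z F = 0) := by
    intro F hF
    rw [hz1]
    exact aeval_zero_of hF (inv_ne_zero hb) z
  have hex : ∃ d : ℕ, ∃ F : MvPolynomial (Fin (M + 1)) ℂ, F ≠ 0 ∧ F.IsHomogeneous d ∧
      aeval z F = 0 := by
    refine ⟨_, homb b (rename b.succAbove P), ?_, homb_hom _ _, ?_⟩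
    · intro h
      have h1 := homb_eval (R := ℂ) (A := MvPolynomial (Fin M) ℂ) (b := b)
        (b.insertNth 1 X) (by rw [Fin.insertNth_apply_same]) (rename b.succAbove P)
      rw [h, map_zero, aeval_rename] at h1
      have h2 : ((b.insertNth 1 X : Fin (M + 1) → MvPolynomial (Fin M) ℂ) ∘ b.succAbove) = X := by
        funext i
        rw [Function.comp_apply, Fin.insertNth_apply_succAbove]
      rw [h2, aeval_X_left, AlgHom.id_apply] at h1
      exact hP0 h1.symm
    · rw [← hzero _ ⟨_, homb_hom _ _⟩, homb_eval z1 hz1b, aeval_rename]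
      exact hP
  obtain ⟨F₀, hF0, hF, hFz⟩ := Nat.find_spec hex
  have hmin : ∀ d' < Nat.find hex, ∀ G : MvPolynomial (Fin (M + 1)) ℂ, G.IsHomogeneous d' →
      aeval z G = 0 → G = 0 := by
    intro d' hd' G hG hGz
    by_contra hG0
    exact Nat.find_min hex hd' ⟨G, hG0, hG, hGz⟩
  obtain ⟨d, hd⟩ : ∃ d, d = Nat.find hex := ⟨_, rfl⟩
  rw [← hd] at hF hmin
  have hd1 : 1 ≤ d := by
    by_contra hcon
    have h0 : d = 0 := by omega
    rw [h0] at hF
    have h1 := hF.totalDegree hF0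
    rw [totalDegree_eq_zero_iff_eq_C] at h1
    rw [h1, aeval_C] at hFz
    have h2 := (map_eq_zero _).1 hFz
    rw [h2, C_0] at h1
    exact hF0 h1
  obtain ⟨i, hi⟩ := exists_deriv (K := ℂ) hd1 hF hF0
  have hiz : aeval z (pderiv i F₀) ≠ 0 := by
    intro h
    exact hi (hmin (d - 1) (by omega) _ hF.pderiv h)
  -- all equations
  obtain ⟨T, hT, hTS⟩ := reduce (Eqs z)
  obtain ⟨T', hT'⟩ : ∃ T' : Finset (MvPolynomial (Fin (M + 1)) ℂ), T' = insert F₀ T := ⟨_, rfl⟩
  have hT'E : ∀ p ∈ T', p ∈ Eqs z := by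
    intro p hp
    rw [hT', Finset.mem_insert] at hp
    rcases hp with rfl | hp
    · exact ⟨⟨d, hF⟩, hFz⟩
    · exact hT hp
  obtain ⟨g, hg⟩ : ∃ g : T' → ℕ, ∀ p : T', (p : MvPolynomial (Fin (M + 1)) ℂ).IsHomogeneous (g p) :=
    ⟨fun p => (hT'E p p.2).1.choose, fun p => (hT'E p p.2).1.choose_spec⟩
  obtain ⟨e, he1, he⟩ : ∃ e, 1 ≤ e ∧ ∀ p, g p ≤ e := by
    refine ⟨1 + ∑ p, g p, Nat.le_add_right _ _, fun p => ?_⟩
    have h2 := Finset.single_le_sum (f := g) (fun i _ => Nat.zero_le _) (Finset.mem_univ p)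
    omega
  refine ⟨e, T' × Fin (M + 1), inferInstance,
    fun k => (k.1 : MvPolynomial (Fin (M + 1)) ℂ) * X k.2 ^ (e - g k.1), he1, ?_, ?_, ?_, ?_⟩
  · rintro ⟨p, j⟩
    have h1 := (hg p).mul ((isHomogeneous_X ℂ j).pow (e - g p))
    have h2 : g p + 1 * (e - g p) = e := by
      have := he p
      omega
    rwa [h2] at h1
  · rintro ⟨p, j⟩
    rw [map_mul, (hT'E p p.2).2, zero_mul]
  · intro Ω _ _ x hx p hp
    by_cases hx0 : x = 0
    · -- all forms in the ideal of the point have positive degree or are zero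
      obtain ⟨⟨c, hc⟩, hpz⟩ := hp
      rw [hx0]
      rcases Nat.eq_zero_or_pos c with h0 | h0
      · rw [h0] at hc
        have h1 : p = C (coeff 0 p) := by
          rw [← totalDegree_eq_zero_iff_eq_C]
          by_cases hp0 : p = 0
          · rw [hp0, totalDegree_zero]
          · exact hc.totalDegree hp0
        rw [h1, aeval_C] at hpz
        have h2 := (map_eq_zero _).1 hpz
        rw [h1, h2, C_0, map_zero]
      · have h1 := aeval_scale hc (0 : Ω) (0 : Fin (M + 1) → Ω)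
        rw [zero_smul, zero_pow (by omega), zero_mul] at h1
        exact h1
    · obtain ⟨a, ha⟩ : ∃ a, x a ≠ 0 := by
        by_contra hcon
        push Not at hcon
        exact hx0 (funext hcon)
      have h1 := hTS Ω (algebraMap ℂ Ω) x (fun q hq => by
        have hq' : q ∈ T' := by
          rw [hT']
          exact Finset.mem_insert_of_mem hq
        have h2 := hx (⟨q, hq'⟩, a)
        rw [map_mul, map_pow, aeval_X] at h2
        rw [eval_map]
        exact (mul_eq_zero.1 h2).resolve_right (pow_ne_zero _ ha)) p hp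
      rw [eval_map] at h1
      exact h1
  · have hmem : F₀ ∈ T' := by
      rw [hT']
      exact Finset.mem_insert_self _ _
    refine ⟨(⟨F₀, hmem⟩, b), i, ?_⟩
    simp only
    rw [pderiv_mul, map_add, map_mul, map_mul, hFz, zero_mul, add_zero, map_pow, aeval_X]
    exact mul_ne_zero hiz (pow_ne_zero _ hb)

end Pool.Agent.H911.GD
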