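import Pool.Agent.H911.GD.Asm

/-!
The final theorems for exceptional sets: from hypersurfaces to varieties and back.
-/

set_option autoImplicit false

namespace Pool.Agent.H911.GD

open MvPolynomial
open Pool.Agent.N254.SQ (Eqs IsForm aeval_zero_of aeval_scale Gen NotIn ValueNotIn LogGeneral
  OnSpecialQ OnCurvesQ OnDiscsQ SmoothForm powerForm Component)
open Pool.Agent.W602.GT (SubVar GeneralType coords)
open Pool.Agent.H911.QD (emb ext_apply)

/-- `power` forms are homogeneous -/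
theorem power_hom {N M D e : ℕ} {Q : Fin M → MvPolynomial (Fin (N + 1)) ℂ}
    (hQ : ∀ t, (Q t).IsHomogeneous e) : (powerForm D Q).IsHomogeneous (e + D) := by
  refine IsHomogeneous.sum _ _ _ fun t _ => ?_
  refine (hQ t).mul ?_
  have h1 : (∑ j : Fin (N + 1), C (((t : ℕ) : ℂ) ^ (j : ℕ)) * X j :
      MvPolynomial (Fin (N + 1)) ℂ).IsHomogeneous 1 := by
    refine IsHomogeneous.sum _ _ _ fun j _ => ?_
    have h2 := (isHomogeneous_C (Fin (N + 1)) (((t : ℕ) : ℂ) ^ (j : ℕ))).mul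
      (isHomogeneous_X ℂ j)
    rwa [zero_add] at h2
  have h2 := h1.pow D
  rwa [one_mul] at h2

/-- the exceptional sets of the hypersurface `A = 0` without `V(T)` -/
def Excep {N : ℕ} (P : ∀ n : ℕ, Set (MvPolynomial (Fin (n + 1)) ℂ) →
    Set (MvPolynomial (Fin (n + 1)) ℂ) → MvPolynomial (Fin (n + 1)) ℂ → Prop)
    (A : MvPolynomial (Fin (N + 1)) ℂ) (T : Set (MvPolynomial (Fin (N + 1)) ℂ)) : Prop :=
  (∀ G, IsForm G → (P N {A} T G ↔ OnSpecialQ {A} T G)) ∧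
    ∀ (L : Type) [Field L] [Algebra ℂ L] (w : ℕ) (y : Fin (N + 1) → L), 1 ≤ w →
      SubVar (fun _ : Unit => A) L w y → NotIn T y → LogGeneral T L w y →
        ¬ Component (OnSpecialQ {A} T) y

/-- models of varieties of dimension at most `m` in `P^N` by finite birational projections -/
def HasModels (T : ∀ n : ℕ, Set (MvPolynomial (Fin (n + 1)) ℂ)) (N m : ℕ) : Prop :=
  ∀ (n : ℕ) (L : Type) [Field L] [Algebra ℂ L] (w : ℕ) (y : Fin (n + 1) → L), w ≤ m →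
    Gen L w y → NotIn (T n) y →
    ∃ (M : ℕ) (A : Fin (M + 1) → MvPolynomial (Fin (n + 1)) ℂ), w < M ∧ M + w ≤ N ∧ Mdl y A ∧
      Compat y (QD.ext N A) (T n) (T N)

theorem models_one (m : ℕ) : HasModels (fun _ => {1}) (2 * m + 1) m := by
  intro n L _ _ w y hwm hy _
  obtain ⟨A, hA⟩ := mdl_proj hy
  exact ⟨w + 1, A, by omega, by omega, hA, compat_one y _⟩

theorem models_affine (m : ℕ) : HasModels (fun _ => {X 0}) (2 * m + 1) m := by
  intro n L _ _ w y hwm hy hyT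
  have hy0 : y 0 ≠ 0 := by
    obtain ⟨F, hF, h⟩ := hyT
    rw [Set.mem_singleton_iff] at hF
    rwa [hF, aeval_X] at h
  obtain ⟨A, hA, hA0⟩ := mdl_affine hy hy0
  refine ⟨w + 1, A, by omega, by omega, hA, compat_affine y _ ?_⟩
  have h1 : QD.ext (2 * m + 1) A (emb (show w + 1 ≤ 2 * m + 1 by omega) 0) = A 0 :=
    ext_apply (show w + 1 ≤ 2 * m + 1 by omega) A 0
  rw [hA0] at h1
  exact h1

section

variable {P : ∀ n : ℕ, Set (MvPolynomial (Fin (n + 1)) ℂ) →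
    Set (MvPolynomial (Fin (n + 1)) ℂ) → MvPolynomial (Fin (n + 1)) ℂ → Prop} (hP : Typ P)
include hP

/-- from varieties to hypersurfaces -/
theorem final_forward {N k : ℕ} (hN : N ≤ k + 1) {A : MvPolynomial (Fin (N + 1)) ℂ}
    (hA : IsForm A) (hA0 : A ≠ 0) {T : Set (MvPolynomial (Fin (N + 1)) ℂ)}
    (hT : ∀ F ∈ T, IsForm F)
    (h : ∀ (L : Type) [Field L] [Algebra ℂ L] (w : ℕ) (y : Fin (N + 1) → L), 1 ≤ w → w ≤ k →
      Gen L w y → NotIn T y → (LogGeneral T L w y ↔ ∃ G, IsForm G ∧ aeval y G ≠ 0 ∧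
        P N (Eqs y) T G)) : Excep P A T :=
  ⟨forward_eq hP hN hA hA0 hT h, forward_no hP hN hA hA0 hT h⟩

/-- from hypersurfaces to varieties -/
theorem final_backward (hM : Moves P) {T : ∀ n : ℕ, Set (MvPolynomial (Fin (n + 1)) ℂ)}
    (hT : ∀ n, ∀ F ∈ T n, IsForm F) {N m : ℕ} (hmod : HasModels T N m) {D₁ : ℕ → ℕ}
    (H : ∀ e D, 1 ≤ e → D₁ e ≤ D →
    ∀ (M : ℕ) (_ : M ≤ N) (w : ℕ) (L : Type) [Field L] [Algebra ℂ L] (z : Fin (M + 1) → L),
      Gen L w z → M + w ≤ N → ∀ (κ : Type) [Fintype κ] (F : κ → MvPolynomial (Fin (M + 1)) ℂ),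
      (∀ k, (F k).IsHomogeneous e) → (∀ k, aeval z (F k) = 0) →
      (∀ (Ω : Type) [Field Ω] [Algebra ℂ Ω] (x : Fin (M + 1) → Ω), (∀ k, aeval x (F k) = 0) →
        ∀ p ∈ Eqs z, aeval x p = 0) → (∃ k i, aeval z (pderiv i (F k)) ≠ 0) →
      ∃ Q : Fin (N * (2 * N + 1)) → MvPolynomial (Fin (N + 1)) ℂ,
        (∀ t, (Q t).IsHomogeneous e) ∧ Prop4 (QD.ext N z) (powerForm D Q))
    {E : Set ℕ} (hE : E.Infinite)
    (h : ∀ (e D : ℕ) (Q : Fin (N * (2 * N + 1)) → MvPolynomial (Fin (N + 1)) ℂ), D ∈ E →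
      D₁ e ≤ D → (∀ t, (Q t).IsHomogeneous e) → SmoothForm (powerForm D Q) →
      Excep P (powerForm D Q) (T N)) {n : ℕ} {L : Type} [Field L] [Algebra ℂ L] {w : ℕ}
    {y : Fin (n + 1) → L} (hw : 1 ≤ w) (hwm : w ≤ m) (hy : Gen L w y) (hyT : NotIn (T n) y) :
    LogGeneral (T n) L w y ↔ ∃ G, IsForm G ∧ aeval y G ≠ 0 ∧ P n (Eqs y) (T n) G := by
  obtain ⟨M, A, hwM, hMN, hA, hC⟩ := hmod n L w y hwm hy hyT
  obtain ⟨e, D, Q, z, R, K, hDE, hD, hQ, hsm, hz, hp, hPr⟩ := exists_model H hy hwM hMN hA hE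
  obtain ⟨h1, h2⟩ := h e D Q hDE hD hQ hsm
  rw [← transfer_log hPr hy.ne (hT n) (hT N) hC, ← transfer_iff hM hPr (hT n) (hT N) hC]
  exact backward_iff hw hz hp (transfer_notIn hPr hy.ne hC hyT) hP (hT N) h1 h2

end

end Pool.Agent.H911.GD
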