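import Pool.Graph.R_pool_sql_team_seeded_63374d34.N254.SQ.Main2
import Pool.Graph.R_pool_sql_team_seeded_63374d34.N254.SQ.Fin3
import Pool.Graph.R_pool_sql_team_seeded_63374d34.N254.SQ.AlgS
import Pool.Graph.R_pool_sql_team_seeded_63374d34.N254.SQ.Hineq
import Pool.Graph.R_pool_sql_team_seeded_63374d34.N254.SQ.Hblk
import Pool.Graph.R_pool_sql_team_seeded_63374d34.N254.SQ.Hform
import Pool.Agent.H911.QD.Smooth

/-!
The general hypersurface through a base locus: it is smooth, and its entire curves, its maps from the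
punctured disc which do not extend, its closed subvarieties of positive dimension which are not of
general type, and its maps from algebraic curves of large degree are in the base locus. (Adapted from the
module `N254.SQ.Main2` of the library, with a pointwise hypothesis for the smoothness.)
-/

set_option autoImplicit false

namespace Pool.Agent.H911.GD

open MvPolynomial Filter Topology FF
open Pool.Agent.N254.SQ
open Pool.Agent.H911.QD (t_smooth')
open Pool.Agent.W602.GT (SubVar GeneralType val coords)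
open Pool.Agent.W603.BP (Ext)
open Pool.Agent.W603.LV (canDeg)
open Pool.Agent.W603.PV (pht)

theorem alg_leaf : Alg_stm := t_alg (t_hblk t_hineq) t_hform

/-- The five properties of the general hypersurface. -/
theorem main_five (H : Leaves4) (n e : ℕ) (hn : 1 ≤ n) (he : 1 ≤ e) :
    ∃ D₁ : ℕ, ∀ D, D₁ ≤ D → ∀ (K : Type) [Field K] [CharZero K]
      (ι : Type) [Fintype ι] (q : ι → MvPolynomial (Fin (n + 1)) K),
      (∀ i, (q i).IsHomogeneous e) →
      (∀ (Ω : Type) [Field Ω] [Algebra K Ω] (x : Fin (n + 1) → Ω) (a : Fin (n + 1)), x a = 1 →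
        (∀ i, aeval x (q i) = 0) → Algebra.trdeg K (Algebra.adjoin K (Set.range x)) <
        (((Matrix.of fun (i : ι) (j : Fin (n + 1)) =>
          (aeval x (pderiv j (q i)) : Ω)).rank : ℕ) : Cardinal)) →
      ∃ c : Fin (n * (2 * n + 1)) × ι → K, Smooth (hyp q D c) ∧ ∀ σ : K →+* ℂ,
        (∀ f : Fin (n + 1) → ℂ → ℂ, (∀ j, Differentiable ℂ (f j)) →
          (∀ z, ∃ j, f j z ≠ 0) → (∀ z, eval (fun j => f j z) (map σ (hyp q D c)) = 0) →
          (∃ i j z w, f i z * f j w ≠ f j z * f i w) →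
          ∀ z i, eval (fun j => f j z) (map σ (q i)) = 0) ∧
        (∀ (F : Type) [Field F] [Algebra ℂ F] (w : ℕ) (y : Fin (n + 1) → F), 1 ≤ w →
          SubVar (fun _ : Unit => map σ (hyp q D c)) F w y →
          (∀ i, val y (map σ (q i)) = 0) ∨ GeneralType ℂ F w) ∧
        (∀ (R : ℝ) (f : Fin (n + 1) → ℂ → ℂ), 0 < R → (∀ j, AnalyticOnNhd ℂ (f j) (Ext R)) →
          (∀ z ∈ Ext R, eval (fun j => f j z) (map σ (hyp q D c)) = 0) →
          (∀ z ∈ Ext R, ∀ i, eval (fun j => f j z) (map σ (q i)) = 0) ∨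
          ∀ i l, (∃ z ∈ Ext R, f l z ≠ 0) → ∃ (ρ : ℂ → ℂ) (b : ℝ), MeromorphicAt ρ 0 ∧ R ≤ b ∧
            ∀ z ∈ Ext b, f i z = ρ z⁻¹ * f l z) ∧
        ∀ (E : Type) [Field E] [Algebra ℂ E] [IsFF ℂ E] (y : Fin (n + 1) → E), y ≠ 0 →
          aeval y (map σ (hyp q D c)) = 0 →
          pht ℂ y ≤ max (canDeg ℂ E) 0 ∨ ∀ i, aeval y (map σ (q i)) = 0 := by
  classical
  obtain ⟨D₁, hD₁⟩ := curves H.part H.size n e (n * (2 * n + 1))
  obtain ⟨D₂, hD₂⟩ := H.gt e (n * (2 * n + 1))
  obtain ⟨D₃, hD₃⟩ := H.pic n e (n * (2 * n + 1))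
  obtain ⟨D₄, hD₄⟩ := alg_leaf n e (n * (2 * n + 1))
  refine ⟨max D₁ D₂ + max D₃ 1 + D₄, fun D hD K _ _ ι _ q hq hr => ?_⟩
  have hDD : D₁ ≤ D := by
    have := le_max_left D₁ D₂
    omega
  have hDD2 : D₂ ≤ D := by
    have := le_max_right D₁ D₂
    omega
  have hDD3 : D₃ ≤ D := by
    have := le_max_left D₃ 1
    omega
  have hD1 : 1 ≤ D := by
    have := le_max_right D₃ 1
    omega
  have hDD4 : D₄ ≤ D := by omega
  set L := n * (2 * n + 1) with hL
  have hL2 : 2 * n + 1 ≤ L := Nat.le_mul_of_pos_left _ hn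
  obtain ⟨Δ₁, hΔ₁, hB1⟩ := H.blocks K n L D e ι q hq
  obtain ⟨Δ₂, hΔ₂, hS1⟩ := t_smooth' t_spec t_count t_td K n L D e ι q hq hD1 hL2 hr
  obtain ⟨c, hc⟩ : ∃ c : Fin L × ι → K, eval c (Δ₁ * Δ₂) ≠ 0 := by
    by_contra hcon
    push Not at hcon
    exact mul_ne_zero hΔ₁ hΔ₂ (MvPolynomial.funext fun c => by rw [hcon c, map_zero])
  rw [map_mul] at hc
  have hc1 := left_ne_zero_of_mul hc
  have hc2 := right_ne_zero_of_mul hc
  have haev : ∀ (Ω : Type) [Field Ω] (σ : K →+* Ω) (Δ : MvPolynomial (Fin L × ι) K),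
      eval c Δ ≠ 0 → eval₂ σ (fun p => σ (c p)) Δ ≠ 0 := by
    intro Ω _ σ Δ h h2
    apply h
    apply σ.injective
    rw [map_zero, ← h2]
    exact (eval₂_comp (f := σ) (g := c) Δ).trans rfl
  -- the values of the terms over an extension of `ℂ`
  have hval : ∀ (σ : K →+* ℂ) (Ω : Type) [Field Ω] (τ : ℂ →+* Ω) (x : Fin (n + 1) → Ω)
      (t : Fin L), eval₂ τ x (∑ i, C (σ (c (t, i))) * map σ (q i)) * eval₂ τ x (lin ℂ n t) ^ D =
        (∑ i, τ (σ (c (t, i))) * eval₂ (τ.comp σ) x (q i)) *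
          eval₂ (τ.comp σ) x (lin K n t) ^ D := by
    intro σ Ω _ τ x t
    rw [eval₂_sum, ← map_lin σ, eval₂_map]
    congr 1
    apply Finset.sum_congr rfl
    intro i _
    rw [eval₂_mul, eval₂_C, eval₂_map]
  have hkey : ∀ (σ : K →+* ℂ) (Ω : Type) [Field Ω] (τ : ℂ →+* Ω) (x : Fin (n + 1) → Ω)
      (𝓑 : Finset (Finset (Fin L))), x ≠ 0 → (∀ B ∈ 𝓑, B.Nonempty) →
      (∀ B ∈ 𝓑, ∀ B' ∈ 𝓑, B ≠ B' → Disjoint B B') → L ≤ n * 𝓑.card →
      (∀ B ∈ 𝓑, ∑ t ∈ B, eval₂ τ x (∑ i, C (σ (c (t, i))) * map σ (q i)) *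
        eval₂ τ x (lin ℂ n t) ^ D = 0) → ∀ i, eval₂ τ x (map σ (q i)) = 0 := by
    intro σ Ω _ τ x 𝓑 hx hne hdis hcard hvan i
    letI : Algebra K Ω := (τ.comp σ).toAlgebra
    have hcard2 : 2 * n + 1 ≤ 𝓑.card := Nat.le_of_mul_le_mul_left hcard hn
    have key := hB1 Ω (fun p => (τ.comp σ) (c p)) (haev Ω (τ.comp σ) Δ₁ hc1) 𝓑 hne hdis hcard2 x
      hx (by
        intro B hBB
        rw [← hvan B hBB]
        apply Finset.sum_congr rfl
        intro t _
        rw [hval]
        rfl) i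
    rw [eval₂_map]
    exact key
  have hsum : ∀ (σ : K →+* ℂ) (Ω : Type) [Field Ω] (τ : ℂ →+* Ω) (x : Fin (n + 1) → Ω),
      eval₂ τ x (map σ (hyp q D c)) = ∑ t : Fin L, eval₂ τ x (∑ i, C (σ (c (t, i))) *
        map σ (q i)) * eval₂ τ x (lin ℂ n t) ^ D := by
    intro σ Ω _ τ x
    rw [map_hyp, hyp, eval₂_sum]
    apply Finset.sum_congr rfl
    intro t _
    rw [eval₂_mul, eval₂_pow]
  have hhom : ∀ (σ : K →+* ℂ) (t : Fin L),
      (∑ i, C (σ (c (t, i))) * map σ (q i)).IsHomogeneous e := fun σ t =>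
    fam_hom (fun i => (hq i).map σ) _
  refine ⟨c, ?_, fun σ => ⟨?_, ?_, ?_, ?_⟩⟩
  · intro Ω _ σ x hx
    letI : Algebra K Ω := σ.toAlgebra
    obtain ⟨j, hj⟩ := hS1 Ω (fun p => σ (c p)) (haev Ω σ Δ₂ hc2) x hx
    refine ⟨j, ?_⟩
    rw [map_hyp]
    exact hj
  · intro f hf h0 hF hnc z i
    obtain ⟨𝓑, hne, hdis, hvan, hcard⟩ := hD₁ D hDD
      (fun t => ∑ i, C (σ (c (t, i))) * map σ (q i)) (hhom σ) f hf h0 (by
        intro z
        have h1 := hF z
        change eval₂ (RingHom.id ℂ) _ _ = 0 at h1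
        rw [hsum σ ℂ (RingHom.id ℂ)] at h1
        exact h1) hnc
    have hx : (fun j => f j z) ≠ (0 : Fin (n + 1) → ℂ) := by
      intro h
      obtain ⟨j, hj⟩ := h0 z
      exact hj (congrFun h j)
    exact hkey σ ℂ (RingHom.id ℂ) _ 𝓑 hx hne hdis hcard (fun B hBB => hvan B hBB z) i
  · intro F _ _ w y hw hy
    by_cases hgt : GeneralType ℂ F w
    · exact Or.inr hgt
    · left
      intro i
      obtain ⟨𝓑, hne, hdis, hvan, hcard⟩ := split_card H.part hn (fun t : Fin L =>
        eval₂ (algebraMap ℂ F) y (∑ i, C (σ (c (t, i))) * map σ (q i)) *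
          eval₂ (algebraMap ℂ F) y (lin ℂ n t) ^ D) (by
          rw [← hsum σ F (algebraMap ℂ F)]
          exact hy.mem ()) (by
        intro B hBc hB0 hBmin
        apply hgt
        have hc : Fintype.card {t // t ∈ B} = B.card := Fintype.card_coe B
        refine hD₂ D hDD2 F n w y hw hy.ne hy.gen hy.dim {t // t ∈ B} ?_ ?_
          (fun t => ∑ i, C (σ (c (t.1, i))) * map σ (q i)) (fun t => (t.1 : ℕ)) ?_
          (fun t => hhom σ t.1) ?_ ?_
        · rw [hc]
          exact (Finset.card_le_univ B).trans (by simp)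
        · rw [hc]
          exact hBc
        · intro a b hab
          exact Subtype.ext (Fin.ext hab)
        · have h1 := hB0
          rw [← Finset.sum_coe_sort] at h1
          exact h1
        · intro B' hB' hB'u
          exact sub_min (fun t : Fin L =>
            eval₂ (algebraMap ℂ F) y (∑ i, C (σ (c (t, i))) * map σ (q i)) *
              eval₂ (algebraMap ℂ F) y (lin ℂ n t) ^ D) B hBmin B' hB' hB'u)
      exact hkey σ F (algebraMap ℂ F) y 𝓑 hy.ne hne hdis hcard hvan i
  · intro R f hR hf hF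
    by_cases hmer : ∀ i l, (∃ z ∈ Ext R, f l z ≠ 0) → ∃ (ρ : ℂ → ℂ) (b : ℝ),
        MeromorphicAt ρ 0 ∧ R ≤ b ∧ ∀ z ∈ Ext b, f i z = ρ z⁻¹ * f l z
    · exact Or.inr hmer
    · left
      intro z hz i
      obtain ⟨𝓑, hne, hdis, hvan, hcard⟩ := split_card H.part hn (fun (t : Fin L) (z : Ext R) =>
        eval (fun j => f j z) (∑ i, C (σ (c (t, i))) * map σ (q i)) *
          eval (fun j => f j z) (lin ℂ n t) ^ D) (by
          funext z
          rw [Finset.sum_apply]
          have h1 := hF z.1 z.2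
          change eval₂ (RingHom.id ℂ) _ _ = 0 at h1
          rw [hsum σ ℂ (RingHom.id ℂ)] at h1
          exact h1) (by
        intro B hBc hB0 hBmin
        apply hmer
        have hc : Fintype.card {t // t ∈ B} = B.card := Fintype.card_coe B
        refine hD₃ D hDD3 {t // t ∈ B} ?_ ?_ ?_
          (fun t => ∑ i, C (σ (c (t.1, i))) * map σ (q i)) (fun t => (t.1 : ℕ)) ?_
          (fun t => hhom σ t.1) R f hR hf ?_ ?_
        · rw [hc]
          exact (Finset.card_le_univ B).trans (by simp)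
        · rw [hc]
          exact hBc
        · rw [hc]
          omega
        · intro a b hab
          exact Subtype.ext (Fin.ext hab)
        · intro z hz
          have h1 := congrFun hB0 ⟨z, hz⟩
          rw [← Finset.sum_coe_sort, Finset.sum_apply] at h1
          exact h1
        · intro B' hB' hB'u
          have h1 := sub_min (fun (t : Fin L) (z : Ext R) =>
            eval (fun j => f j z) (∑ i, C (σ (c (t, i))) * map σ (q i)) *
              eval (fun j => f j z) (lin ℂ n t) ^ D) B hBmin B' hB' hB'u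
          by_contra hcon
          push Not at hcon
          apply h1
          funext z
          rw [Finset.sum_apply]
          exact hcon z.1 z.2)
      by_cases hx : (fun j => f j z) = (0 : Fin (n + 1) → ℂ)
      · rw [hx]
        have h1 := eval₂_scale (RingHom.id ℂ) ((hq i).map σ) 0 (0 : Fin (n + 1) → ℂ)
        rw [zero_smul, zero_pow (by omega), zero_mul] at h1
        exact h1
      · refine hkey σ ℂ (RingHom.id ℂ) _ 𝓑 hx hne hdis hcard (fun B hBB => ?_) i
        have h1 := congrFun (hvan B hBB) ⟨z, hz⟩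
        rw [Finset.sum_apply] at h1
        exact h1
  · intro E _ _ _ y hy hyA
    by_cases hph : pht ℂ y ≤ max (canDeg ℂ E) 0
    · exact Or.inl hph
    · right
      intro i
      obtain ⟨𝓑, hne, hdis, hvan, hcard⟩ := split_card H.part hn (fun t : Fin L =>
        eval₂ (algebraMap ℂ E) y (∑ i, C (σ (c (t, i))) * map σ (q i)) *
          eval₂ (algebraMap ℂ E) y (lin ℂ n t) ^ D) (by
          rw [← hsum σ E (algebraMap ℂ E)]
          exact hyA) (by
        intro B hBc hB0 hBmin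
        apply hph
        have hc : Fintype.card {t // t ∈ B} = B.card := Fintype.card_coe B
        refine hD₄ D hDD4 ℂ E {t // t ∈ B} ?_ ?_ ?_
          (fun t => ∑ i, C (σ (c (t.1, i))) * map σ (q i)) (fun t => (t.1 : ℕ)) ?_
          (fun t => hhom σ t.1) y hy ?_ ?_
        · rw [hc]
          exact (Finset.card_le_univ B).trans (by simp)
        · rw [hc]
          omega
        · rw [hc]
          omega
        · intro a b hab
          exact Subtype.ext (Fin.ext hab)
        · have h1 := hB0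
          rw [← Finset.sum_coe_sort] at h1
          exact h1
        · intro B' hB' hB'u
          exact sub_min (fun t : Fin L =>
            eval₂ (algebraMap ℂ E) y (∑ i, C (σ (c (t, i))) * map σ (q i)) *
              eval₂ (algebraMap ℂ E) y (lin ℂ n t) ^ D) B hBmin B' hB' hB'u)
      exact hkey σ E (algebraMap ℂ E) y 𝓑 hy hne hdis hcard hvan i

end Pool.Agent.H911.GD
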