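import Pool.Agent.H911.GD.MoveD
import Pool.Agent.H911.GD.Abs

/-!
Projective varieties: the complement of the empty set `V(1)`. The classes of projective and of affine
varieties under projections.
-/

set_option autoImplicit false

namespace Pool.Agent.H911.GD

open MvPolynomial Metric FF Filter Topology
open Pool.Agent.N254.SQ (Eqs IsForm aeval_zero_of aeval_scale Gen NotIn ValueNotIn LogGeneral
  OnSpecialQ OnCurvesQ OnDiscsQ OnSpecial OnCurves OnDiscs ValueIn Extends ce_general qd_ne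
  qd_van qd_nhds)
open Pool.Agent.W602.GT (SubVar GeneralType coords)

theorem one_form {n : ℕ} : ∀ F ∈ ({1} : Set (MvPolynomial (Fin (n + 1)) ℂ)), IsForm F := by
  intro F hF
  rw [Set.mem_singleton_iff] at hF
  rw [hF]
  exact ⟨0, isHomogeneous_one _ _⟩

theorem notIn_one {n : ℕ} {L : Type} [Field L] [Algebra ℂ L] (y : Fin (n + 1) → L) :
    NotIn {1} y := ⟨1, rfl, by rw [map_one]; exact one_ne_zero⟩

theorem value_one {n : ℕ} {L : Type} [Field L] [Algebra ℂ L] {y : Fin (n + 1) → L} (hy : y ≠ 0)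
    (P : Place ℂ L) : ValueNotIn {1} y P := by
  obtain ⟨c, hc, hcV, k, hk⟩ := exists_norm P.O hy
  refine ⟨c, fun j => hcV j, ⟨k, ?_, ?_⟩, 1, rfl, ?_, ?_⟩
  · rw [hk]
    exact one_ne_zero
  · rw [hk]
    exact P.ord_one
  · rw [map_one]
    exact one_ne_zero
  · rw [map_one]
    exact P.ord_one

theorem log_one {n : ℕ} {L : Type} [Field L] [Algebra ℂ L] {w : ℕ} {y : Fin (n + 1) → L}
    (hy : y ≠ 0) : LogGeneral {1} L w y ↔ GeneralType ℂ L w := by
  constructor
  · rintro ⟨h0, N, hN, ω, h1, -, h2, h3⟩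
    exact ⟨h0, N, hN, ω, h1, fun P hP => h2 P hP (fun h => h (value_one hy P)), h3⟩
  · intro h
    exact ce_general h _

theorem special_one {n : ℕ} (S : Set (MvPolynomial (Fin (n + 1)) ℂ))
    (G : MvPolynomial (Fin (n + 1)) ℂ) : OnSpecialQ S {1} G ↔ OnSpecial S G := by
  constructor
  · intro h L _ _ w y hw hy
    rcases h L w y hw hy (notIn_one y) with h1 | h1
    · exact Or.inl ((log_one hy.ne).1 h1)
    · exact Or.inr h1
  · intro h L _ _ w y hw hy _
    rcases h L w y hw hy with h1 | h1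
    · exact Or.inl ((log_one hy.ne).2 h1)
    · exact Or.inr h1

theorem curves_one {n : ℕ} (S : Set (MvPolynomial (Fin (n + 1)) ℂ))
    (G : MvPolynomial (Fin (n + 1)) ℂ) : OnCurvesQ S {1} G ↔ OnCurves S G := by
  constructor
  · intro h f hf hf0 hS
    exact h f hf hf0 hS fun z => ⟨1, rfl, by rw [map_one]; exact one_ne_zero⟩
  · intro h f hf hf0 hS _
    exact h f hf hf0 hS

theorem discs_one {n : ℕ} {S : Set (MvPolynomial (Fin (n + 1)) ℂ)} (hS : ∀ p ∈ S, IsForm p)
    (G : MvPolynomial (Fin (n + 1)) ℂ) : OnDiscsQ S {1} G ↔ OnDiscs S G := by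
  constructor
  · intro h f hf hf0 hfS
    refine h f hf hf0 fun w hw => ?_
    have hne := qd_ne hf hf0 hw
    obtain ⟨k, ψ, hψ, hψw, hψe⟩ := ((hf.analyticOnNhd
      Pool.Agent.N254.SQ.disc_open w hw).exists_eventuallyEq_pow_smul_nonzero_iff).2 (by
      intro h1
      have h' : ∀ᶠ w' in 𝓝[≠] w, f w' = 0 := nhdsWithin_le_nhds h1
      obtain ⟨w', h2, h3⟩ := (h'.and hne).exists
      exact h3 h2)
    have hrel : ∀ᶠ w' in 𝓝[≠] w, ∃ c : ℂ, f w' = c • ψ w' := by
      filter_upwards [nhdsWithin_le_nhds hψe] with w' h2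
      exact ⟨(w' - w) ^ k, h2⟩
    refine ⟨ψ, hψ, hψw, hrel, fun p hp => ?_, 1, rfl, by rw [map_one]; exact one_ne_zero⟩
    refine qd_van (hS p hp) hψ.continuousAt hne hrel ?_
    filter_upwards [qd_nhds hw] with w' hw'
    exact hfS w' hw' p hp
  · intro h f hf hf0 hfS
    exact h f hf hf0 (disc_eqs hS hf hfS)

theorem special_fun {n : ℕ} (S : Set (MvPolynomial (Fin (n + 1)) ℂ)) :
    OnSpecialQ S {1} = OnSpecial S := funext fun G => propext (special_one S G)

theorem curves_fun {n : ℕ} (S : Set (MvPolynomial (Fin (n + 1)) ℂ)) :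
    OnCurvesQ S {1} = OnCurves S := funext fun G => propext (curves_one S G)

/-- projective varieties under projections -/
theorem compat_one {n N : ℕ} {L : Type} [Field L] [Algebra ℂ L] (y : Fin (n + 1) → L)
    (A : Fin (N + 1) → MvPolynomial (Fin (n + 1)) ℂ) : Compat y A {1} {1} := by
  intro Ω _ _ x _ _
  exact ⟨fun _ => ⟨1, rfl, by rw [map_one]; exact one_ne_zero⟩,
    fun _ => ⟨1, rfl, by rw [map_one]; exact one_ne_zero⟩⟩

/-- affine varieties under projections -/
theorem compat_affine {n N : ℕ} {L : Type} [Field L] [Algebra ℂ L] (y : Fin (n + 1) → L)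
    (A : Fin (N + 1) → MvPolynomial (Fin (n + 1)) ℂ) (hA : A 0 = X 0) :
    Compat y A {X 0} {X 0} := by
  intro Ω _ _ x _ _
  constructor
  · rintro ⟨F, hF, h⟩
    rw [Set.mem_singleton_iff] at hF
    subst hF
    refine ⟨X 0, rfl, ?_⟩
    rwa [aeval_X, hA]
  · rintro ⟨F, hF, h⟩
    rw [Set.mem_singleton_iff] at hF
    subst hF
    refine ⟨X 0, rfl, ?_⟩
    rwa [aeval_X, hA] at h

end Pool.Agent.H911.GD
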