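import Mathlib
import Pool.Graph.R_pool_sql_team_seeded_63374d34.N254.SQ.Comp
import Pool.Graph.R_pool_sql_team_seeded_63374d34.N254.SQ.LocDefs
import Pool.Agent.H911.QD.Model2

/-!
Values of generic points in the residue fields of valuation rings, and the finiteness of regular
linear projections.
-/

set_option autoImplicit false

namespace Pool.Agent.H911.GD

open MvPolynomial
open Pool.Agent.N254.SQ (Eqs IsForm aeval_zero_of)
open Pool.Agent.W602.GT (coords)

section

variable {L : Type} [Field L] [Algebra ℂ L] (V : ValuationSubring L)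

/-- the residue field as an algebra -/
@[instance_reducible] noncomputable def ralg (hV : ∀ c : ℂ, algebraMap ℂ L c ∈ V) :
    Algebra ℂ (IsLocalRing.ResidueField V) :=
  ((IsLocalRing.residue V).comp ((algebraMap ℂ L).codRestrict V.toSubring hV)).toAlgebra

theorem res_eval (hV : ∀ c : ℂ, algebraMap ℂ L c ∈ V) {n : ℕ} (x : Fin (n + 1) → V)
    (p : MvPolynomial (Fin (n + 1)) ℂ) :
    ∃ r : V, (r : L) = aeval (fun j => (x j : L)) p ∧
      IsLocalRing.residue V r = @aeval ℂ (IsLocalRing.ResidueField V) (Fin (n + 1)) _ _ (ralg V hV)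
        (fun j => IsLocalRing.residue V (x j)) p := by
  refine ⟨eval₂ ((algebraMap ℂ L).codRestrict V.toSubring hV) x p, ?_, ?_⟩
  · have h1 := MvPolynomial.hom_eval₂ p ((algebraMap ℂ L).codRestrict V.toSubring hV) V.subtype x
    exact h1
  · have h1 := MvPolynomial.hom_eval₂ p ((algebraMap ℂ L).codRestrict V.toSubring hV)
      (IsLocalRing.residue V) x
    exact h1

theorem exists_norm {n : ℕ} {y : Fin (n + 1) → L} (hy : y ≠ 0) :
    ∃ c : L, c ≠ 0 ∧ (∀ j, c * y j ∈ V) ∧ ∃ j, c * y j = 1 := by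
  classical
  obtain ⟨i, hi⟩ : ∃ i, y i ≠ 0 := by
    by_contra hcon
    push Not at hcon
    exact hy (funext hcon)
  obtain ⟨j, -, hj⟩ := Finset.exists_max_image Finset.univ (fun j => V.valuation (y j))
    ⟨i, Finset.mem_univ i⟩
  have hj0 : y j ≠ 0 := by
    intro h0
    have h1 := hj i (Finset.mem_univ i)
    rw [h0, map_zero, le_zero_iff, map_eq_zero] at h1
    exact hi h1
  refine ⟨(y j)⁻¹, inv_ne_zero hj0, fun k => ?_, j, inv_mul_cancel₀ hj0⟩
  rw [← V.valuation_le_one_iff, map_mul, map_inv₀]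
  have h1 := hj k (Finset.mem_univ k)
  have h2 : V.valuation (y j) ≠ 0 := (map_ne_zero _).2 hj0
  calc (V.valuation (y j))⁻¹ * V.valuation (y k) ≤ (V.valuation (y j))⁻¹ * V.valuation (y j) :=
        mul_le_mul_right h1 _
    _ = 1 := inv_mul_cancel₀ h2

end

/-- a regular linear projection is finite on the generic point -/
theorem alg_of_reg {L : Type} [Field L] [Algebra ℂ L] {n M : ℕ} (y : Fin (n + 1) → L)
    (hgen : coords ℂ y = ⊤) (hne : y ≠ 0) (A : Fin (M + 1) → MvPolynomial (Fin (n + 1)) ℂ)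
    (hA : ∀ i, (A i).IsHomogeneous 1)
    (hreg : ∀ (Ω : Type) [Field Ω] [Algebra ℂ Ω] (x : Fin (n + 1) → Ω), x ≠ 0 →
      (∀ p ∈ Eqs y, aeval x p = 0) → ∃ i, aeval x (A i) ≠ 0)
    (a : Fin (M + 1)) (ha : aeval y (A a) ≠ 0) (Mf : IntermediateField ℂ L)
    (hM : ∀ i, aeval y (A i) / aeval y (A a) ∈ Mf) : Algebra.IsAlgebraic Mf L := by
  classical
  have key : ∀ j, IsIntegral Mf (y j / aeval y (A a)) := by
    intro j
    by_contra hcon
    obtain ⟨R, hR⟩ : ∃ R : Subring L, R = (integralClosure Mf L).toSubring := ⟨_, rfl⟩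
    have hRm : ∀ z, z ∈ R ↔ IsIntegral Mf z := by
      intro z
      rw [hR]
      rfl
    have hi : IsIntegrallyClosedIn R L := by
      subst hR
      exact inferInstanceAs (IsIntegrallyClosedIn (integralClosure Mf L) L)
    obtain ⟨V, hRV, hxV⟩ := Subring.exists_le_valuationSubring_of_isIntegrallyClosedIn
      (x := y j / aeval y (A a)) (R := R) (fun h => hcon ((hRm _).1 h))
    have hMV : ∀ z ∈ Mf, z ∈ V := by
      intro z hz
      apply hRV
      rw [hRm]
      exact isIntegral_algebraMap (x := (⟨z, hz⟩ : Mf))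
    have hCV : ∀ c : ℂ, algebraMap ℂ L c ∈ V := fun c => hMV _ (Mf.algebraMap_mem c)
    obtain ⟨c, hc, hcV, k, hk⟩ := exists_norm V hne
    obtain ⟨x, hx⟩ : ∃ x : Fin (n + 1) → V, ∀ l, (x l : L) = c * y l :=
      ⟨fun l => ⟨c * y l, hcV l⟩, fun _ => rfl⟩
    have hx' : (fun l => (x l : L)) = c • y := by
      funext l
      rw [hx, Pi.smul_apply, smul_eq_mul]
    let _ := ralg V hCV
    have hxk : x k = 1 := Subtype.ext (by rw [hx, hk]; rfl)
    obtain ⟨i, hi⟩ := hreg (IsLocalRing.ResidueField V) (fun l => IsLocalRing.residue V (x l)) (by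
      intro h
      have h1 := congrFun h k
      rw [hxk, map_one] at h1
      exact one_ne_zero h1) (by
      rintro p ⟨hp, hpy⟩
      obtain ⟨r, hr, hr2⟩ := res_eval V hCV x p
      rw [hx', (aeval_zero_of hp hc y).2 hpy] at hr
      rw [← hr2]
      have : r = 0 := Subtype.ext hr
      rw [this, map_zero])
    apply hi
    -- the value of `A a` is zero
    obtain ⟨r, hr, hr2⟩ := res_eval V hCV x (A a)
    obtain ⟨s, hs, hs2⟩ := res_eval V hCV x (A i)
    have hsc : ∀ i, aeval (c • y) (A i) = c * aeval y (A i) := by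
      intro i
      have := Pool.Agent.N254.SQ.aeval_scale (hA i) c y
      rwa [pow_one] at this
    rw [hx', hsc] at hr hs
    have hrn : ¬ IsUnit r := by
      intro hu
      apply hxV
      obtain ⟨u, hu⟩ := hu
      have h1 : y j / aeval y (A a) = (x j : L) * ((u⁻¹ : Vˣ) : V) := by
        have h2 : (r : L) * (((u⁻¹ : Vˣ) : V) : L) = 1 := by
          rw [← hu]
          have := u.mul_inv
          exact congrArg (fun z : V => (z : L)) this
        have h3 : (((u⁻¹ : Vˣ) : V) : L) = (r : L)⁻¹ := eq_inv_of_mul_eq_one_right h2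
        rw [h3, hx, hr]
        field_simp
      rw [h1]
      exact V.mul_mem _ _ (x j).2 ((u⁻¹ : Vˣ) : V).2
    have hr0 : IsLocalRing.residue V r = 0 := by
      rw [IsLocalRing.residue_eq_zero_iff, IsLocalRing.mem_maximalIdeal]
      exact hrn
    have h1 : s = ⟨_, hMV _ (hM i)⟩ * r := by
      apply Subtype.ext
      change (s : L) = aeval y (A i) / aeval y (A a) * (r : L)
      rw [hs, hr]
      field_simp
    rw [← hs2, h1, map_mul, hr0, mul_zero]
  obtain ⟨b, hb⟩ : ∃ b, y b ≠ 0 := by
    by_contra hcon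
    push Not at hcon
    exact hne (funext hcon)
  -- all elements are algebraic
  obtain ⟨F, hF⟩ : ∃ F : IntermediateField Mf L, F = algebraicClosure Mf L := ⟨_, rfl⟩
  have hFm : ∀ z, z ∈ F ↔ IsAlgebraic Mf z := by
    intro z
    rw [hF]
    exact mem_algebraicClosure_iff
  have htop : (⊤ : IntermediateField ℂ L) ≤ F.restrictScalars ℂ := by
    rw [← hgen, Pool.Agent.H911.QD.coords_affine y b hb, IntermediateField.adjoin_le_iff]
    rintro _ ⟨j, rfl⟩
    have h1 : ∀ j, y j / aeval y (A a) ∈ F := fun j => (hFm _).2 (key j).isAlgebraic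
    have h2 : y j / y b = (y j / aeval y (A a)) / (y b / aeval y (A a)) := by
      rw [div_div_div_cancel_right₀ ha]
    change y j / y b ∈ F
    rw [h2]
    exact div_mem (h1 j) (h1 b)
  constructor
  intro z
  rw [← hFm]
  exact htop (show z ∈ (⊤ : IntermediateField ℂ L) from trivial)

end Pool.Agent.H911.GD
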